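import Pool.Agent.Work.MP_c21e2e_ag_helper46.Tools

namespace Pool.Agent.Work.C21

open MvPolynomial Module IsLocalRing

section BC

variable {R : Type*} [CommRing R]

/-- Homogeneous ideals over a ring. -/
def GHR (J : Ideal (MvPolynomial (Fin 4) R)) : Prop :=
  ∀ f ∈ J, ∀ n, homogeneousComponent n f ∈ J

/-- The forms of degree `t` in an ideal, inside the module of all forms. -/
noncomputable abbrev PieceSub (J : Ideal (MvPolynomial (Fin 4) R)) (t : ℕ) :
    Submodule R (homogeneousSubmodule (Fin 4) R t) :=
  (J.restrictScalars R).comap (homogeneousSubmodule (Fin 4) R t).subtype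

/-- The graded piece of the quotient. -/
abbrev Piece (J : Ideal (MvPolynomial (Fin 4) R)) (t : ℕ) : Type _ :=
  homogeneousSubmodule (Fin 4) R t ⧸ PieceSub J t

theorem degree_of_hom {G : MvPolynomial (Fin 4) R} {t : ℕ} (hG : G.IsHomogeneous t)
    {m : Fin 4 →₀ ℕ} (hm : m ∈ G.support) : Finsupp.degree m = t := by
  have h1 := hG (mem_support_iff.mp hm)
  rw [Finsupp.degree_eq_weight_one]
  exact h1

variable {F : Type*} [Field F] (ψ : R →+* F)

theorem comp_map (f : MvPolynomial (Fin 4) R) (n : ℕ) :
    homogeneousComponent n (MvPolynomial.map ψ f) =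
      MvPolynomial.map ψ (homogeneousComponent n f) := by
  ext m
  rw [coeff_homogeneousComponent, coeff_map, coeff_map, coeff_homogeneousComponent]
  split_ifs <;> simp

/-- Induction principle for the extension of a homogeneous ideal. -/
theorem comp_mem_of_forall {J : Ideal (MvPolynomial (Fin 4) R)} (hJ : GHR J) (t : ℕ)
    (N : Submodule F (S F)) (hN : ∀ f ∈ J, f.IsHomogeneous t → MvPolynomial.map ψ f ∈ N)
    {G : S F} (hG : G ∈ J.map (MvPolynomial.map ψ)) : homogeneousComponent t G ∈ N := by
  have key : ∀ G ∈ J.map (MvPolynomial.map ψ), ∀ a : S F, homogeneousComponent t (a * G) ∈ N := by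
    intro G hG
    induction hG using Submodule.span_induction with
    | mem x hx =>
      obtain ⟨f, hf', rfl⟩ := hx
      intro a
      rw [a.as_sum, Finset.sum_mul, map_sum]
      apply N.sum_mem
      intro m _
      have h1 : monomial m (coeff m a) * MvPolynomial.map ψ f =
          coeff m a • MvPolynomial.map ψ (monomial m 1 * f) := by
        rw [map_mul, map_monomial, map_one, smul_eq_C_mul, ← mul_assoc, C_mul_monomial, mul_one]
      rw [h1, map_smul, comp_map]
      apply N.smul_mem
      apply hN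
      · exact hJ _ (J.mul_mem_left _ hf') t
      · exact homogeneousComponent_isHomogeneous t _
    | zero => intro a; rw [mul_zero, map_zero]; exact N.zero_mem
    | add x y _ _ hx hy => intro a; rw [mul_add, map_add]; exact N.add_mem (hx a) (hy a)
    | smul b x _ hx =>
      intro a
      rw [smul_eq_mul, ← mul_assoc]
      exact hx _
  have := key G hG 1
  rwa [one_mul] at this

theorem GH_map {J : Ideal (MvPolynomial (Fin 4) R)} (hJ : GHR J) :
    GH (J.map (MvPolynomial.map ψ)) := by
  intro G hG n
  exact comp_mem_of_forall ψ hJ n ((J.map (MvPolynomial.map ψ)).restrictScalars F)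
    (fun f hf' _ => Ideal.mem_map_of_mem _ hf') hG

theorem pc_map_le {J : Ideal (MvPolynomial (Fin 4) R)} (hJ : GHR J) (t : ℕ)
    (N : Submodule F (S F)) (hN : ∀ f ∈ J, f.IsHomogeneous t → MvPolynomial.map ψ f ∈ N) :
    pc (J.map (MvPolynomial.map ψ)) t ≤ N := by
  intro G hG
  rw [mem_pc] at hG
  have := comp_mem_of_forall ψ hJ t N hN hG.1
  rwa [homogeneousComponent_eq_self hG.2] at this

/-- The Hilbert function of a fibre of a family with free graded piece. -/
theorem hf_map_of_basis {J : Ideal (MvPolynomial (Fin 4) R)} (hJ : GHR J) (t : ℕ) {ι : Type*}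
    [Fintype ι] (b : Basis ι R (Piece J t)) :
    hf (J.map (MvPolynomial.map ψ)) t = Fintype.card ι := by
  classical
  set π : homogeneousSubmodule (Fin 4) R t →ₗ[R] (ι → R) :=
    b.equivFun.toLinearMap ∘ₗ (PieceSub J t).mkQ with hπ
  have hsurj : Function.Surjective π := by
    rw [hπ, LinearMap.coe_comp]
    exact b.equivFun.surjective.comp (Submodule.mkQ_surjective _)
  have hker : ∀ h, π h = 0 ↔ (h : MvPolynomial (Fin 4) R) ∈ J := by
    intro h
    rw [hπ, LinearMap.comp_apply, LinearEquiv.coe_coe, LinearEquiv.map_eq_zero_iff,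
      Submodule.mkQ_apply, Submodule.Quotient.mk_eq_zero]
    rfl
  -- monomials
  let mon : (Fin 4 →₀ ℕ) → homogeneousSubmodule (Fin 4) R t := fun m =>
    if h : Finsupp.degree m = t then ⟨monomial m 1, by
      rw [mem_homogeneousSubmodule]
      exact isHomogeneous_monomial _ h⟩ else 0
  have hmon : ∀ m, Finsupp.degree m = t → ((mon m : _) : MvPolynomial (Fin 4) R) = monomial m 1 := by
    intro m h
    simp only [mon, h, dif_pos]
  let v : (Fin 4 →₀ ℕ) → (ι → F) := fun m i => ψ (π (mon m) i)
  let πF : S F →ₗ[F] (ι → F) := (basisMonomials (Fin 4) F).constr F v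
  have hπF : ∀ m c, πF (monomial m c) = c • v m := by
    intro m c
    have h1 : (monomial m c : S F) = c • (basisMonomials (Fin 4) F) m := by
      rw [coe_basisMonomials, smul_monomial, smul_eq_mul, mul_one]
    rw [h1, map_smul]
    congr 1
    exact (basisMonomials (Fin 4) F).constr_basis F v m
  have hkey : ∀ h : homogeneousSubmodule (Fin 4) R t,
      πF (MvPolynomial.map ψ (h : MvPolynomial (Fin 4) R)) = fun i => ψ (π h i) := by
    intro h
    have e1 : h = ∑ m ∈ (h : MvPolynomial (Fin 4) R).support,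
        coeff m (h : MvPolynomial (Fin 4) R) • mon m := by
      apply Subtype.ext
      rw [AddSubmonoidClass.coe_finsetSum]
      conv_lhs => rw [(h : MvPolynomial (Fin 4) R).as_sum]
      apply Finset.sum_congr rfl
      intro m hm
      rw [Submodule.coe_smul, hmon m (degree_of_hom h.2 hm), smul_monomial, smul_eq_mul, mul_one]
    have e2 : πF (MvPolynomial.map ψ (h : MvPolynomial (Fin 4) R)) =
        ∑ m ∈ (h : MvPolynomial (Fin 4) R).support,
          ψ (coeff m (h : MvPolynomial (Fin 4) R)) • v m := by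
      conv_lhs => rw [(h : MvPolynomial (Fin 4) R).as_sum, map_sum, map_sum]
      apply Finset.sum_congr rfl
      intro m _
      rw [map_monomial, hπF]
    rw [e2]
    funext i
    conv_rhs => rw [e1, map_sum, Finset.sum_apply, map_sum]
    rw [Finset.sum_apply]
    apply Finset.sum_congr rfl
    intro m _
    rw [map_smul, Pi.smul_apply, Pi.smul_apply, smul_eq_mul, smul_eq_mul, map_mul]
  choose h hh using fun i : ι => hsurj (Pi.single i 1)
  have hhF : ∀ i, πF (MvPolynomial.map ψ (h i : MvPolynomial (Fin 4) R)) = Pi.single i 1 := by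
    intro i
    rw [hkey, hh]
    funext j
    by_cases hij : j = i
    · subst hij; simp
    · simp [Pi.single_eq_of_ne hij]
  have hhom : ∀ i, (MvPolynomial.map ψ (h i : MvPolynomial (Fin 4) R)).IsHomogeneous t := fun i =>
    IsHomogeneous.map (h i).2 ψ
  have htop : (gr F t).map πF = ⊤ := by
    rw [eq_top_iff]
    intro x _
    refine ⟨∑ i, x i • MvPolynomial.map ψ (h i : MvPolynomial (Fin 4) R), ?_, ?_⟩
    · exact Submodule.sum_mem _ fun i _ => Submodule.smul_mem _ _ (hhom i)
    · rw [map_sum]
      funext j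
      rw [Finset.sum_apply, Finset.sum_eq_single j]
      · rw [map_smul, hhF, Pi.smul_apply, Pi.single_eq_same, smul_eq_mul, mul_one]
      · intro i _ hij
        rw [map_smul, hhF, Pi.smul_apply, Pi.single_eq_of_ne (Ne.symm hij), smul_zero]
      · intro hj; exact absurd (Finset.mem_univ j) hj
  have hk : (gr F t ⊓ LinearMap.ker πF : Submodule F (S F)) =
      pc (J.map (MvPolynomial.map ψ)) t := by
    apply le_antisymm
    · rintro G ⟨hG1, hG2⟩
      rw [SetLike.mem_coe, LinearMap.mem_ker] at hG2
      rw [SetLike.mem_coe, mem_homogeneousSubmodule] at hG1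
      rw [mem_pc]
      refine ⟨?_, hG1⟩
      have h1 : G - ∑ i, πF G i • MvPolynomial.map ψ (h i : MvPolynomial (Fin 4) R) ∈
          J.map (MvPolynomial.map ψ) := by
        let L : S F →ₗ[F] S F := LinearMap.id - ∑ i : ι, LinearMap.smulRight
          ((LinearMap.proj i : (ι → F) →ₗ[F] F) ∘ₗ πF)
          (MvPolynomial.map ψ (h i : MvPolynomial (Fin 4) R))
        have hL : ∀ G, L G = G - ∑ i, πF G i • MvPolynomial.map ψ (h i : MvPolynomial (Fin 4) R) := by
          intro G
          simp [L]
        have hLG : L G = ∑ m ∈ G.support, L (monomial m (coeff m G)) := by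
          conv_lhs => rw [G.as_sum, map_sum]
        rw [← hL, hLG]
        apply Ideal.sum_mem
        intro m hm
        have hm' := degree_of_hom hG1 hm
        have h2 : (monomial m (coeff m G) : S F) =
            coeff m G • MvPolynomial.map ψ (mon m : MvPolynomial (Fin 4) R) := by
          rw [hmon m hm', map_monomial, map_one, smul_monomial, smul_eq_mul, mul_one]
        rw [h2, map_smul, smul_eq_C_mul]
        apply Ideal.mul_mem_left
        have h3 : L (MvPolynomial.map ψ (mon m : MvPolynomial (Fin 4) R)) =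
            MvPolynomial.map ψ ((mon m - ∑ i, π (mon m) i • h i :
              homogeneousSubmodule (Fin 4) R t) : MvPolynomial (Fin 4) R) := by
          rw [hL, hkey, Submodule.coe_sub, map_sub, AddSubmonoidClass.coe_finsetSum, map_sum]
          congr 1
          apply Finset.sum_congr rfl
          intro i _
          rw [Submodule.coe_smul, smul_eq_C_mul, smul_eq_C_mul, map_mul, map_C]
        rw [h3]
        apply Ideal.mem_map_of_mem
        rw [← hker, map_sub, map_sum, sub_eq_zero]
        funext j
        rw [Finset.sum_apply, Finset.sum_eq_single j]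
        · rw [map_smul, hh, Pi.smul_apply, Pi.single_eq_same, smul_eq_mul, mul_one]
        · intro i _ hij
          rw [map_smul, hh, Pi.smul_apply, Pi.single_eq_of_ne (Ne.symm hij), smul_zero]
        · intro hj; exact absurd (Finset.mem_univ j) hj
      rw [hG2] at h1
      simpa using h1
    · apply le_inf (pc_le_gr _ _)
      apply pc_map_le ψ hJ
      intro f hf1 hf2
      rw [LinearMap.mem_ker]
      have := hkey ⟨f, hf2⟩
      rw [(hker ⟨f, hf2⟩).mpr hf1] at this
      rw [this]
      funext i
      simp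
  have h1 := finrank_map_add_inf_ker πF (gr F t)
  rw [htop, hk, finrank_top, Module.finrank_fintype_fun_eq_card] at h1
  have h2 := hf_add_dd (J.map (MvPolynomial.map ψ)) t
  unfold dd nn at h2
  omega

instance instFinitePiece (J : Ideal (MvPolynomial (Fin 4) R)) (t : ℕ) :
    Module.Finite R (Piece J t) := by
  have : Module.Finite R (homogeneousSubmodule (Fin 4) R t) :=
    Module.Finite.iff_fg.mpr (homogeneousSubmodule_fg (Fin 4) R t)
  infer_instance

/-- The Hilbert function is constant in families over local rings. -/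
theorem hf_map_of_flat [IsLocalRing R] {J : Ideal (MvPolynomial (Fin 4) R)} (hJ : GHR J) (t : ℕ)
    (hflat : Module.Flat R (Piece J t)) :
    hf (J.map (MvPolynomial.map ψ)) t = finrank R (Piece J t) := by
  have hfree : Module.Free R (Piece J t) := Module.free_of_flat_of_isLocalRing
  rw [hf_map_of_basis ψ hJ t (Module.Free.chooseBasis R (Piece J t)),
    Module.finrank_eq_card_chooseBasisIndex]

end BC

section Fields

variable {k F : Type*} [Field k] [Field F] (θ : k →+* F)

theorem pc_map_mono {𝔞 𝔟 : Ideal (S k)} (ha : GH 𝔞) {t : ℕ} (h : pc 𝔞 t ≤ pc 𝔟 t) :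
    pc (𝔞.map (MvPolynomial.map θ)) t ≤ pc (𝔟.map (MvPolynomial.map θ)) t := by
  apply le_inf
  · apply pc_map_le θ ha
    intro f hf1 hf2
    have : f ∈ pc 𝔟 t := h (by rw [mem_pc]; exact ⟨hf1, hf2⟩)
    rw [mem_pc] at this
    exact Ideal.mem_map_of_mem _ this.1
  · exact pc_le_gr _ _

theorem pc_map_eq {𝔞 𝔟 : Ideal (S k)} (ha : GH 𝔞) (hb : GH 𝔟) {t : ℕ} (h : pc 𝔞 t = pc 𝔟 t) :
    pc (𝔞.map (MvPolynomial.map θ)) t = pc (𝔟.map (MvPolynomial.map θ)) t :=
  le_antisymm (pc_map_mono θ ha h.le) (pc_map_mono θ hb h.ge)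

theorem hf_eq_finrank_piece (𝔞 : Ideal (S k)) (t : ℕ) : hf 𝔞 t = finrank k (Piece 𝔞 t) := by
  have h1 : finrank k (Piece 𝔞 t) + finrank k (PieceSub 𝔞 t) = finrank k (gr k t) :=
    Submodule.finrank_quotient_add_finrank (PieceSub 𝔞 t)
  have h2 : (PieceSub 𝔞 t).map (gr k t).subtype = pc 𝔞 t := by
    ext x
    rw [Submodule.mem_map, mem_pc]
    constructor
    · rintro ⟨y, hy, rfl⟩
      exact ⟨hy, y.2⟩
    · rintro ⟨h1, h2⟩
      exact ⟨⟨x, h2⟩, h1, rfl⟩
  have h3 : finrank k (pc 𝔞 t) = finrank k (PieceSub 𝔞 t) := by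
    rw [← h2]
    exact Submodule.finrank_map_subtype_eq (gr k t) (PieceSub 𝔞 t)
  have h4 := hf_add_dd 𝔞 t
  unfold dd nn at h4
  omega

theorem hf_map_field {𝔞 : Ideal (S k)} (ha : GH 𝔞) (t : ℕ) :
    hf (𝔞.map (MvPolynomial.map θ)) t = hf 𝔞 t := by
  rw [hf_map_of_basis θ ha t (Module.Free.chooseBasis k (Piece 𝔞 t)), hf_eq_finrank_piece,
    Module.finrank_eq_card_chooseBasisIndex]

end Fields

end Pool.Agent.Work.C21
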