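import Mathlib

namespace Pool.Agent.Work.C21

open MvPolynomial Module

/-- The polynomial ring in four variables. -/
abbrev S (K : Type*) [Field K] := MvPolynomial (Fin 4) K

section LinAlg

variable {K V W : Type*} [Field K] [AddCommGroup V] [Module K V] [AddCommGroup W] [Module K W]

theorem finrank_map_add_inf_ker (ψ : V →ₗ[K] W) (U : Submodule K V) [FiniteDimensional K U] :
    finrank K (U.map ψ) + finrank K (U ⊓ LinearMap.ker ψ : Submodule K V) = finrank K U := by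
  have h := LinearMap.finrank_range_add_finrank_ker (ψ.domRestrict U)
  rw [LinearMap.range_domRestrict] at h
  rw [← h]
  congr 1
  have e : (LinearMap.ker (ψ.domRestrict U)).map U.subtype = (U ⊓ LinearMap.ker ψ) := by
    ext x
    simp only [Submodule.mem_map, LinearMap.mem_ker, LinearMap.domRestrict_apply,
      Submodule.subtype_apply, Subtype.exists, exists_and_right, exists_eq_right, Submodule.mem_inf]
    constructor
    · rintro ⟨a, b⟩; exact ⟨a, b⟩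
    · rintro ⟨a, b⟩; exact ⟨a, b⟩
  rw [← e]
  exact Submodule.finrank_map_subtype_eq _ _

end LinAlg

variable {K : Type*} [Field K]

/-- Homogeneous forms of degree `t`. -/
abbrev gr (K : Type*) [Field K] (t : ℕ) : Submodule K (S K) := homogeneousSubmodule (Fin 4) K t

instance instFinGr (t : ℕ) : FiniteDimensional K (gr K t) :=
  Module.Finite.iff_fg.mpr (homogeneousSubmodule_fg (Fin 4) K t)

/-- The degree `t` part of an ideal. -/
noncomputable def pc (𝔞 : Ideal (S K)) (t : ℕ) : Submodule K (S K) := 𝔞.restrictScalars K ⊓ gr K t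

theorem mem_pc {𝔞 : Ideal (S K)} {t : ℕ} {x : S K} :
    x ∈ pc 𝔞 t ↔ x ∈ 𝔞 ∧ x.IsHomogeneous t := by
  simp [pc, mem_homogeneousSubmodule]

instance instFinPc (𝔞 : Ideal (S K)) (t : ℕ) : FiniteDimensional K (pc 𝔞 t) :=
  Submodule.finiteDimensional_inf_right _ _

theorem pc_le_gr (𝔞 : Ideal (S K)) (t : ℕ) : pc 𝔞 t ≤ gr K t := inf_le_right

theorem pc_mono {𝔞 𝔟 : Ideal (S K)} (h : 𝔞 ≤ 𝔟) (t : ℕ) : pc 𝔞 t ≤ pc 𝔟 t :=
  inf_le_inf_right _ (fun _ hx => h hx)

/-- Number of monomials of degree `t`. -/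
noncomputable def nn (K : Type*) [Field K] (t : ℕ) : ℕ := finrank K (gr K t)

/-- Dimension of the degree `t` part of an ideal. -/
noncomputable def dd (𝔞 : Ideal (S K)) (t : ℕ) : ℕ := finrank K (pc 𝔞 t)

/-- Hilbert function of the quotient by an ideal. -/
noncomputable def hf (𝔞 : Ideal (S K)) (t : ℕ) : ℕ := nn K t - dd 𝔞 t

theorem dd_le_nn (𝔞 : Ideal (S K)) (t : ℕ) : dd 𝔞 t ≤ nn K t :=
  Submodule.finrank_mono (pc_le_gr 𝔞 t)

theorem hf_add_dd (𝔞 : Ideal (S K)) (t : ℕ) : hf 𝔞 t + dd 𝔞 t = nn K t :=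
  Nat.sub_add_cancel (dd_le_nn 𝔞 t)

theorem dd_mono {𝔞 𝔟 : Ideal (S K)} (h : 𝔞 ≤ 𝔟) (t : ℕ) : dd 𝔞 t ≤ dd 𝔟 t :=
  Submodule.finrank_mono (pc_mono h t)

theorem hf_anti {𝔞 𝔟 : Ideal (S K)} (h : 𝔞 ≤ 𝔟) (t : ℕ) : hf 𝔟 t ≤ hf 𝔞 t := by
  have := dd_mono h t
  unfold hf; omega

theorem hf_le_nn (𝔞 : Ideal (S K)) (t : ℕ) : hf 𝔞 t ≤ nn K t := Nat.sub_le _ _

theorem hf_top (t : ℕ) : hf (⊤ : Ideal (S K)) t = 0 := by
  have : pc (⊤ : Ideal (S K)) t = gr K t := by
    ext x; simp [mem_pc]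
  unfold hf dd nn
  rw [this, Nat.sub_self]

/-- The quotient map as a `K`-linear map. -/
noncomputable def qk (𝔞 : Ideal (S K)) : S K →ₗ[K] (S K ⧸ 𝔞) := (Ideal.Quotient.mkₐ K 𝔞).toLinearMap

theorem mem_ker_qk {𝔞 : Ideal (S K)} {x : S K} : x ∈ LinearMap.ker (qk 𝔞) ↔ x ∈ 𝔞 := by
  simp [qk, Ideal.Quotient.eq_zero_iff_mem]

theorem finrank_map_qk_gr (𝔞 : Ideal (S K)) (t : ℕ) : finrank K ((gr K t).map (qk 𝔞)) = hf 𝔞 t := by
  have h := finrank_map_add_inf_ker (qk 𝔞) (gr K t)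
  have e : (gr K t ⊓ LinearMap.ker (qk 𝔞) : Submodule K (S K)) = pc 𝔞 t := by
    ext x
    rw [Submodule.mem_inf, mem_ker_qk, mem_pc, mem_homogeneousSubmodule, and_comm]
  rw [e] at h
  have := hf_add_dd 𝔞 t
  unfold dd nn at this
  omega

/-- Lemma G: general lower bound. -/
theorem hf_lower {𝔞 𝔟 𝔠 : Ideal (S K)} (h : 𝔞 ≤ 𝔟) {f : S K} {c : ℕ} (hf' : f.IsHomogeneous c)
    (hfb : f ∈ 𝔟) (t : ℕ) (H : ∀ g : S K, g.IsHomogeneous t → f * g ∈ 𝔞 → g ∈ 𝔠) :
    hf 𝔟 (t + c) + hf 𝔠 t ≤ hf 𝔞 (t + c) := by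
  set ψ : S K →ₗ[K] (S K ⧸ 𝔞) := (qk 𝔞) ∘ₗ (LinearMap.mulLeft K f) with hψ
  have h1 := finrank_map_add_inf_ker ψ (gr K t)
  have h2 : finrank K (gr K t ⊓ LinearMap.ker ψ : Submodule K (S K)) ≤ dd 𝔠 t := by
    apply Submodule.finrank_mono
    intro x hx
    rw [Submodule.mem_inf, mem_homogeneousSubmodule, LinearMap.mem_ker] at hx
    rw [mem_pc]
    refine ⟨H x hx.1 ?_, hx.1⟩
    have := hx.2
    rwa [hψ, LinearMap.comp_apply, LinearMap.mulLeft_apply, ← LinearMap.mem_ker, mem_ker_qk] at this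
  have h3 := finrank_map_add_inf_ker (qk 𝔞) (pc 𝔟 (t + c))
  have e : (pc 𝔟 (t + c) ⊓ LinearMap.ker (qk 𝔞) : Submodule K (S K)) = pc 𝔞 (t + c) := by
    ext x
    rw [Submodule.mem_inf, mem_ker_qk, mem_pc, mem_pc]
    constructor
    · rintro ⟨⟨_, h2⟩, h3⟩; exact ⟨h3, h2⟩
    · rintro ⟨h2, h3⟩; exact ⟨⟨h h2, h3⟩, h2⟩
  rw [e] at h3
  have h4 : (gr K t).map ψ ≤ (pc 𝔟 (t + c)).map (qk 𝔞) := by
    rw [hψ, Submodule.map_comp]
    apply Submodule.map_mono
    rintro _ ⟨x, hx, rfl⟩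
    rw [mem_pc]
    refine ⟨𝔟.mul_mem_right _ hfb, ?_⟩
    rw [LinearMap.mulLeft_apply, add_comm]
    exact hf'.mul hx
  have h5 := Submodule.finrank_mono h4
  have h6 := hf_add_dd 𝔞 (t + c)
  have h7 := hf_add_dd 𝔟 (t + c)
  have h8 := hf_add_dd 𝔠 t
  unfold dd nn at *
  omega

theorem hf_inf_le (𝔞 𝔟 : Ideal (S K)) (t : ℕ) : hf (𝔞 ⊓ 𝔟) t ≤ hf 𝔞 t + hf 𝔟 t := by
  have h1 := Submodule.finrank_sup_add_finrank_inf_eq (pc 𝔞 t) (pc 𝔟 t)
  have h2 : pc 𝔞 t ⊔ pc 𝔟 t ≤ gr K t := sup_le (pc_le_gr _ _) (pc_le_gr _ _)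
  have h3 := Submodule.finrank_mono h2
  have h4 : pc 𝔞 t ⊓ pc 𝔟 t = pc (𝔞 ⊓ 𝔟) t := by
    ext x; simp only [Submodule.mem_inf, mem_pc]; tauto
  rw [h4] at h1
  have h6 := hf_add_dd 𝔞 t
  have h7 := hf_add_dd 𝔟 t
  have h8 := hf_add_dd (𝔞 ⊓ 𝔟) t
  unfold dd nn at *
  omega

theorem hf_iInf_le {ι : Type*} (s : Finset ι) (𝔞 : ι → Ideal (S K)) (t : ℕ) :
    hf (⨅ i ∈ s, 𝔞 i) t ≤ ∑ i ∈ s, hf (𝔞 i) t := by
  classical
  induction s using Finset.induction_on with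
  | empty => simp [hf_top]
  | insert a s ha ih =>
    rw [Finset.iInf_insert, Finset.sum_insert ha]
    exact (hf_inf_le _ _ t).trans (by omega)

/-- If degree `t` forms are sums then the Hilbert function of an intersection is additive. -/
theorem hf_inf_eq {𝔞 𝔟 : Ideal (S K)} {t : ℕ} (h : gr K t ≤ pc 𝔞 t ⊔ pc 𝔟 t) :
    hf (𝔞 ⊓ 𝔟) t = hf 𝔞 t + hf 𝔟 t := by
  have h1 := Submodule.finrank_sup_add_finrank_inf_eq (pc 𝔞 t) (pc 𝔟 t)
  have h2 : pc 𝔞 t ⊔ pc 𝔟 t = gr K t := le_antisymm (sup_le (pc_le_gr _ _) (pc_le_gr _ _)) h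
  have h4 : pc 𝔞 t ⊓ pc 𝔟 t = pc (𝔞 ⊓ 𝔟) t := by
    ext x; simp only [Submodule.mem_inf, mem_pc]; tauto
  rw [h4, h2] at h1
  have h6 := hf_add_dd 𝔞 t
  have h7 := hf_add_dd 𝔟 t
  have h8 := hf_add_dd (𝔞 ⊓ 𝔟) t
  unfold dd nn at *
  omega

/-! ### Homogeneous ideals -/

/-- Homogeneous ideals (closed under taking homogeneous components). -/
def GH (𝔞 : Ideal (S K)) : Prop := ∀ p ∈ 𝔞, ∀ n, homogeneousComponent n p ∈ 𝔞

theorem comp_mul_right {f g : S K} {c : ℕ} (hg : g.IsHomogeneous c) (n : ℕ) :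
    homogeneousComponent (n + c) (f * g) = homogeneousComponent n f * g := by
  classical
  conv_lhs => rw [← sum_homogeneousComponent f, Finset.sum_mul, map_sum]
  have h : ∀ i ∈ Finset.range (f.totalDegree + 1),
      homogeneousComponent (n + c) (homogeneousComponent i f * g) =
        if i = n then homogeneousComponent n f * g else 0 := by
    intro i _
    have hm : homogeneousComponent i f * g ∈ homogeneousSubmodule (Fin 4) K (i + c) :=
      (homogeneousComponent_isHomogeneous i f).mul hg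
    rw [homogeneousComponent_of_mem hm]
    by_cases hi : i = n
    · subst hi; simp
    · rw [if_neg (by omega), if_neg hi]
  rw [Finset.sum_congr rfl h, Finset.sum_ite_eq']
  split_ifs with hn
  · rfl
  · rw [homogeneousComponent_eq_zero n f (by simpa using hn), zero_mul]

theorem comp_mul_left {f g : S K} {c : ℕ} (hg : g.IsHomogeneous c) (n : ℕ) :
    homogeneousComponent (n + c) (g * f) = g * homogeneousComponent n f := by
  rw [mul_comm, comp_mul_right hg, mul_comm]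

theorem comp_mul_lt {f g : S K} {c n : ℕ} (hg : g.IsHomogeneous c) (hn : n < c) :
    homogeneousComponent n (f * g) = 0 := by
  classical
  conv_lhs => rw [← sum_homogeneousComponent f, Finset.sum_mul, map_sum]
  apply Finset.sum_eq_zero
  intro i _
  have hm : homogeneousComponent i f * g ∈ homogeneousSubmodule (Fin 4) K (i + c) :=
    (homogeneousComponent_isHomogeneous i f).mul hg
  rw [homogeneousComponent_of_mem hm, if_neg (by omega)]

theorem mem_of_components {𝔞 : Ideal (S K)} {p : S K} (h : ∀ n, homogeneousComponent n p ∈ 𝔞) :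
    p ∈ 𝔞 := by
  rw [← sum_homogeneousComponent p]
  exact Ideal.sum_mem _ fun i _ => h i

theorem exists_comp_not_mem {𝔞 : Ideal (S K)} {p : S K} (h : p ∉ 𝔞) :
    ∃ n, homogeneousComponent n p ∉ 𝔞 := by
  by_contra hc
  push Not at hc
  exact h (mem_of_components hc)

theorem GH.exists_hom_not_mem {𝔞 𝔟 : Ideal (S K)} (ha : GH 𝔞) (h : ¬ 𝔞 ≤ 𝔟) :
    ∃ (f : S K) (c : ℕ), f.IsHomogeneous c ∧ f ∈ 𝔞 ∧ f ∉ 𝔟 := by
  obtain ⟨p, hp, hpb⟩ := Set.not_subset.mp h
  obtain ⟨n, hn⟩ := exists_comp_not_mem hpb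
  exact ⟨_, n, homogeneousComponent_isHomogeneous n p, ha p hp n, hn⟩

theorem GH_top : GH (⊤ : Ideal (S K)) := fun _ _ _ => trivial

theorem GH.inf {𝔞 𝔟 : Ideal (S K)} (ha : GH 𝔞) (hb : GH 𝔟) : GH (𝔞 ⊓ 𝔟) :=
  fun p hp n => ⟨ha p hp.1 n, hb p hp.2 n⟩

theorem GH.iInf {ι : Sort*} {𝔞 : ι → Ideal (S K)} (h : ∀ i, GH (𝔞 i)) : GH (⨅ i, 𝔞 i) := by
  intro p hp n
  rw [Ideal.mem_iInf] at hp ⊢
  exact fun i => h i p (hp i) n

theorem GH_span {s : Set (S K)} (h : ∀ x ∈ s, ∃ c, x.IsHomogeneous c) : GH (Ideal.span s) := by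
  intro p hp n
  induction hp using Submodule.span_induction generalizing n with
  | mem x hx =>
    obtain ⟨c, hc⟩ := h x hx
    rw [homogeneousComponent_of_mem hc]
    split_ifs
    · exact Ideal.subset_span hx
    · exact zero_mem _
  | zero => simp
  | add x y _ _ hx hy => rw [map_add]; exact add_mem (hx n) (hy n)
  | smul a x hx ih =>
    rw [smul_eq_mul]
    have : a * x = ∑ i ∈ Finset.range (x.totalDegree + 1), a * homogeneousComponent i x := by
      rw [← Finset.mul_sum, sum_homogeneousComponent]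
    rw [this, map_sum]
    refine Ideal.sum_mem _ fun i _ => ?_
    rcases lt_or_ge n i with hlt | hge
    · rw [comp_mul_lt (homogeneousComponent_isHomogeneous i x) hlt]; exact zero_mem _
    · obtain ⟨k, rfl⟩ := Nat.exists_eq_add_of_le' hge
      rw [comp_mul_right (homogeneousComponent_isHomogeneous i x)]
      exact Ideal.mul_mem_left _ _ (ih i)

/-- A homogeneous ideal is spanned by its homogeneous elements. -/
theorem GH.eq_span {𝔞 : Ideal (S K)} (ha : GH 𝔞) :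
    𝔞 = Ideal.span {x | x ∈ 𝔞 ∧ ∃ c, x.IsHomogeneous c} := by
  apply le_antisymm
  · intro p hp
    apply mem_of_components
    intro n
    exact Ideal.subset_span ⟨ha p hp n, n, homogeneousComponent_isHomogeneous n p⟩
  · exact Ideal.span_le.mpr fun x hx => hx.1

theorem GH.sup {𝔞 𝔟 : Ideal (S K)} (ha : GH 𝔞) (hb : GH 𝔟) : GH (𝔞 ⊔ 𝔟) := by
  intro p hp n
  obtain ⟨x, hx, y, hy, rfl⟩ := Submodule.mem_sup.mp hp
  rw [map_add]
  exact Submodule.add_mem_sup (ha x hx n) (hb y hy n)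

theorem GH.mul {𝔞 𝔟 : Ideal (S K)} (ha : GH 𝔞) (hb : GH 𝔟) : GH (𝔞 * 𝔟) := by
  rw [ha.eq_span, hb.eq_span, Ideal.span_mul_span]
  apply GH_span
  intro x hx
  obtain ⟨a, ⟨_, c, hc⟩, b, ⟨_, d, hd⟩, rfl⟩ := Set.mem_mul.mp hx
  exact ⟨c + d, hc.mul hd⟩

theorem GH.pow {𝔞 : Ideal (S K)} (ha : GH 𝔞) (n : ℕ) : GH (𝔞 ^ n) := by
  induction n with
  | zero => rw [pow_zero, Ideal.one_eq_top]; exact GH_top
  | succ n ih => rw [pow_succ]; exact ih.mul ha

theorem GH_prod {ι : Type*} (s : Finset ι) {𝔞 : ι → Ideal (S K)} (h : ∀ i ∈ s, GH (𝔞 i)) :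
    GH (∏ i ∈ s, 𝔞 i) := by
  classical
  induction s using Finset.induction_on with
  | empty => rw [Finset.prod_empty, Ideal.one_eq_top]; exact GH_top
  | insert a s ha ih =>
    rw [Finset.prod_insert ha]
    exact (h a (Finset.mem_insert_self _ _)).mul (ih fun i hi => h i (Finset.mem_insert_of_mem hi))

/-- Homogeneous generators with degrees. -/
theorem GH.exists_gens {𝔞 : Ideal (S K)} (ha : GH 𝔞) :
    ∃ s : Finset (S K × ℕ), (∀ p ∈ s, p.1 ∈ 𝔞 ∧ p.1.IsHomogeneous p.2) ∧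
      ∀ t, pc 𝔞 t ≤ ⨆ p ∈ s.filter (fun p => p.2 ≤ t),
        (gr K (t - p.2)).map (LinearMap.mulLeft K p.1) := by
  classical
  obtain ⟨F, hF⟩ := (isNoetherianRing_iff_ideal_fg (S K)).mp inferInstance 𝔞
  -- homogeneous components of the generators
  let s : Finset (S K × ℕ) := F.biUnion fun x =>
    (Finset.range (x.totalDegree + 1)).image fun i => (homogeneousComponent i x, i)
  have hs : ∀ p ∈ s, p.1 ∈ 𝔞 ∧ p.1.IsHomogeneous p.2 := by
    intro p hp
    simp only [s, Finset.mem_biUnion, Finset.mem_image] at hp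
    obtain ⟨x, hx, i, _, rfl⟩ := hp
    exact ⟨ha x (hF ▸ Ideal.subset_span hx) i, homogeneousComponent_isHomogeneous i x⟩
  refine ⟨s, hs, ?_⟩
  -- multiplication by a form
  have hmul : ∀ (i t : ℕ) (g : S K), g.IsHomogeneous i →
      (⨆ p ∈ s.filter (fun p => p.2 ≤ t), (gr K (t - p.2)).map (LinearMap.mulLeft K p.1)).map
        (LinearMap.mulLeft K g) ≤
      ⨆ p ∈ s.filter (fun p => p.2 ≤ t + i),
        (gr K (t + i - p.2)).map (LinearMap.mulLeft K p.1) := by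
    intro i t g hg
    rw [Submodule.map_iSup]
    apply iSup_le
    intro p
    rw [Submodule.map_iSup]
    apply iSup_le
    intro hp
    rw [Finset.mem_filter] at hp
    have hp' : p ∈ s.filter (fun p => p.2 ≤ t + i) := by
      rw [Finset.mem_filter]; exact ⟨hp.1, by omega⟩
    rintro _ ⟨_, ⟨h, hh, rfl⟩, rfl⟩
    refine Submodule.mem_iSup_of_mem p (Submodule.mem_iSup_of_mem hp' ⟨g * h, ?_, ?_⟩)
    · have : t + i - p.2 = i + (t - p.2) := by omega
      rw [this]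
      exact hg.mul hh
    · simp only [LinearMap.mulLeft_apply]; ring
  have key : ∀ y ∈ 𝔞, ∀ t, homogeneousComponent t y ∈ ⨆ p ∈ s.filter (fun p => p.2 ≤ t),
        (gr K (t - p.2)).map (LinearMap.mulLeft K p.1) := by
    intro y hy
    rw [← hF] at hy
    induction hy using Submodule.span_induction with
    | mem z hz =>
      intro t
      by_cases htz : t < z.totalDegree + 1
      · have hmem : (homogeneousComponent t z, t) ∈ s.filter (fun p => p.2 ≤ t) := by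
          rw [Finset.mem_filter]
          refine ⟨?_, le_refl _⟩
          simp only [s, Finset.mem_biUnion, Finset.mem_image]
          exact ⟨z, hz, t, Finset.mem_range.mpr htz, rfl⟩
        refine Submodule.mem_iSup_of_mem _ (Submodule.mem_iSup_of_mem hmem ?_)
        refine ⟨1, ?_, ?_⟩
        · rw [Nat.sub_self]; exact isHomogeneous_one _ _
        · simp
      · rw [homogeneousComponent_eq_zero t z (by omega)]; exact zero_mem _
    | zero => intro t; rw [map_zero]; exact zero_mem _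
    | add x y _ _ hx hy => intro t; rw [map_add]; exact add_mem (hx t) (hy t)
    | smul a z _ ih =>
      intro t
      rw [smul_eq_mul]
      have : a * z = ∑ i ∈ Finset.range (a.totalDegree + 1), homogeneousComponent i a * z := by
        rw [← Finset.sum_mul, sum_homogeneousComponent]
      rw [this, map_sum]
      refine Submodule.sum_mem _ fun i _ => ?_
      rcases lt_or_ge t i with hlt | hge
      · rw [mul_comm, comp_mul_lt (homogeneousComponent_isHomogeneous i a) hlt]; exact zero_mem _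
      · obtain ⟨k, rfl⟩ := Nat.exists_eq_add_of_le' hge
        rw [comp_mul_left (homogeneousComponent_isHomogeneous i a)]
        exact hmul i k _ (homogeneousComponent_isHomogeneous i a) ⟨_, ih k, rfl⟩
  intro t x hx
  rw [mem_pc] at hx
  have := key x hx.1 t
  rwa [homogeneousComponent_eq_self hx.2] at this

/-- Lemma U: general upper bound. -/
theorem hf_upper {𝔞 𝔟 𝔠 : Ideal (S K)} (h : 𝔞 ≤ 𝔟) {s : Finset (S K × ℕ)}
    (hs : ∀ p ∈ s, p.1.IsHomogeneous p.2)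
    (hgen : ∀ t, pc 𝔟 t ≤ ⨆ p ∈ s.filter (fun p => p.2 ≤ t),
        (gr K (t - p.2)).map (LinearMap.mulLeft K p.1))
    (hc : ∀ p ∈ s, ∀ x ∈ 𝔠, p.1 * x ∈ 𝔞) (t : ℕ) :
    hf 𝔞 t ≤ hf 𝔟 t + ∑ p ∈ s, hf 𝔠 (t - p.2) := by
  classical
  have h3 := finrank_map_add_inf_ker (qk 𝔞) (pc 𝔟 t)
  have e : (pc 𝔟 t ⊓ LinearMap.ker (qk 𝔞) : Submodule K (S K)) = pc 𝔞 t := by
    ext x
    rw [Submodule.mem_inf, mem_ker_qk, mem_pc, mem_pc]
    constructor
    · rintro ⟨⟨_, h2⟩, h3⟩; exact ⟨h3, h2⟩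
    · rintro ⟨h2, h3⟩; exact ⟨⟨h h2, h3⟩, h2⟩
  rw [e] at h3
  have key : ∀ u ⊆ s, finrank K ((⨆ p ∈ u,
      (gr K (t - p.2)).map (LinearMap.mulLeft K p.1)).map (qk 𝔞)) ≤
        ∑ p ∈ u, hf 𝔠 (t - p.2) := by
    intro u
    induction u using Finset.induction_on with
    | empty =>
      intro _
      rw [← Finset.sup_eq_iSup, Finset.sup_empty, Submodule.map_bot, finrank_bot]
      exact Nat.zero_le _
    | insert a u ha ih =>
      intro hu
      rw [Finset.iSup_insert, Finset.sum_insert ha, Submodule.map_sup]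
      have hau : a ∈ s := hu (Finset.mem_insert_self _ _)
      have : FiniteDimensional K ((⨆ p ∈ u,
          (gr K (t - p.2)).map (LinearMap.mulLeft K p.1)).map (qk 𝔞)) := by
        have : FiniteDimensional K (⨆ p ∈ u,
          (gr K (t - p.2)).map (LinearMap.mulLeft K p.1) : Submodule K (S K)) := by
          rw [← Finset.sup_eq_iSup]
          exact Submodule.finiteDimensional_finset_sup _ _
        infer_instance
      refine (Submodule.finrank_add_le_finrank_add_finrank _ _).trans ?_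
      refine Nat.add_le_add ?_ (ih fun x hx => hu (Finset.mem_insert_of_mem hx))
      rw [← Submodule.map_comp]
      have h1 := finrank_map_add_inf_ker ((qk 𝔞) ∘ₗ (LinearMap.mulLeft K a.1)) (gr K (t - a.2))
      have h2 : dd 𝔠 (t - a.2) ≤ finrank K (gr K (t - a.2) ⊓
          LinearMap.ker ((qk 𝔞) ∘ₗ (LinearMap.mulLeft K a.1)) : Submodule K (S K)) := by
        apply Submodule.finrank_mono
        intro x hx
        rw [mem_pc] at hx
        rw [Submodule.mem_inf, LinearMap.mem_ker, LinearMap.comp_apply, ← LinearMap.mem_ker,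
          mem_ker_qk, LinearMap.mulLeft_apply]
        exact ⟨hx.2, hc a hau x hx.1⟩
      have h6 := hf_add_dd 𝔠 (t - a.2)
      unfold nn at h6
      omega
  have h4 := key (s.filter (fun p => p.2 ≤ t)) (Finset.filter_subset _ _)
  have h5 : finrank K ((pc 𝔟 t).map (qk 𝔞)) ≤ finrank K ((⨆ p ∈ s.filter (fun p => p.2 ≤ t),
        (gr K (t - p.2)).map (LinearMap.mulLeft K p.1)).map (qk 𝔞)) := by
    have : FiniteDimensional K ((⨆ p ∈ s.filter (fun p => p.2 ≤ t),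
          (gr K (t - p.2)).map (LinearMap.mulLeft K p.1)).map (qk 𝔞)) := by
        have : FiniteDimensional K (⨆ p ∈ s.filter (fun p => p.2 ≤ t),
          (gr K (t - p.2)).map (LinearMap.mulLeft K p.1) : Submodule K (S K)) := by
          rw [← Finset.sup_eq_iSup]
          exact Submodule.finiteDimensional_finset_sup _ _
        infer_instance
    exact Submodule.finrank_mono (Submodule.map_mono (hgen t))
  have h6 : ∑ p ∈ s.filter (fun p => p.2 ≤ t), hf 𝔠 (t - p.2) ≤ ∑ p ∈ s, hf 𝔠 (t - p.2) :=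
    Finset.sum_le_sum_of_subset (Finset.filter_subset _ _)
  have h7 := hf_add_dd 𝔞 t
  have h8 := hf_add_dd 𝔟 t
  unfold dd nn at *
  omega

/-! ### Bounded Hilbert function -/

/-- Ideals with bounded Hilbert function. -/
def Bdd (𝔞 : Ideal (S K)) : Prop := ∃ C, ∀ t, hf 𝔞 t ≤ C

theorem Bdd.mono {𝔞 𝔟 : Ideal (S K)} (h : 𝔞 ≤ 𝔟) (ha : Bdd 𝔞) : Bdd 𝔟 := by
  obtain ⟨C, hC⟩ := ha
  exact ⟨C, fun t => (hf_anti h t).trans (hC t)⟩

theorem Bdd_of_eventually {𝔞 : Ideal (S K)} (C T : ℕ) (h : ∀ t ≥ T, hf 𝔞 t ≤ C) : Bdd 𝔞 := by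
  refine ⟨C + ∑ i ∈ Finset.range T, hf 𝔞 i, fun t => ?_⟩
  rcases lt_or_ge t T with hlt | hge
  · have : hf 𝔞 t ≤ ∑ i ∈ Finset.range T, hf 𝔞 i :=
      Finset.single_le_sum (f := fun i => hf 𝔞 i) (fun _ _ => Nat.zero_le _)
        (Finset.mem_range.mpr hlt)
    omega
  · have := h t hge; omega

theorem Bdd_top : Bdd (⊤ : Ideal (S K)) := ⟨0, fun t => by rw [hf_top]⟩

theorem Bdd.mul {𝔞 𝔟 : Ideal (S K)} (ha : Bdd 𝔞) (hb : Bdd 𝔟) (gb : GH 𝔟) : Bdd (𝔞 * 𝔟) := by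
  obtain ⟨C, hC⟩ := ha
  obtain ⟨D, hD⟩ := hb
  obtain ⟨s, hs, hgen⟩ := gb.exists_gens
  refine ⟨D + s.card * C, fun t => ?_⟩
  have h1 : ∀ p ∈ s, ∀ x ∈ 𝔞, p.1 * x ∈ 𝔞 * 𝔟 := by
    intro p hp x hx
    rw [mul_comm p.1 x]
    exact Ideal.mul_mem_mul hx (hs p hp).1
  have h2 := hf_upper (𝔞 := 𝔞 * 𝔟) (𝔟 := 𝔟) (𝔠 := 𝔞) (Ideal.mul_le_right)
    (fun p hp => (hs p hp).2) hgen h1 t
  have h3 : ∑ p ∈ s, hf 𝔞 (t - p.2) ≤ s.card * C := by
    refine (Finset.sum_le_card_nsmul _ _ C fun p _ => hC _).trans ?_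
    rw [smul_eq_mul]
  have h4 := hD t
  omega

theorem Bdd.pow {𝔞 : Ideal (S K)} (ha : Bdd 𝔞) (ga : GH 𝔞) (n : ℕ) : Bdd (𝔞 ^ n) := by
  induction n with
  | zero => rw [pow_zero, Ideal.one_eq_top]; exact Bdd_top
  | succ n ih => rw [pow_succ]; exact ih.mul ha ga

theorem Bdd_prod {ι : Type*} (s : Finset ι) {𝔞 : ι → Ideal (S K)} (h : ∀ i ∈ s, GH (𝔞 i))
    (hb : ∀ i ∈ s, Bdd (𝔞 i)) : Bdd (∏ i ∈ s, 𝔞 i) := by
  classical
  induction s using Finset.induction_on with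
  | empty => rw [Finset.prod_empty, Ideal.one_eq_top]; exact Bdd_top
  | insert a s ha ih =>
    rw [Finset.prod_insert ha, mul_comm]
    exact (ih (fun i hi => h i (Finset.mem_insert_of_mem hi))
      (fun i hi => hb i (Finset.mem_insert_of_mem hi))).mul
      (hb a (Finset.mem_insert_self _ _)) (h a (Finset.mem_insert_self _ _))

end Pool.Agent.Work.C21
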