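import Pool.Agent.Work.MP_c21e2e_ag_helper46.Red

namespace Pool.Agent.Work.C21

open MvPolynomial Module IsLocalRing

variable {K : Type*} [Field K] (A : ValuationSubring K) (O : ValuationSubring (ResidueField A))

theorem comp_aux {y : K} (hy : y ∈ A) : (∃ h : y ∈ A, residue A ⟨y, h⟩ ∈ O) ∨
    (∃ h : y⁻¹ ∈ A, residue A ⟨y⁻¹, h⟩ ∈ O) := by
  by_cases h0 : residue A ⟨y, hy⟩ = 0
  · left; exact ⟨hy, by rw [h0]; exact O.zero_mem⟩
  · rw [← ne_eq, residue_ne_zero_iff_isUnit] at h0
    obtain ⟨z, hz⟩ := h0.exists_right_inv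
    have hz' : y * (z : K) = 1 := congrArg Subtype.val hz
    have hzy : y⁻¹ = (z : K) := inv_eq_of_mul_eq_one_right hz'
    have hr : residue A ⟨y, hy⟩ * residue A z = 1 := by rw [← map_mul, hz, map_one]
    have hr' : (residue A ⟨y, hy⟩)⁻¹ = residue A z := inv_eq_of_mul_eq_one_right hr
    rcases O.mem_or_inv_mem (residue A ⟨y, hy⟩) with h | h
    · left; exact ⟨hy, h⟩
    · right
      refine ⟨by rw [hzy]; exact z.2, ?_⟩
      rw [hr'] at h
      convert h using 2
      exact Subtype.ext hzy

/-- The composite valuation ring. -/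
def compV : ValuationSubring K where
  carrier := {x | ∃ h : x ∈ A, residue A ⟨x, h⟩ ∈ O}
  mul_mem' := by
    rintro x y ⟨hx, hx'⟩ ⟨hy, hy'⟩
    refine ⟨A.mul_mem _ _ hx hy, ?_⟩
    have e : residue A ⟨x * y, A.mul_mem _ _ hx hy⟩ = residue A ⟨x, hx⟩ * residue A ⟨y, hy⟩ := by
      rw [← map_mul]; rfl
    rw [e]
    exact O.mul_mem _ _ hx' hy'
  one_mem' := ⟨A.one_mem, by
    have e : residue A ⟨1, A.one_mem⟩ = 1 := map_one _
    rw [e]; exact O.one_mem⟩
  add_mem' := by
    rintro x y ⟨hx, hx'⟩ ⟨hy, hy'⟩
    refine ⟨A.add_mem _ _ hx hy, ?_⟩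
    have e : residue A ⟨x + y, A.add_mem _ _ hx hy⟩ = residue A ⟨x, hx⟩ + residue A ⟨y, hy⟩ := by
      rw [← map_add]; rfl
    rw [e]
    exact O.add_mem _ _ hx' hy'
  zero_mem' := ⟨A.zero_mem, by
    have e : residue A ⟨0, A.zero_mem⟩ = 0 := map_zero _
    rw [e]; exact O.zero_mem⟩
  neg_mem' := by
    rintro x ⟨hx, hx'⟩
    refine ⟨A.neg_mem _ hx, ?_⟩
    have e : residue A ⟨-x, A.neg_mem _ hx⟩ = - residue A ⟨x, hx⟩ := by
      rw [← map_neg]; rfl
    rw [e]
    exact O.neg_mem _ hx'
  mem_or_inv_mem' := by
    intro x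
    rcases A.mem_or_inv_mem x with h | h
    · exact comp_aux A O h
    · rcases comp_aux A O h with h' | h'
      · right; exact h'
      · left
        rwa [inv_inv] at h'

theorem mem_compV {x : K} : x ∈ compV A O ↔ ∃ h : x ∈ A, residue A ⟨x, h⟩ ∈ O := Iff.rfl

/-- The inclusion of the composite ring. -/
def compIncl : compV A O →+* A where
  toFun b := ⟨b.1, ((mem_compV A O).mp b.2).fst⟩
  map_one' := rfl
  map_mul' _ _ := rfl
  map_zero' := rfl
  map_add' _ _ := rfl

/-- The reduction of the composite ring. -/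
noncomputable def compRed : compV A O →+* O where
  toFun b := ⟨residue A (compIncl A O b), ((mem_compV A O).mp b.2).snd⟩
  map_one' := Subtype.ext
    (show residue A (compIncl A O 1) = (1 : ResidueField A) by rw [map_one, map_one])
  map_mul' x y := Subtype.ext
    (show residue A (compIncl A O (x * y)) =
      residue A (compIncl A O x) * residue A (compIncl A O y) by rw [map_mul, map_mul])
  map_zero' := Subtype.ext
    (show residue A (compIncl A O 0) = (0 : ResidueField A) by rw [map_zero, map_zero])
  map_add' x y := Subtype.ext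
    (show residue A (compIncl A O (x + y)) =
      residue A (compIncl A O x) + residue A (compIncl A O y) by rw [map_add, map_add])

theorem compRed_coe (b : compV A O) : ((compRed A O b : O) : ResidueField A) =
    residue A (compIncl A O b) := rfl

theorem compRed_surjective : Function.Surjective (compRed A O) := by
  intro o
  obtain ⟨a, ha⟩ := residue_surjective (R := A) (o : ResidueField A)
  refine ⟨⟨a.1, (mem_compV A O).mpr ⟨a.2, by
    have : (⟨a.1, a.2⟩ : A) = a := rfl
    rw [this, ha]; exact o.2⟩⟩, ?_⟩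
  apply Subtype.ext
  exact ha

theorem isLocalHom_comp : IsLocalHom ((residue O).comp (compRed A O)) := by
  constructor
  intro b hb
  have h1 : residue O (compRed A O b) ≠ 0 := hb.ne_zero
  rw [residue_ne_zero_iff_isUnit] at h1
  obtain ⟨o, ho⟩ := h1.exists_right_inv
  obtain ⟨c, rfl⟩ := compRed_surjective A O o
  -- the element `b * c` reduces to `1`
  have h2 : residue A (compIncl A O b) * residue A (compIncl A O c) = 1 := by
    have := congrArg Subtype.val ho
    rwa [MulMemClass.coe_mul, compRed_coe, compRed_coe] at this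
  have h3 : residue A (compIncl A O b) ≠ 0 := left_ne_zero_of_mul_eq_one h2
  rw [residue_ne_zero_iff_isUnit] at h3
  obtain ⟨d, hd⟩ := h3.exists_right_inv
  have h4 : residue A (compIncl A O b) * residue A d = 1 := by rw [← map_mul, hd, map_one]
  have h5 : residue A d = residue A (compIncl A O c) := mul_left_cancel₀
    (left_ne_zero_of_mul_eq_one h2) (h4.trans h2.symm)
  have h6 : (d : K) ∈ compV A O := by
    refine (mem_compV A O).mpr ⟨d.2, ?_⟩
    have : residue A (⟨d.1, d.2⟩ : A) = residue A d := rfl
    rw [this, h5]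
    exact (compRed A O c).2
  refine IsUnit.of_mul_eq_one ⟨d.1, h6⟩ ?_
  apply Subtype.ext
  have := congrArg Subtype.val hd
  exact this

/-- The map on residue fields. -/
noncomputable def compTheta : ResidueField (compV A O) →+* ResidueField O :=
  letI := isLocalHom_comp A O
  ResidueField.lift ((residue O).comp (compRed A O))

theorem compTheta_residue (b : compV A O) :
    compTheta A O (residue (compV A O) b) = residue O (compRed A O b) := by
  have := isLocalHom_comp A O
  unfold compTheta
  rw [ResidueField.lift_residue_apply]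
  rfl

theorem compTheta_surjective : Function.Surjective (compTheta A O) := by
  intro x
  obtain ⟨o, rfl⟩ := residue_surjective x
  obtain ⟨b, rfl⟩ := compRed_surjective A O o
  exact ⟨residue _ b, compTheta_residue A O b⟩

/-- Reductions compose. -/
theorem map_redI_compV {I : Ideal (S K)} {f : S (ResidueField (compV A O))}
    (hf' : f ∈ redI (compV A O) I) :
    MvPolynomial.map (compTheta A O) f ∈ redI O (redI A I) := by
  rw [mem_redI] at hf'
  obtain ⟨x, hx, rfl⟩ := hf'
  rw [mem_redI]
  refine ⟨MvPolynomial.map (compRed A O) x, ?_, ?_⟩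
  · have h1 : inc O (MvPolynomial.map (compRed A O) x) =
        rho A (MvPolynomial.map (compIncl A O) x) := by
      ext m
      rw [coeff_inc, coeff_map, compRed_coe, coeff_rho, coeff_map]
    rw [h1, mem_redI]
    refine ⟨_, ?_, rfl⟩
    have h2 : inc A (MvPolynomial.map (compIncl A O) x) = inc (compV A O) x := by
      ext m
      rw [coeff_inc, coeff_map, coeff_inc]
      rfl
    rw [h2]
    exact hx
  · ext m
    rw [coeff_rho, coeff_map, coeff_map, coeff_rho, compTheta_residue]

end Pool.Agent.Work.C21
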