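import Pool.Agent.Work.MP_c21e2e_ag_helper46.Tools

namespace Pool.Agent.Work.C21

open MvPolynomial Module

/-- Abstract properties of the curve in characteristic two. -/
structure Cfg (κ : Type*) [Field κ] (C : Type*) [Fintype C] [DecidableEq C] where
  P : C → Ideal (S κ)
  Q : C → Ideal (S κ)
  dbl : C → Bool
  n : C → ℕ
  hcard : Fintype.card C = 17
  hsum : ∑ c, (if dbl c = true then 2 else 1) = 26
  prime : ∀ c, (P c).IsPrime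
  gP : ∀ c, GH (P c)
  gQ : ∀ c, GH (Q c)
  QP : ∀ c, Q c ≤ P c
  QeP : ∀ c, dbl c = false → Q c = P c
  prim : ∀ c f g, f ∉ P c → f * g ∈ Q c → g ∈ Q c
  sq : ∀ c, P c ^ 2 ≤ Q c
  hfP : ∀ c t, hf (P c) t = t + 1
  hfQ : ∀ c, dbl c = true → ∃ T, ∀ t ≥ T, hf (Q c) t = 2 * t + n c + 1
  big : ∀ c, dbl c = true → 834 ≤ n c
  phi : ∀ c, dbl c = true → ∀ (f : S κ) (k : ℕ), f.IsHomogeneous k → f ∈ P c → f ∉ Q c →
    ∃ (φ : S κ) (j : ℕ), φ.IsHomogeneous j ∧ φ ∉ P c ∧ ∀ p ∈ P c, φ * p ∈ Q c ⊔ Ideal.span {f}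
  lin : ∀ c c', c ≠ c' → ∃ l : S κ, l.IsHomogeneous 1 ∧ l ∈ P c' ∧ l ∉ P c
  skew : ∀ c c', c ≠ c' → dbl c = dbl c' → mm κ ≤ P c ⊔ P c'
  h : S κ
  l : S κ
  hh : h.IsHomogeneous 1
  hl : l.IsHomogeneous 1
  hhl : ∀ c, mm κ ≤ P c ⊔ Ideal.span {h} ⊔ Ideal.span {l}
  hfX : ∃ T, ∀ t ≥ T, hf (⨅ c, Q c) t + 88 ≤
    ∑ c, (if dbl c = true then 2 * t + n c + 1 else t + 1)
  inc : C → C → Bool
  noninc : ∀ c c', dbl c = true → dbl c' = false → inc c c' = false → mm κ ≤ P c ⊔ P c'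
  hinc : ∑ j ∈ Finset.univ.filter (fun j => dbl j = false),
    (Finset.univ.filter (fun i => dbl i = true ∧ inc i j = true)).card = 44

namespace Cfg

variable {κ : Type*} [Field κ] {C : Type*} [Fintype C] [DecidableEq C] (X : Cfg κ C)

theorem exists_F (c : C) : ∃ F : S κ, F.IsHomogeneous 32 ∧ F ∉ X.P c ∧ ∀ c', c' ≠ c → F ∈ X.Q c' := by
  have h1 : ∀ c' : C, ∃ l : S κ, c' ≠ c → l.IsHomogeneous 1 ∧ l ∈ X.P c' ∧ l ∉ X.P c := by
    intro c'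
    by_cases h : c' = c
    · exact ⟨0, fun h' => absurd h h'⟩
    · obtain ⟨l, hl⟩ := X.lin c c' (Ne.symm h)
      exact ⟨l, fun _ => hl⟩
  choose l hl using h1
  have hp := X.prime c
  refine ⟨∏ c' ∈ Finset.univ.erase c, l c' ^ 2, ?_, ?_, ?_⟩
  · have h2 : (∏ c' ∈ Finset.univ.erase c, l c' ^ 2).IsHomogeneous
        (∑ c' ∈ Finset.univ.erase c, 1 * 2) := by
      apply IsHomogeneous.prod
      intro c' hc'
      exact (hl c' (Finset.ne_of_mem_erase hc')).1.pow 2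
    have h3 : ∑ c' ∈ Finset.univ.erase c, 1 * 2 = 32 := by
      rw [Finset.sum_const, Finset.card_erase_of_mem (Finset.mem_univ c), Finset.card_univ,
        X.hcard]
      rfl
    rwa [h3] at h2
  · intro hmem
    rw [hp.prod_mem_iff] at hmem
    obtain ⟨c', hc', hc''⟩ := hmem
    exact (hl c' (Finset.ne_of_mem_erase hc')).2.2 (hp.mem_of_pow_mem _ hc'')
  · intro c' hc'
    rw [← Finset.mul_prod_erase _ _ (Finset.mem_erase.mpr ⟨hc', Finset.mem_univ c'⟩)]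
    apply Ideal.mul_mem_right
    apply X.sq c'
    exact Ideal.pow_mem_pow (hl c' hc').2.1 2

/-- The local component of an ideal. -/
noncomputable def kk (𝔟 : Ideal (S κ)) (c : C) : Ideal (S κ) := by
  classical
  exact if 𝔟 ≤ X.Q c then X.Q c else if 𝔟 ≤ X.P c then X.P c else ⊤

/-- The local multiplicity of an ideal. -/
noncomputable def mu (𝔟 : Ideal (S κ)) (c : C) : ℕ := by
  classical
  exact if 𝔟 ≤ X.Q c then (if X.dbl c = true then 2 else 1) else if 𝔟 ≤ X.P c then 1 else 0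

theorem kk_cases (𝔟 : Ideal (S κ)) (c : C) :
    (𝔟 ≤ X.Q c ∧ X.kk 𝔟 c = X.Q c ∧ X.mu 𝔟 c = if X.dbl c = true then 2 else 1) ∨
    (¬ 𝔟 ≤ X.Q c ∧ 𝔟 ≤ X.P c ∧ X.kk 𝔟 c = X.P c ∧ X.mu 𝔟 c = 1) ∨
    (¬ 𝔟 ≤ X.Q c ∧ ¬ 𝔟 ≤ X.P c ∧ X.kk 𝔟 c = ⊤ ∧ X.mu 𝔟 c = 0) := by
  unfold kk mu
  by_cases h1 : 𝔟 ≤ X.Q c
  · left; simp [h1]
  · by_cases h2 : 𝔟 ≤ X.P c
    · right; left; simp [h1, h2]
    · right; right; simp [h1, h2]

theorem mu_le (𝔟 : Ideal (S κ)) (c : C) : X.mu 𝔟 c ≤ if X.dbl c = true then 2 else 1 := by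
  rcases X.kk_cases 𝔟 c with ⟨_, _, h⟩ | ⟨_, _, _, h⟩ | ⟨_, _, _, h⟩ <;> rw [h] <;> split_ifs <;>
    omega

theorem mu_pos_iff (𝔟 : Ideal (S κ)) (c : C) : 0 < X.mu 𝔟 c ↔ 𝔟 ≤ X.P c := by
  rcases X.kk_cases 𝔟 c with ⟨h1, _, h⟩ | ⟨_, h2, _, h⟩ | ⟨_, h2, _, h⟩
  · rw [h]
    constructor
    · intro _; exact h1.trans (X.QP c)
    · intro _; split_ifs <;> omega
  · rw [h]; simp [h2]
  · rw [h]; simp [h2]

theorem le_kk (𝔟 : Ideal (S κ)) (c : C) : 𝔟 ≤ X.kk 𝔟 c := by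
  rcases X.kk_cases 𝔟 c with ⟨h1, h, _⟩ | ⟨_, h2, h, _⟩ | ⟨_, _, h, _⟩ <;> rw [h]
  · exact h1
  · exact h2
  · exact le_top

theorem Q_le_kk (𝔟 : Ideal (S κ)) (c : C) : X.Q c ≤ X.kk 𝔟 c := by
  rcases X.kk_cases 𝔟 c with ⟨h1, h, _⟩ | ⟨_, h2, h, _⟩ | ⟨_, _, h, _⟩ <;> rw [h]
  · exact X.QP c
  · exact le_top

theorem GH_kk (𝔟 : Ideal (S κ)) (c : C) : GH (X.kk 𝔟 c) := by
  rcases X.kk_cases 𝔟 c with ⟨h1, h, _⟩ | ⟨_, h2, h, _⟩ | ⟨_, _, h, _⟩ <;> rw [h]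
  · exact X.gQ c
  · exact X.gP c
  · exact GH_top

theorem prim_kk (𝔟 : Ideal (S κ)) (c : C) {f g : S κ} (hf' : f ∉ X.P c) (h : f * g ∈ X.kk 𝔟 c) :
    g ∈ X.kk 𝔟 c := by
  rcases X.kk_cases 𝔟 c with ⟨h1, h2, _⟩ | ⟨_, _, h2, _⟩ | ⟨_, _, h2, _⟩ <;> rw [h2] at h ⊢
  · exact X.prim c f g hf' h
  · exact ((X.prime c).mem_or_mem h).resolve_left hf'
  · trivial

/-- Lower bound for the Hilbert function of an intersection. -/
theorem sum_hf_le (k : C → Ideal (S κ)) (hQ : ∀ c, X.Q c ≤ k c)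
    (hprim : ∀ c (f g : S κ), f ∉ X.P c → f * g ∈ k c → g ∈ k c) (s : Finset C) (t : ℕ) :
    ∑ c ∈ s, hf (k c) t ≤ hf (⨅ c ∈ s, k c) (t + 32) := by
  induction s using Finset.induction_on with
  | empty => simp
  | insert a s ha ih =>
    obtain ⟨F, hF1, hF2, hF3⟩ := X.exists_F a
    rw [Finset.sum_insert ha, Finset.iInf_insert]
    have h1 := hf_lower (𝔞 := k a ⊓ ⨅ c ∈ s, k c) (𝔟 := ⨅ c ∈ s, k c) (𝔠 := k a) inf_le_right
      hF1 (by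
        rw [Ideal.mem_iInf]
        intro c
        rw [Ideal.mem_iInf]
        intro hc
        exact hQ c (hF3 c (fun h => ha (h ▸ hc)))) t (by
        intro g _ hg
        exact hprim a F g hF2 hg.1)
    omega

/-- Lower bound (S1). -/
theorem sum_kk_le (𝔟 : Ideal (S κ)) (t : ℕ) : ∑ c, hf (X.kk 𝔟 c) t ≤ hf 𝔟 (t + 32) := by
  have h1 := X.sum_hf_le (X.kk 𝔟) (X.Q_le_kk 𝔟) (fun c f g => X.prim_kk 𝔟 c) Finset.univ t
  refine h1.trans (hf_anti ?_ _)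
  exact le_iInf fun c => le_iInf fun _ => X.le_kk 𝔟 c

/-- The ideals which agree with the curve in large degrees. -/
def Cont (𝔟 : Ideal (S κ)) : Prop := ∃ T, mm κ ^ T * (⨅ c, X.Q c) ≤ 𝔟

theorem Cont.mono {X : Cfg κ C} {𝔟 𝔡 : Ideal (S κ)} (h : X.Cont 𝔟) (h' : 𝔟 ≤ 𝔡) : X.Cont 𝔡 := by
  obtain ⟨T, hT⟩ := h
  exact ⟨T, hT.trans h'⟩

theorem exists_g {𝔟 : Ideal (S κ)} (hX : X.Cont 𝔟) (c : C) :
    ∃ (g : S κ) (k : ℕ), g.IsHomogeneous k ∧ g ∉ X.P c ∧ ∀ x ∈ X.Q c, g * x ∈ 𝔟 := by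
  obtain ⟨T, hT⟩ := hX
  obtain ⟨F, hF1, hF2, hF3⟩ := X.exists_F c
  refine ⟨F ^ T * F, _, (hF1.pow T).mul hF1, ?_, ?_⟩
  · intro h
    rcases (X.prime c).mem_or_mem h with h | h
    · exact hF2 ((X.prime c).mem_of_pow_mem _ h)
    · exact hF2 h
  · intro x hx
    rw [mul_assoc]
    apply hT
    apply Ideal.mul_mem_mul
    · apply hom_mem_mm_pow (hF1.pow T)
      nlinarith
    · rw [Ideal.mem_iInf]
      intro c'
      by_cases h : c' = c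
      · subst h; exact Ideal.mul_mem_left _ _ hx
      · exact Ideal.mul_mem_right _ _ (hF3 c' h)

theorem exists_g' {𝔟 : Ideal (S κ)} (hb : GH 𝔟) (hX : X.Cont 𝔟) (c : C) :
    ∃ (g : S κ) (k : ℕ), g.IsHomogeneous k ∧ g ∉ X.P c ∧ ∀ x ∈ X.kk 𝔟 c, g * x ∈ 𝔟 := by
  rcases X.kk_cases 𝔟 c with ⟨h1, h, _⟩ | ⟨h1, h2, h, _⟩ | ⟨_, h2, h, _⟩ <;> rw [h]
  · exact X.exists_g hX c
  · obtain ⟨f, k, hfk, hfb, hfQ⟩ := hb.exists_hom_not_mem h1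
    have hd : X.dbl c = true := by
      by_contra hd
      rw [Bool.not_eq_true] at hd
      exact h1 (by rw [X.QeP c hd]; exact h2)
    obtain ⟨φ, j, hφ1, hφ2, hφ3⟩ := X.phi c hd f k hfk (h2 hfb) hfQ
    obtain ⟨g, k', hg1, hg2, hg3⟩ := X.exists_g hX c
    refine ⟨g * φ, _, hg1.mul hφ1, ?_, ?_⟩
    · intro hm
      rcases (X.prime c).mem_or_mem hm with hm | hm
      · exact hg2 hm
      · exact hφ2 hm
    · intro x hx
      obtain ⟨q, hq, y, hy, hqy⟩ := Submodule.mem_sup.mp (hφ3 x hx)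
      rw [mul_assoc, ← hqy, mul_add]
      refine add_mem (hg3 q hq) (𝔟.mul_mem_left _ ?_)
      obtain ⟨a, rfl⟩ := Ideal.mem_span_singleton'.mp hy
      exact 𝔟.mul_mem_left _ hfb
  · obtain ⟨f, k, hfk, hfb, hfP⟩ := hb.exists_hom_not_mem h2
    exact ⟨f, k, hfk, hfP, fun x _ => 𝔟.mul_mem_right _ hfb⟩

theorem LB_P (c : C) : LB (X.P c) 1 := ⟨0, fun t => by rw [X.hfP]; omega⟩

theorem UB_P (c : C) : UB (X.P c) 1 := ⟨1, fun t => by rw [X.hfP]; omega⟩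

theorem UB_Q (c : C) : UB (X.Q c) (if X.dbl c = true then 2 else 1) := by
  split_ifs with h
  · obtain ⟨T, hT⟩ := X.hfQ c h
    exact UB_of_eventually (X.n c + 1) T fun t ht => by rw [hT t ht]; omega
  · rw [Bool.not_eq_true] at h
    rw [X.QeP c h]
    exact X.UB_P c

theorem UB_kk (𝔟 : Ideal (S κ)) (c : C) : UB (X.kk 𝔟 c) (X.mu 𝔟 c) := by
  rcases X.kk_cases 𝔟 c with ⟨_, h1, h2⟩ | ⟨_, _, h1, h2⟩ | ⟨_, _, h1, h2⟩ <;> rw [h1, h2]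
  · exact X.UB_Q c
  · exact X.UB_P c
  · exact ⟨0, fun t => by rw [hf_top]; omega⟩

/-- Upper bound (S2). -/
theorem UB_mu {𝔟 : Ideal (S κ)} (hb : GH 𝔟) (hX : X.Cont 𝔟) : UB 𝔟 (∑ c, X.mu 𝔟 c) := by
  set 𝔡 : Ideal (S κ) := ⨅ c, X.kk 𝔟 c with h𝔡
  have hle : 𝔟 ≤ 𝔡 := le_iInf fun c => X.le_kk 𝔟 c
  have hGd : GH 𝔡 := GH.iInf fun c => X.GH_kk 𝔟 c
  choose g k hg1 hg2 hg3 using X.exists_g' hb hX
  obtain ⟨T, hT⟩ := hX
  have hcol : ∀ c, g c ∈ colon 𝔟 𝔡 := by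
    intro c p hp
    exact hg3 c p ((iInf_le (X.kk 𝔟) c) hp)
  have hbd : Bdd (colon 𝔟 𝔡) := by
    have h1 : ∀ c, Bdd (X.Q c ⊔ Ideal.span {g c}) := by
      intro c
      have h2 := Bdd_sup_span (X.prime c) (X.LB_P c) (X.UB_P c) (hg1 c) (hg2 c)
      have h3 := h2.pow ((X.gP c).sup (GH_span_singleton (hg1 c))) 2
      refine h3.mono ((pow_sup_le 2).trans ?_)
      exact sup_le_sup_right (X.sq c) _
    have h2 : ∀ c, GH (X.Q c ⊔ Ideal.span {g c}) := fun c =>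
      (X.gQ c).sup (GH_span_singleton (hg1 c))
    have h3 : Bdd (∏ c, (X.Q c ⊔ Ideal.span {g c})) :=
      Bdd_prod _ (fun c _ => h2 c) (fun c _ => h1 c)
    have h4 := (Bdd_mm_pow (K := κ) T).mul h3 (GH_prod _ fun c _ => h2 c)
    refine h4.mono ?_
    have h5 : ∏ c, (X.Q c ⊔ Ideal.span {g c}) ≤ (∏ c, X.Q c) ⊔ colon 𝔟 𝔡 := by
      refine le_trans ?_ (prod_sup_le Finset.univ X.Q (colon 𝔟 𝔡))
      apply Finset.prod_le_prod'
      intro c _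
      apply sup_le_sup_left
      rw [Ideal.span_singleton_le_iff_mem]
      exact hcol c
    refine (Ideal.mul_mono_right h5).trans ?_
    rw [Ideal.mul_sup]
    apply sup_le
    · refine le_trans ?_ (le_colon 𝔟 𝔡)
      refine (Ideal.mul_mono_right ?_).trans hT
      refine le_iInf fun c => ?_
      have h6 : ∏ c, X.Q c ≤ Finset.univ.inf X.Q := Ideal.prod_le_inf
      exact h6.trans (Finset.inf_le (Finset.mem_univ c))
    · have h6 : mm κ ^ T * colon 𝔟 𝔡 ≤ colon 𝔟 𝔡 := Ideal.mul_le_right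
      exact h6
  obtain ⟨D, hD⟩ := UB_of_colon hle hGd hbd
  have h1 : UB 𝔡 (∑ c, X.mu 𝔟 c) := by
    have := UB_iInf Finset.univ (X.kk 𝔟) (X.mu 𝔟) (fun c _ => X.UB_kk 𝔟 c)
    simpa [h𝔡] using this
  obtain ⟨E, hE⟩ := h1
  refine ⟨E + D, fun t => ?_⟩
  have h2 := hD t
  have h3 := hE t
  omega

/-- Additivity on skew families. -/
theorem exists_hf_iInf_eq (k : C → Ideal (S κ)) (hk : ∀ c, X.Q c ≤ k c) (hG : ∀ c, GH (k c))
    (b : Bool) (s : Finset C) (hs : ∀ c ∈ s, X.dbl c = b) :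
    ∃ T, ∀ t ≥ T, hf (⨅ c ∈ s, k c) t = ∑ c ∈ s, hf (k c) t := by
  induction s using Finset.induction_on with
  | empty => exact ⟨0, fun t _ => by simp [hf_top]⟩
  | insert a s ha ih =>
    obtain ⟨T, hT⟩ := ih fun c hc => hs c (Finset.mem_insert_of_mem hc)
    have hsq : ∀ c, X.P c ^ 2 ≤ k c := fun c => (X.sq c).trans (hk c)
    have h1 : ∀ c ∈ s, mm κ ^ 4 ≤ k c ⊔ k a := by
      intro c hc
      have h2 : mm κ ≤ X.P c ⊔ X.P a := X.skew c a (fun h => ha (h ▸ hc)) (by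
        rw [hs c (Finset.mem_insert_of_mem hc), hs a (Finset.mem_insert_self _ _)])
      have h3 : (X.P c ⊔ X.P a) ^ 4 ≤ k c ⊔ k a := by
        have e : (X.P c ⊔ X.P a) ^ 4 = ((X.P c ⊔ X.P a) ^ 2) ^ 2 := by rw [← pow_mul]
        rw [e]
        have h4 : (X.P c ⊔ X.P a) ^ 2 ≤ X.P a ⊔ X.P c ^ 2 := by
          rw [sup_comm (X.P a)]; exact pow_sup_le 2
        refine (Ideal.pow_right_mono h4 2).trans ((pow_sup_le 2).trans ?_)
        rw [sup_comm]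
        exact sup_le_sup (hsq c) (hsq a)
      exact (Ideal.pow_right_mono h2 4).trans h3
    have h2 : mm κ ^ (4 * s.card) ≤ (⨅ c ∈ s, k c) ⊔ k a := by
      have h3 : ∏ c ∈ s, mm κ ^ 4 ≤ ∏ c ∈ s, (k c ⊔ k a) := Finset.prod_le_prod' h1
      rw [Finset.prod_const, ← pow_mul] at h3
      refine h3.trans ((prod_sup_le _ _ _).trans (sup_le_sup_right ?_ _))
      refine le_iInf fun c => le_iInf fun hc => ?_
      have h6 : ∏ c ∈ s, k c ≤ s.inf k := Ideal.prod_le_inf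
      exact h6.trans (Finset.inf_le hc)
    refine ⟨max T (4 * s.card), fun t ht => ?_⟩
    rw [Finset.iInf_insert, Finset.sum_insert ha, inf_comm]
    rw [hf_inf_of_mm_pow (GH.iInf fun c => GH.iInf fun _ => hG c) (hG a) h2
      ((le_max_right _ _).trans ht), hT t ((le_max_left _ _).trans ht), add_comm]

end Cfg

end Pool.Agent.Work.C21
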