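import Pool.Agent.Work.MP_c21e2e_ag_helper46.Lines
import Pool.Agent.Work.MP_c21e2e_ag_helper46.Special

namespace Pool.Agent.Work.C21

open MvPolynomial Module

variable {κ : Type*} [Field κ]

/-- The seventeen lines. -/
noncomputable def cl (g : κ) : Ln → LineData κ
  | Ln.La => lineLa κ
  | Ln.Lb => lineLb κ
  | Ln.N k => lineN (aa g k) (aa g k) (bb g k)
  | Ln.M j => lineM (ww g j)
  | Ln.Mi => lineMi κ

/-- The structures on the seventeen lines. -/
noncomputable def cQ (g : κ) (n n' : ℕ) : Ln → Ideal (S κ)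
  | Ln.La => (dLa κ n).Q
  | Ln.Lb => (dLb κ n').Q
  | Ln.N k => (dN (aa g k) (aa g k) (bb g k) n).Q
  | Ln.M j => (lineM (ww g j)).P
  | Ln.Mi => (lineMi κ).P

/-- The types of the double structures. -/
def cn (n n' : ℕ) : Ln → ℕ
  | Ln.La => n
  | Ln.Lb => n'
  | Ln.N _ => n
  | Ln.M _ => 0
  | Ln.Mi => 0

section facts

variable (g : κ) (n n' : ℕ)

theorem c_gQ (c : Ln) : GH (cQ g n n' c) := by
  cases c with
  | La => exact (dLa κ n).GH_Q
  | Lb => exact (dLb κ n').GH_Q
  | N k => exact (dN (aa g k) (aa g k) (bb g k) n).GH_Q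
  | M j => exact (lineM (ww g j)).GH_P
  | Mi => exact (lineMi κ).GH_P

theorem c_QP (c : Ln) : cQ g n n' c ≤ (cl g c).P := by
  cases c with
  | La => exact (dLa κ n).Q_le_P
  | Lb => exact (dLb κ n').Q_le_P
  | N k => exact (dN (aa g k) (aa g k) (bb g k) n).Q_le_P
  | M j => exact le_rfl
  | Mi => exact le_rfl

theorem c_QeP (c : Ln) (h : Ln.dbl c = false) : cQ g n n' c = (cl g c).P := by
  cases c with
  | La => exact Bool.noConfusion h
  | Lb => exact Bool.noConfusion h
  | N k => exact Bool.noConfusion h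
  | M j => rfl
  | Mi => rfl

theorem c_prim (c : Ln) (f h : S κ) (hf' : f ∉ (cl g c).P) (hfh : f * h ∈ cQ g n n' c) :
    h ∈ cQ g n n' c := by
  cases c with
  | La => exact (dLa κ n).prim f h hf' hfh
  | Lb => exact (dLb κ n').prim f h hf' hfh
  | N k => exact (dN (aa g k) (aa g k) (bb g k) n).prim f h hf' hfh
  | M j => exact ((lineM (ww g j)).prime.mem_or_mem hfh).resolve_left hf'
  | Mi => exact ((lineMi κ).prime.mem_or_mem hfh).resolve_left hf'

theorem c_sq (c : Ln) : (cl g c).P ^ 2 ≤ cQ g n n' c := by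
  cases c with
  | La => exact (dLa κ n).sq
  | Lb => exact (dLb κ n').sq
  | N k => exact (dN (aa g k) (aa g k) (bb g k) n).sq
  | M j => exact Ideal.pow_le_self two_ne_zero
  | Mi => exact Ideal.pow_le_self two_ne_zero

theorem c_hfQ (c : Ln) (h : Ln.dbl c = true) : ∀ t ≥ n + n' + 1,
    hf (cQ g n n' c) t = 2 * t + cn n n' c + 1 := by
  intro t ht
  cases c with
  | La => exact (dLa κ n).hf_Q t (by change n + 1 ≤ t; omega)
  | Lb => exact (dLb κ n').hf_Q t (by change n' + 1 ≤ t; omega)
  | N k => exact (dN (aa g k) (aa g k) (bb g k) n).hf_Q t (by change n + 1 ≤ t; omega)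
  | M j => exact Bool.noConfusion h
  | Mi => exact Bool.noConfusion h

theorem c_phi (c : Ln) (h : Ln.dbl c = true) (f : S κ) (k : ℕ) (hk : f.IsHomogeneous k)
    (hP : f ∈ (cl g c).P) (hQ : f ∉ cQ g n n' c) :
    ∃ (φ : S κ) (j : ℕ), φ.IsHomogeneous j ∧ φ ∉ (cl g c).P ∧
      ∀ p ∈ (cl g c).P, φ * p ∈ cQ g n n' c ⊔ Ideal.span {f} := by
  cases c with
  | La => exact (dLa κ n).phi f k hk hP hQ
  | Lb => exact (dLb κ n').phi f k hk hP hQ
  | N k => exact (dN (aa g k) (aa g k) (bb g k) n).phi f _ hk hP hQ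
  | M j => exact Bool.noConfusion h
  | Mi => exact Bool.noConfusion h

variable [CharP κ 2] {g} (hg : g ^ 3 = g + 1)

include hg

theorem c_skew (c c' : Ln) (hne : c ≠ c') (h : Ln.dbl c = Ln.dbl c') :
    mm κ ≤ (cl g c).P ⊔ (cl g c').P := by
  have hNN : ∀ k k' : Fin 7, k ≠ k' → mm κ ≤ (lineN (aa g k) (aa g k) (bb g k)).P ⊔
      (lineN (aa g k') (aa g k') (bb g k')).P := by
    intro k k' hk
    apply skew_N_N (aa_inj hg hk)
    have := aa2_inj hg hk
    rwa [pow_two, pow_two] at this
  cases c with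
  | La =>
    cases c' with
    | La => exact absurd rfl hne
    | Lb => exact skew_La_Lb
    | N k => exact skew_La_N (aa_ne hg k) (aa_ne hg k)
    | M j => exact Bool.noConfusion h
    | Mi => exact Bool.noConfusion h
  | Lb =>
    cases c' with
    | La => rw [sup_comm]; exact skew_La_Lb
    | Lb => exact absurd rfl hne
    | N k => exact skew_Lb_N
    | M j => exact Bool.noConfusion h
    | Mi => exact Bool.noConfusion h
  | N k =>
    cases c' with
    | La => rw [sup_comm]; exact skew_La_N (aa_ne hg k) (aa_ne hg k)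
    | Lb => rw [sup_comm]; exact skew_Lb_N
    | N k' => exact hNN k k' (fun hk => hne (by rw [hk]))
    | M j => exact Bool.noConfusion h
    | Mi => exact Bool.noConfusion h
  | M j =>
    cases c' with
    | La => exact Bool.noConfusion h
    | Lb => exact Bool.noConfusion h
    | N k => exact Bool.noConfusion h
    | M j' =>
      have hj : j ≠ j' := fun hj => hne (by rw [hj])
      exact skew_M_M (ww_inj hg hj) (ww3_inj hg hj)
    | Mi => exact skew_M_Mi
  | Mi =>
    cases c' with
    | La => exact Bool.noConfusion h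
    | Lb => exact Bool.noConfusion h
    | N k => exact Bool.noConfusion h
    | M j => rw [sup_comm]; exact skew_M_Mi
    | Mi => exact absurd rfl hne

theorem c_noninc (c c' : Ln) (h1 : Ln.dbl c = true) (h2 : Ln.dbl c' = false)
    (h : Ln.inc c c' = false) : mm κ ≤ (cl g c).P ⊔ (cl g c').P := by
  cases c with
  | La =>
    cases c' with
    | La => exact Bool.noConfusion h2
    | Lb => exact Bool.noConfusion h2
    | N k => exact Bool.noConfusion h2
    | M j => exact Bool.noConfusion h
    | Mi => exact Bool.noConfusion h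
  | Lb =>
    cases c' with
    | La => exact Bool.noConfusion h2
    | Lb => exact Bool.noConfusion h2
    | N k => exact Bool.noConfusion h2
    | M j => exact Bool.noConfusion h
    | Mi => exact Bool.noConfusion h
  | N k =>
    cases c' with
    | La => exact Bool.noConfusion h2
    | Lb => exact Bool.noConfusion h2
    | N k => exact Bool.noConfusion h2
    | M j => exact skew_N_M (aa_ne hg k) (on_ne hg h)
    | Mi => exact Bool.noConfusion h
  | M j => exact Bool.noConfusion h1
  | Mi => exact Bool.noConfusion h1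

theorem c_lin (c c' : Ln) (hne : c ≠ c') :
    ∃ l : S κ, l.IsHomogeneous 1 ∧ l ∈ (cl g c').P ∧ l ∉ (cl g c).P := by
  by_cases h : Ln.dbl c = Ln.dbl c'
  · exact lin_of_skew _ _ (c_skew hg c c' hne h)
  have hX : ∀ i : Fin 4, (X i : S κ).IsHomogeneous 1 := fun i => isHomogeneous_X _ _
  have hM1 : ∀ w : κ, (X 0 - C w * X 1 : S κ).IsHomogeneous 1 := fun w =>
    (hX 0).sub (C_mul_hom _ (hX 1))
  have hM2 : ∀ w : κ, (X 2 - C (w ^ 3) * X 3 : S κ).IsHomogeneous 1 := fun w =>
    (hX 2).sub (C_mul_hom _ (hX 3))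
  have hN1 : ∀ l a b : κ, (X 2 - C l * (C a * X 0 + C b * X 1) : S κ).IsHomogeneous 1 :=
    fun l a b => (dN l a b 0).h1
  have hN2 : ∀ l : κ, (X 3 - C l * X 1 : S κ).IsHomogeneous 1 := fun l =>
    (hX 3).sub (C_mul_hom _ (hX 1))
  cases c with
  | La =>
    cases c' with
    | La => exact absurd rfl h
    | Lb => exact absurd rfl h
    | N k => exact absurd rfl h
    | M j =>
      refine ⟨_, hM1 _, M_l1 _, not_mem_of_point _ 1 0 ?_⟩
      simp [cl, lineLa]
    | Mi =>
      refine ⟨_, hX 1, Mi_X1, not_mem_of_point _ 0 1 ?_⟩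
      simp [cl, lineLa]
  | Lb =>
    cases c' with
    | La => exact absurd rfl h
    | Lb => exact absurd rfl h
    | N k => exact absurd rfl h
    | M j =>
      refine ⟨_, hM2 _, M_l2 _, not_mem_of_point _ 1 0 ?_⟩
      simp [cl, lineLb]
    | Mi =>
      refine ⟨_, hX 3, Mi_X3, not_mem_of_point _ 0 1 ?_⟩
      simp [cl, lineLb]
  | N k =>
    cases c' with
    | La => exact absurd rfl h
    | Lb => exact absurd rfl h
    | N k => exact absurd rfl h
    | M j =>
      refine ⟨_, hM1 _, M_l1 _, not_mem_of_point _ 1 0 ?_⟩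
      simp [cl, lineN]
    | Mi =>
      refine ⟨_, hX 1, Mi_X1, not_mem_of_point _ 0 1 ?_⟩
      simp [cl, lineN]
  | M j =>
    cases c' with
    | La =>
      refine ⟨_, hX 3, La_X3, not_mem_of_point _ 0 1 ?_⟩
      simp [cl, lineM]
    | Lb =>
      refine ⟨_, hX 1, Lb_X1, not_mem_of_point _ 1 0 ?_⟩
      simp [cl, lineM]
    | N k =>
      refine ⟨_, hN2 _, N_l2 _ _ _, not_mem_of_point _ 0 1 ?_⟩
      simp [cl, lineM]
    | M j => exact absurd rfl h
    | Mi => exact absurd rfl h
  | Mi =>
    cases c' with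
    | La =>
      refine ⟨_, hX 2, La_X2, not_mem_of_point _ 0 1 ?_⟩
      simp [cl, lineMi]
    | Lb =>
      refine ⟨_, hX 0, Lb_X0, not_mem_of_point _ 1 0 ?_⟩
      simp [cl, lineMi]
    | N k =>
      refine ⟨_, hN1 _ _ _, N_l1 _ _ _, not_mem_of_point _ 0 1 ?_⟩
      simp [cl, lineMi]
    | M j => exact absurd rfl h
    | Mi => exact absurd rfl h

theorem c_aux (c : Ln) : mm κ ≤ auxJ g (cl g c).P := by
  cases c with
  | La => exact aux_La (g_ne hg)
  | Lb => exact aux_Lb
  | N k => exact aux_N (g_ne hg) (lamN_ne hg k)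
  | M j => exact aux_M (lamM_ne hg j)
  | Mi => exact aux_Mi (g_ne hg)

/-- The restriction step for the general simple lines. -/
theorem step_M (hn : n % 7 = 3) (hn' : n' % 7 = 5) (j : Fin 7) {𝔟 : Ideal (S κ)}
    (hb : 𝔟 ≤ ⨅ c ∈ Finset.univ.filter (fun c => Ln.dbl c = true), cQ g n n' c) (t : ℕ)
    (ht : 18 ≤ t) : hf (𝔟 ⊓ (cl g (Ln.M j)).P) t + 2 * 5 ≤ hf 𝔟 t + (t + 1) := by
  have hQ : ∀ c, Ln.dbl c = true → 𝔟 ≤ cQ g n n' c := by
    intro c hc
    refine hb.trans (iInf_le_of_le c (iInf_le _ ?_))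
    rw [Finset.mem_filter]; exact ⟨Finset.mem_univ _, hc⟩
  have hwn : ww g j ^ n = ww g j ^ 3 := by
    rw [← Nat.div_add_mod n 7, hn, pow_add, pow_mul, ww_seven hg, one_pow, one_mul]
  have hwn' : (ww g j ^ 3) ^ n' = ww g j := by
    rw [← pow_mul]
    have : 3 * n' = 7 * (3 * (n' / 7) + 2) + 1 := by omega
    rw [this, pow_add, pow_mul, ww_seven hg, one_pow, one_mul, pow_one]
  set s : Finset (Option (Fin 7)) := Finset.insertNone (Finset.univ.filter fun k => Ln.on k j = true)
    with hs
  have hcard : s.card = 4 := by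
    have key : ∀ j : Fin 7, (Finset.univ.filter fun k => Ln.on k j = true).card + 1 = 4 := by
      decide
    rw [hs, Finset.card_insertNone]
    exact key j
  have h := simple_step (lineM (ww g j)) (𝔟 := 𝔟) s
    (fun o => match o with | none => 0 | some k => aa g k) ?_ ?_ ?_ t (by rw [hcard]; omega)
  · rw [hcard] at h; exact h
  · intro o _ o' _ hne
    cases o with
    | none =>
      cases o' with
      | none => exact absurd rfl hne
      | some k => exact (aa_ne hg k).symm
    | some k =>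
      cases o' with
      | none => exact aa_ne hg k
      | some k' => exact aa_inj hg fun hk => hne (by rw [hk])
  · intro F hF o ho
    cases o with
    | none =>
      refine (dLa κ n).tangent (hQ Ln.La rfl hF) _ (ww g j) 1 0 ?_
      intro i
      fin_cases i
      · simp [dLa, lineLa, lineM, TrivSqZeroExt.algebraMap_eq_inl]
      · simp [dLa, lineLa, lineM]
      · simp [dLa, lineLa, lineM, TrivSqZeroExt.algebraMap_eq_inl, hwn]
        ext <;> simp
      · simp [dLa, lineLa, lineM]
    | some k =>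
      have hon : Ln.on k j = true := by
        rw [hs, Finset.mem_insertNone] at ho
        have := ho k rfl
        rw [Finset.mem_filter] at this
        exact this.2
      have hon' := on_eq hg hon
      refine (dN (aa g k) (aa g k) (bb g k) n).tangent (hQ (Ln.N k) rfl hF) _ (ww g j) 1
        (aa g k) ?_
      intro i
      fin_cases i
      · simp [dN, lineN, lineM, TrivSqZeroExt.algebraMap_eq_inl]
      · simp [dN, lineN, lineM]
      · simp [dN, lineN, lineM, TrivSqZeroExt.algebraMap_eq_inl, hwn]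
        ext
        · simp
          rw [hon']; ring
        · simp
      · simp [dN, lineN, lineM]
  · intro F hF m hm
    refine (dLb κ n').tangent_infinity (hQ Ln.Lb rfl hF) _ (ww g j ^ 3) 1 hm ?_
    intro i
    fin_cases i
    · simp [dLb, lineLb, lineM, TrivSqZeroExt.algebraMap_eq_inl, hwn']
      ext <;> simp
    · simp [dLb, lineLb, lineM]
    · simp [dLb, lineLb, lineM, TrivSqZeroExt.algebraMap_eq_inl]
    · simp [dLb, lineLb, lineM]

/-- The restriction step for the special simple line. -/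
theorem step_Mi (hn : n % 7 = 3) (hn' : n' % 7 = 5) {𝔟 : Ideal (S κ)}
    (hb : 𝔟 ≤ ⨅ c ∈ Finset.univ.filter (fun c => Ln.dbl c = true), cQ g n n' c) (t : ℕ)
    (ht : 18 ≤ t) : hf (𝔟 ⊓ (cl g Ln.Mi).P) t + 2 * 9 ≤ hf 𝔟 t + (t + 1) := by
  have hQ : ∀ c, Ln.dbl c = true → 𝔟 ≤ cQ g n n' c := by
    intro c hc
    refine hb.trans (iInf_le_of_le c (iInf_le _ ?_))
    rw [Finset.mem_filter]; exact ⟨Finset.mem_univ _, hc⟩
  have n0 : n ≠ 0 := by rintro rfl; omega
  have n0' : n' ≠ 0 := by rintro rfl; omega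
  have hcard : (Finset.univ : Finset (Option (Fin 7))).card = 8 := by decide
  have h := simple_step (lineMi κ) (𝔟 := 𝔟) (Finset.univ : Finset (Option (Fin 7)))
    (fun o => match o with | none => 0 | some k => aa g k ^ 2) ?_ ?_ ?_ t
    (by rw [hcard]; omega)
  · rw [hcard] at h; exact h
  · intro o _ o' _ hne
    cases o with
    | none =>
      cases o' with
      | none => exact absurd rfl hne
      | some k => exact (pow_ne_zero 2 (aa_ne hg k)).symm
    | some k =>
      cases o' with
      | none => exact pow_ne_zero 2 (aa_ne hg k)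
      | some k' => exact aa2_inj hg fun hk => hne (by rw [hk])
  · intro F hF o _
    cases o with
    | none =>
      refine (dLa κ n).tangent (hQ Ln.La rfl hF) _ 1 0 0 ?_
      intro i
      fin_cases i
      · simp [dLa, lineLa, lineMi]
      · simp [dLa, lineLa, lineMi]
      · simp [dLa, lineLa, lineMi]
      · simp [dLa, lineLa, lineMi, n0]
    | some k =>
      refine (dN (aa g k) (aa g k) (bb g k) n).tangent (hQ (Ln.N k) rfl hF) _ 1 0
        (aa g k ^ 2) ?_
      intro i
      fin_cases i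
      · simp [dN, lineN, lineMi]
      · simp [dN, lineN, lineMi]
      · simp [dN, lineN, lineMi, pow_two]
      · simp [dN, lineN, lineMi, n0]
  · intro F hF m hm
    refine (dLb κ n').tangent_infinity (hQ Ln.Lb rfl hF) _ 1 0 hm ?_
    intro i
    fin_cases i
    · simp [dLb, lineLb, lineMi]
    · simp [dLb, lineLb, lineMi, n0']
    · simp [dLb, lineLb, lineMi]
    · simp [dLb, lineLb, lineMi]

/-- Number of double lines meeting a simple line. -/
def cd : Ln → ℕ
  | Ln.M _ => 5
  | Ln.Mi => 9
  | _ => 0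

/-- The upper bound for the Hilbert function of the curve. -/
theorem c_hfX (hn : n % 7 = 3) (hn' : n' % 7 = 5) : ∀ t ≥ n + n' + 18,
    hf (⨅ c, cQ g n n' c) t + 88 ≤
      ∑ c, (if Ln.dbl c = true then 2 * t + cn n n' c + 1 else t + 1) := by
  intro t ht
  set ι := Finset.univ.filter (fun c => Ln.dbl c = true) with hι
  set τ := Finset.univ.filter (fun c => Ln.dbl c = false) with hτ
  have h1 : hf (⨅ c ∈ ι, cQ g n n' c) t ≤ ∑ c ∈ ι, (2 * t + cn n n' c + 1) := by
    refine (hf_iInf_le ι (cQ g n n') t).trans (Finset.sum_le_sum fun c hc => ?_)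
    rw [hι, Finset.mem_filter] at hc
    rw [c_hfQ g n n' c hc.2 t (by omega)]
  have h2 : ∀ s ⊆ τ, hf (⨅ c ∈ ι ∪ s, cQ g n n' c) t + 2 * ∑ c ∈ s, cd c ≤
      ∑ c ∈ ι, (2 * t + cn n n' c + 1) + ∑ c ∈ s, (t + 1) := by
    intro s
    induction s using Finset.induction_on with
    | empty =>
      intro _
      rw [Finset.union_empty]
      simpa using h1
    | insert a s ha ih =>
      intro hsub
      have h3 := ih ((Finset.subset_insert a s).trans hsub)
      have haτ : Ln.dbl a = false := by
        have := hsub (Finset.mem_insert_self a s)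
        rw [hτ, Finset.mem_filter] at this
        exact this.2
      have h6 : (⨅ c ∈ ι ∪ insert a s, cQ g n n' c) =
          (⨅ c ∈ ι ∪ s, cQ g n n' c) ⊓ (cl g a).P := by
        rw [Finset.union_insert, Finset.iInf_insert, c_QeP g n n' a haτ, inf_comm]
      have hle : (⨅ c ∈ ι ∪ s, cQ g n n' c) ≤ ⨅ c ∈ ι, cQ g n n' c := by
        refine le_iInf fun c => le_iInf fun hc => ?_
        exact iInf_le_of_le c (iInf_le _ (Finset.mem_union_left _ hc))
      rw [h6, Finset.sum_insert ha, Finset.sum_insert ha, mul_add]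
      have h7 : hf ((⨅ c ∈ ι ∪ s, cQ g n n' c) ⊓ (cl g a).P) t + 2 * cd a ≤
          hf (⨅ c ∈ ι ∪ s, cQ g n n' c) t + (t + 1) := by
        cases a with
        | La => exact Bool.noConfusion haτ
        | Lb => exact Bool.noConfusion haτ
        | N k => exact Bool.noConfusion haτ
        | M j => exact step_M n n' hg hn hn' j hle t (by omega)
        | Mi => exact step_Mi n n' hg hn hn' hle t (by omega)
      omega
  have h3 := h2 τ subset_rfl
  have h4 : ι ∪ τ = Finset.univ := by
    rw [hι, hτ]; decide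
  rw [h4] at h3
  have h5 : (⨅ c ∈ (Finset.univ : Finset Ln), cQ g n n' c) = ⨅ c, cQ g n n' c := by simp
  rw [h5] at h3
  have h6 : ∑ c, (if Ln.dbl c = true then 2 * t + cn n n' c + 1 else t + 1) =
      ∑ c ∈ ι, (2 * t + cn n n' c + 1) + ∑ c ∈ τ, (t + 1) := by
    rw [Finset.sum_ite]
    congr 1
  have h7 : ∑ c ∈ τ, cd c = 44 := by rw [hτ]; decide
  rw [h6]
  rw [h7] at h3
  exact h3

end facts

/-- The curve in characteristic two. -/
noncomputable def cfg [CharP κ 2] {g : κ} (hg : g ^ 3 = g + 1) (n n' : ℕ) (hn : n % 7 = 3)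
    (hn' : n' % 7 = 5) (h834 : 834 ≤ n) (h834' : 834 ≤ n') : Cfg κ Ln where
  P c := (cl g c).P
  Q := cQ g n n'
  dbl := Ln.dbl
  n := cn n n'
  hcard := by decide
  hsum := by decide
  prime c := (cl g c).prime
  gP c := (cl g c).GH_P
  gQ := c_gQ g n n'
  QP := c_QP g n n'
  QeP := c_QeP g n n'
  prim := c_prim g n n'
  sq := c_sq g n n'
  hfP c t := (cl g c).hf_P t
  hfQ c hc := ⟨_, c_hfQ g n n' c hc⟩
  big c hc := by
    cases c with
    | La => exact h834
    | Lb => exact h834'
    | N k => exact h834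
    | M j => exact Bool.noConfusion hc
    | Mi => exact Bool.noConfusion hc
  phi := c_phi g n n'
  lin := c_lin hg
  skew := c_skew hg
  h := auxh κ
  l := auxl g
  hh := auxh_hom
  hl := auxl_hom g
  hhl := c_aux hg
  hfX := ⟨_, c_hfX n n' hg hn hn'⟩
  inc := Ln.inc
  noninc := c_noninc hg
  hinc := by decide

end Pool.Agent.Work.C21
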