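import Pool.Agent.Work.MP_c21e2e_ag_helper46.RTwo

namespace Pool.Agent.Work.C21

open MvPolynomial Module

/-- A parametrised line in projective three-space. -/
structure LineData (K : Type*) [Field K] where
  E : Fin 4 → R2 K
  a : S K
  b : S K
  hE : ∀ i, (E i).IsHomogeneous 1
  ha : a.IsHomogeneous 1
  hb : b.IsHomogeneous 1
  ea : aeval E a = (X 0 : R2 K)
  eb : aeval E b = (X 1 : R2 K)

variable {K : Type*} [Field K]

namespace LineData

variable (ℓ : LineData K)

/-- Restriction to the line. -/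
noncomputable def ev : S K →ₐ[K] R2 K := aeval ℓ.E

/-- The ideal of the line. -/
noncomputable def P : Ideal (S K) := RingHom.ker ℓ.ev

theorem mem_P {x : S K} : x ∈ ℓ.P ↔ ℓ.ev x = 0 := RingHom.mem_ker

theorem prime : ℓ.P.IsPrime := RingHom.ker_isPrime _

theorem ev_hom {F : S K} {m : ℕ} (hF : F.IsHomogeneous m) : (ℓ.ev F).IsHomogeneous m := by
  have := hF.aeval ℓ.E ℓ.hE
  rwa [one_mul] at this

theorem comp_ev (F : S K) (m : ℕ) :
    homogeneousComponent m (ℓ.ev F) = ℓ.ev (homogeneousComponent m F) := by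
  classical
  conv_lhs => rw [← sum_homogeneousComponent F, map_sum, map_sum]
  have h : ∀ i ∈ Finset.range (F.totalDegree + 1),
      homogeneousComponent m (ℓ.ev (homogeneousComponent i F)) =
        if i = m then ℓ.ev (homogeneousComponent m F) else 0 := by
    intro i _
    have hm : ℓ.ev (homogeneousComponent i F) ∈ homogeneousSubmodule (Fin 2) K i :=
      ℓ.ev_hom (homogeneousComponent_isHomogeneous i F)
    rw [homogeneousComponent_of_mem hm]
    by_cases hi : i = m
    · subst hi; simp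
    · rw [if_neg (Ne.symm hi), if_neg hi]
  rw [Finset.sum_congr rfl h, Finset.sum_ite_eq']
  split_ifs with hn
  · rfl
  · rw [homogeneousComponent_eq_zero m F (by simpa using hn), map_zero]

theorem GH_P : GH ℓ.P := by
  intro F hF m
  rw [mem_P] at hF ⊢
  rw [← comp_ev, hF, map_zero]

/-- A section of the restriction. -/
noncomputable def sec : R2 K →ₐ[K] S K := aeval ![ℓ.a, ℓ.b]

theorem ev_sec (G : R2 K) : ℓ.ev (ℓ.sec G) = G := by
  have h : ℓ.ev.comp ℓ.sec = AlgHom.id K (R2 K) := by
    apply MvPolynomial.algHom_ext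
    intro i
    rw [AlgHom.comp_apply, sec, aeval_X, AlgHom.id_apply]
    fin_cases i
    · exact ℓ.ea
    · exact ℓ.eb
  exact congrArg (fun f => f G) h

theorem sec_hom {G : R2 K} {m : ℕ} (hG : G.IsHomogeneous m) : (ℓ.sec G).IsHomogeneous m := by
  have := hG.aeval (n := 1) ![ℓ.a, ℓ.b] (by
    intro i
    fin_cases i
    · exact ℓ.ha
    · exact ℓ.hb)
  rwa [one_mul] at this

theorem map_ev_gr (t : ℕ) :
    (gr K t).map ℓ.ev.toLinearMap = homogeneousSubmodule (Fin 2) K t := by
  apply le_antisymm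
  · rintro _ ⟨F, hF, rfl⟩
    exact ℓ.ev_hom hF
  · intro G hG
    exact ⟨ℓ.sec G, ℓ.sec_hom hG, ℓ.ev_sec G⟩

theorem hf_P (t : ℕ) : hf ℓ.P t = t + 1 := by
  have h := finrank_map_add_inf_ker ℓ.ev.toLinearMap (gr K t)
  have e : (gr K t ⊓ LinearMap.ker ℓ.ev.toLinearMap : Submodule K (S K)) = pc ℓ.P t := by
    ext x
    rw [Submodule.mem_inf, LinearMap.mem_ker, mem_pc, mem_homogeneousSubmodule, mem_P, and_comm]
    rfl
  rw [e, map_ev_gr, finrank_binary] at h
  have := hf_add_dd ℓ.P t
  unfold dd nn at this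
  omega

end LineData

/-- A double structure on a line. -/
structure DoubleData (K : Type*) [Field K] extends LineData K where
  w : Fin 4 → R2 K
  n : ℕ
  l1 : S K
  l2 : S K
  hw : ∀ i, (w i).IsHomogeneous n
  h1 : l1.IsHomogeneous 1
  h2 : l2.IsHomogeneous 1
  e1 : aeval E l1 = (0 : R2 K)
  e2 : aeval E l2 = (0 : R2 K)
  d1 : ∑ i, w i * aeval E (pderiv i l1) = (X 0 ^ n : R2 K)
  d2 : ∑ i, w i * aeval E (pderiv i l2) = (X 1 ^ n : R2 K)

namespace DoubleData

variable (D : DoubleData K)

/-- The derivative in the direction of the double structure. -/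
noncomputable def del : S K →ₗ[K] R2 K :=
  ∑ i, (LinearMap.mulLeft K (D.w i)) ∘ₗ D.ev.toLinearMap ∘ₗ (pderiv i : Derivation K (S K) (S K)).toLinearMap

theorem del_apply (F : S K) : D.del F = ∑ i, D.w i * D.ev (pderiv i F) := by
  simp [del]

theorem del_mul (F G : S K) : D.del (F * G) = D.ev F * D.del G + D.del F * D.ev G := by
  rw [del_apply, del_apply, del_apply, Finset.mul_sum, Finset.sum_mul, ← Finset.sum_add_distrib]
  apply Finset.sum_congr rfl
  intro i _
  rw [pderiv_mul, map_add, map_mul, map_mul]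
  ring

theorem del_hom {F : S K} {m : ℕ} (hF : F.IsHomogeneous (m + 1)) :
    (D.del F).IsHomogeneous (D.n + m) := by
  rw [del_apply]
  apply IsHomogeneous.sum
  intro i _
  exact (D.hw i).mul (D.ev_hom hF.pderiv)

theorem del_hom_zero {F : S K} (hF : F.IsHomogeneous 0) : D.del F = 0 := by
  have h1 := totalDegree_eq_zero_iff_eq_C.mp ((totalDegree_zero_iff_isHomogeneous _).mpr hF)
  rw [h1, del_apply]
  simp

/-- The ideal of the double structure. -/
noncomputable def Q : Ideal (S K) where
  carrier := {F | D.ev F = 0 ∧ D.del F = 0}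
  add_mem' := by
    rintro F G ⟨h1, h2⟩ ⟨h3, h4⟩
    exact ⟨by rw [map_add, h1, h3, add_zero], by rw [map_add, h2, h4, add_zero]⟩
  zero_mem' := ⟨map_zero _, map_zero _⟩
  smul_mem' := by
    rintro c F ⟨h1, h2⟩
    exact ⟨by rw [smul_eq_mul, map_mul, h1, mul_zero],
      by rw [smul_eq_mul, del_mul, h1, h2, mul_zero, mul_zero, add_zero]⟩

theorem mem_Q {F : S K} : F ∈ D.Q ↔ D.ev F = 0 ∧ D.del F = 0 := Iff.rfl

theorem Q_le_P : D.Q ≤ D.P := fun _ hF => D.mem_P.mpr hF.1

theorem comp_del (F : S K) (m : ℕ) :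
    homogeneousComponent (D.n + m) (D.del F) = D.del (homogeneousComponent (m + 1) F) := by
  classical
  conv_lhs => rw [← sum_homogeneousComponent F, map_sum, map_sum]
  have h : ∀ i ∈ Finset.range (F.totalDegree + 1),
      homogeneousComponent (D.n + m) (D.del (homogeneousComponent i F)) =
        if i = m + 1 then D.del (homogeneousComponent (m + 1) F) else 0 := by
    intro i _
    rcases i with _ | i
    · rw [D.del_hom_zero (homogeneousComponent_isHomogeneous 0 F), map_zero, if_neg (by omega)]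
    · have hm : D.del (homogeneousComponent (i + 1) F) ∈
          homogeneousSubmodule (Fin 2) K (D.n + i) :=
        D.del_hom (homogeneousComponent_isHomogeneous (i + 1) F)
      rw [homogeneousComponent_of_mem hm]
      by_cases hi : i = m
      · subst hi; simp
      · rw [if_neg (by omega), if_neg (by omega)]
  rw [Finset.sum_congr rfl h, Finset.sum_ite_eq']
  split_ifs with hn
  · rfl
  · rw [homogeneousComponent_eq_zero (m + 1) F (by simpa using hn), map_zero]

theorem GH_Q : GH D.Q := by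
  rintro F ⟨h1, h2⟩ m
  refine ⟨?_, ?_⟩
  · rw [← D.comp_ev, h1, map_zero]
  · rcases m with _ | m
    · exact D.del_hom_zero (homogeneousComponent_isHomogeneous 0 F)
    · rw [← D.comp_del, h2, map_zero]

theorem prim (f g : S K) (hf' : f ∉ D.P) (h : f * g ∈ D.Q) : g ∈ D.Q := by
  obtain ⟨h1, h2⟩ := h
  have hne : D.ev f ≠ 0 := fun h => hf' (D.mem_P.mpr h)
  rw [map_mul] at h1
  have h3 := (mul_eq_zero.mp h1).resolve_left hne
  rw [del_mul, h3, mul_zero, add_zero] at h2
  exact ⟨h3, (mul_eq_zero.mp h2).resolve_left hne⟩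

theorem sq : D.P ^ 2 ≤ D.Q := by
  rw [pow_two, Ideal.mul_le]
  intro r hr s hs
  rw [D.mem_P] at hr hs
  exact ⟨by rw [map_mul, hr, zero_mul], by rw [del_mul, hr, hs, zero_mul, mul_zero, add_zero]⟩

theorem phi (f : S K) (k : ℕ) (hk : f.IsHomogeneous k) (hP : f ∈ D.P) (hQ : f ∉ D.Q) :
    ∃ (φ : S K) (j : ℕ), φ.IsHomogeneous j ∧ φ ∉ D.P ∧
      ∀ p ∈ D.P, φ * p ∈ D.Q ⊔ Ideal.span {f} := by
  rw [D.mem_P] at hP
  have hne : D.del f ≠ 0 := fun h => hQ ⟨hP, h⟩
  rcases k with _ | k
  · exact absurd (D.del_hom_zero hk) hne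
  refine ⟨D.sec (D.del f), D.n + k, D.sec_hom (D.del_hom hk), ?_, ?_⟩
  · rw [D.mem_P, D.ev_sec]; exact hne
  · intro p hp
    rw [D.mem_P] at hp
    have e : D.sec (D.del f) * p = (D.sec (D.del f) * p - D.sec (D.del p) * f) +
      D.sec (D.del p) * f := by ring
    rw [e]
    apply Submodule.add_mem_sup
    · refine ⟨?_, ?_⟩
      · rw [map_sub, map_mul, map_mul, hp, hP, mul_zero, mul_zero, sub_zero]
      · rw [map_sub, del_mul, del_mul, hp, hP, D.ev_sec, D.ev_sec]
        ring
    · exact Ideal.mul_mem_left _ _ (Ideal.mem_span_singleton_self f)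

theorem hf_Q (t : ℕ) (ht : D.n + 1 ≤ t) : hf D.Q t = 2 * t + D.n + 1 := by
  obtain ⟨k, rfl⟩ := Nat.exists_eq_add_of_le' (show 1 ≤ t by omega)
  have h := finrank_map_add_inf_ker D.del (pc D.P (k + 1))
  have e : (pc D.P (k + 1) ⊓ LinearMap.ker D.del : Submodule K (S K)) = pc D.Q (k + 1) := by
    ext x
    rw [Submodule.mem_inf, LinearMap.mem_ker, mem_pc, mem_pc, D.mem_P, mem_Q]
    tauto
  have e2 : (pc D.P (k + 1)).map D.del = homogeneousSubmodule (Fin 2) K (D.n + k) := by
    apply le_antisymm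
    · rintro _ ⟨F, hF, rfl⟩
      rw [SetLike.mem_coe, mem_pc] at hF
      exact D.del_hom hF.2
    · intro G hG
      rw [mem_homogeneousSubmodule] at hG
      rw [← hmg_dh hG, hmg_apply]
      apply Submodule.sum_mem
      intro b hb
      rw [Finset.mem_range] at hb
      by_cases hbk : b ≤ k
      · set G' : R2 K := C ((dh G).coeff b) * (X 0 ^ (k - b) * X 1 ^ b) with hG'
        have hom : G'.IsHomogeneous (0 + ((k - b) + b)) :=
          (isHomogeneous_C _ _).mul ((isHomogeneous_X_pow 0 _).mul (isHomogeneous_X_pow 1 _))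
        have e3 : 0 + ((k - b) + b) = k := by omega
        rw [e3] at hom
        refine ⟨D.l1 * D.sec G', ?_, ?_⟩
        · rw [SetLike.mem_coe, mem_pc, D.mem_P]
          refine ⟨?_, ?_⟩
          · rw [map_mul]
            have : D.ev D.l1 = 0 := D.e1
            rw [this, zero_mul]
          · rw [add_comm k 1]
            exact D.h1.mul (D.sec_hom hom)
        · have h3 : D.ev D.l1 = 0 := D.e1
          have h4 : D.del D.l1 = X 0 ^ D.n := by rw [del_apply]; exact D.d1
          rw [del_mul, h3, h4, zero_mul, zero_add, D.ev_sec, hG']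
          have e4 : D.n + k - b = D.n + (k - b) := by omega
          rw [e4]
          ring
      · set G' : R2 K := C ((dh G).coeff b) * (X 0 ^ (D.n + k - b) * X 1 ^ (b - D.n)) with hG'
        have hom : G'.IsHomogeneous (0 + ((D.n + k - b) + (b - D.n))) :=
          (isHomogeneous_C _ _).mul ((isHomogeneous_X_pow 0 _).mul (isHomogeneous_X_pow 1 _))
        have e3 : 0 + ((D.n + k - b) + (b - D.n)) = k := by omega
        rw [e3] at hom
        refine ⟨D.l2 * D.sec G', ?_, ?_⟩
        · rw [SetLike.mem_coe, mem_pc, D.mem_P]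
          refine ⟨?_, ?_⟩
          · rw [map_mul]
            have : D.ev D.l2 = 0 := D.e2
            rw [this, zero_mul]
          · rw [add_comm k 1]
            exact D.h2.mul (D.sec_hom hom)
        · have h3 : D.ev D.l2 = 0 := D.e2
          have h4 : D.del D.l2 = X 1 ^ D.n := by rw [del_apply]; exact D.d2
          rw [del_mul, h3, h4, zero_mul, zero_add, D.ev_sec, hG']
          obtain ⟨j, hj⟩ := Nat.exists_eq_add_of_le (show D.n ≤ b by omega)
          rw [hj, Nat.add_sub_cancel_left]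
          ring
  rw [e, e2, finrank_binary] at h
  have h3 := hf_add_dd D.P (k + 1)
  have h4 := hf_add_dd D.Q (k + 1)
  rw [D.hf_P] at h3
  unfold dd at *
  omega

end DoubleData

end Pool.Agent.Work.C21
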