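import Pool.Agent.Work.MP_c21e2e_ag_helper46.Lower
import Pool.Agent.Work.MP_c21e2e_ag_helper46.Special

namespace Pool.Agent.Work.C21

open MvPolynomial Module

namespace Cfg

variable {κ : Type*} [Field κ] {C : Type*} [Fintype C] [DecidableEq C] (X : Cfg κ C)

/-- The Hilbert function of the union of the double lines. -/
theorem base_bound : ∃ T, ∀ t ≥ T,
    ∑ c ∈ Finset.univ.filter (fun c => X.dbl c = true), (2 * t + X.n c + 1) ≤
      hf (⨅ c ∈ Finset.univ.filter (fun c => X.dbl c = true), X.Q c) t := by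
  set ι := Finset.univ.filter (fun i => X.dbl i = true) with hι
  obtain ⟨T, hT⟩ := X.exists_hf_iInf_eq X.Q (fun _ => le_rfl) X.gQ true ι (by
    intro c hc; rw [hι, Finset.mem_filter] at hc; exact hc.2)
  have h2 : ∀ c, ∃ T, c ∈ ι → ∀ t ≥ T, hf (X.Q c) t = 2 * t + X.n c + 1 := by
    intro c
    by_cases hc : c ∈ ι
    · obtain ⟨T, hT⟩ := X.hfQ c (by rw [hι, Finset.mem_filter] at hc; exact hc.2)
      exact ⟨T, fun _ => hT⟩
    · exact ⟨0, fun h => absurd h hc⟩
  choose T' hT' using h2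
  refine ⟨T + ∑ c, T' c, fun t ht => ?_⟩
  have h3 := hT t (by omega)
  have h4 : ∑ c ∈ ι, hf (X.Q c) t = ∑ c ∈ ι, (2 * t + X.n c + 1) := by
    apply Finset.sum_congr rfl
    intro c hc
    apply hT' c hc
    have : T' c ≤ ∑ c, T' c := Finset.single_le_sum (fun _ _ => Nat.zero_le _)
      (Finset.mem_univ c)
    omega
  rw [← h4, ← h3]

/-- The number of actual incidences is bounded by the number of declared incidences. -/
theorem sum_cm_le (p : C → Ideal (S κ)) (hp : ∀ i j, X.dbl i = true → X.dbl j = false →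
    X.inc i j = false → mm κ ≤ p i ⊔ p j) :
    ∑ j ∈ Finset.univ.filter (fun j => X.dbl j = false), cm X.dbl p j ≤ 44 := by
  classical
  rw [← X.hinc]
  apply Finset.sum_le_sum
  intro j hj
  rw [Finset.mem_filter] at hj
  unfold cm
  apply Finset.card_le_card
  intro i hi
  rw [Finset.mem_filter] at hi ⊢
  refine ⟨hi.1, hi.2.1, ?_⟩
  by_contra hc
  rw [Bool.not_eq_true] at hc
  exact hi.2.2 (hp i j hi.2.1 hj.2 hc)

/-- The exact Hilbert function of the curve in large degrees. -/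
theorem hf_eq : ∃ T, ∀ t ≥ T, hf (⨅ c, X.Q c) t + 88 =
    ∑ c, (if X.dbl c = true then 2 * t + X.n c + 1 else t + 1) := by
  obtain ⟨T1, hT1⟩ := lower_general X.dbl X.n X.P X.Q X.prime X.gP X.gQ X.hfP X.sq X.lin
    (fun c c' h h1 h2 => X.skew c c' h (h1.trans h2.symm)) X.QeP X.base_bound
  obtain ⟨T2, hT2⟩ := X.hfX
  refine ⟨max T1 T2, fun t ht => ?_⟩
  have h1 := hT1 t ((le_max_left _ _).trans ht)
  have h2 := hT2 t ((le_max_right _ _).trans ht)
  have h3 := X.sum_cm_le X.P X.noninc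
  omega

end Cfg

end Pool.Agent.Work.C21
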