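import Pool.Agent.Work.MP_c21e2e_ag_helper46.Fano

namespace Pool.Agent.Work.C21

/-- A computable model of the field with eight elements. -/
abbrev F8 := ZMod 2 × ZMod 2 × ZMod 2

/-- Multiplication in the model. -/
def m8 (x y : F8) : F8 :=
  (x.1 * y.1 + (x.2.1 * y.2.2 + x.2.2 * y.2.1),
    x.1 * y.2.1 + x.2.1 * y.1 + (x.2.1 * y.2.2 + x.2.2 * y.2.1) + x.2.2 * y.2.2,
    x.1 * y.2.2 + x.2.1 * y.2.1 + x.2.2 * y.1 + x.2.2 * y.2.2)

/-- Powers of the generator. -/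
def p8 : ℕ → F8
  | 0 => (1, 0, 0)
  | n + 1 => m8 (p8 n) (0, 1, 0)

section

variable {κ : Type*} [Field κ] [CharP κ 2] (g : κ)

/-- The embedding of the model. -/
def φ8 (x : F8) : κ :=
  ZMod.castHom (dvd_refl 2) κ x.1 + ZMod.castHom (dvd_refl 2) κ x.2.1 * g +
    ZMod.castHom (dvd_refl 2) κ x.2.2 * g ^ 2

variable (hg : g ^ 3 = g + 1)

theorem φ8_add (x y : F8) : φ8 g (x + y) = φ8 g x + φ8 g y := by
  simp only [φ8, Prod.fst_add, Prod.snd_add, map_add]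
  ring

theorem φ8_sub (x y : F8) : φ8 g (x - y) = φ8 g x - φ8 g y := by
  simp only [φ8, Prod.fst_sub, Prod.snd_sub, map_sub]
  ring

theorem φ8_zero : φ8 g 0 = 0 := by simp [φ8]

theorem φ8_one : φ8 g (1, 0, 0) = 1 := by simp [φ8]

theorem φ8_gen : φ8 g (0, 1, 0) = g := by simp [φ8]

include hg in
theorem φ8_mul (x y : F8) : φ8 g (m8 x y) = φ8 g x * φ8 g y := by
  simp only [φ8, m8, map_add, map_mul]
  generalize ZMod.castHom (dvd_refl 2) κ x.1 = x0
  generalize ZMod.castHom (dvd_refl 2) κ x.2.1 = x1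
  generalize ZMod.castHom (dvd_refl 2) κ x.2.2 = x2
  generalize ZMod.castHom (dvd_refl 2) κ y.1 = y0
  generalize ZMod.castHom (dvd_refl 2) κ y.2.1 = y1
  generalize ZMod.castHom (dvd_refl 2) κ y.2.2 = y2
  linear_combination (-(x1 * y2 + x2 * y1) - x2 * y2 * g) * hg

include hg in
theorem φ8_pow (n : ℕ) : φ8 g (p8 n) = g ^ n := by
  induction n with
  | zero => rw [pow_zero]; exact φ8_one g
  | succ n ih => rw [p8, φ8_mul g hg, ih, φ8_gen, pow_succ]

theorem exists_inv8 : ∀ x : F8, x ≠ 0 → ∃ y, m8 x y = (1, 0, 0) := by decide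

include hg in
theorem φ8_ne {x : F8} (h : x ≠ 0) : φ8 g x ≠ 0 := by
  obtain ⟨y, hy⟩ := exists_inv8 x h
  intro h0
  have h1 := φ8_mul g hg x y
  rw [hy, φ8_one, h0, zero_mul] at h1
  exact one_ne_zero h1

include hg in
theorem φ8_inj {x y : F8} (h : x ≠ y) : φ8 g x ≠ φ8 g y := by
  intro h0
  apply φ8_ne g hg (sub_ne_zero.mpr h)
  rw [φ8_sub, h0, sub_self]

end

section Elements

variable {κ : Type*} [Field κ]

/-- The points of the Fano plane. -/
def ww (g : κ) (j : Fin 7) : κ := g ^ (j : ℕ)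

/-- The coefficients of the lines. -/
def aa (g : κ) (k : Fin 7) : κ := g ^ (2 * (k : ℕ) + 5)

/-- The coefficients of the lines. -/
def bb (g : κ) (k : Fin 7) : κ := g ^ (3 * (k : ℕ) + 4)

variable [CharP κ 2] {g : κ} (hg : g ^ 3 = g + 1)

include hg

theorem g_ne : g ≠ 0 := by
  rintro rfl
  rw [zero_pow (by norm_num), zero_add] at hg
  exact one_ne_zero hg.symm

theorem g_seven : g ^ 7 = 1 := by
  have h1 : p8 7 = p8 0 := by decide
  rw [← φ8_pow g hg 7, h1, φ8_pow g hg, pow_zero]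

theorem ww_ne (j : Fin 7) : ww g j ≠ 0 := pow_ne_zero _ (g_ne hg)

theorem aa_ne (k : Fin 7) : aa g k ≠ 0 := pow_ne_zero _ (g_ne hg)

theorem ww_seven (j : Fin 7) : ww g j ^ 7 = 1 := by
  unfold ww
  rw [← pow_mul, mul_comm, pow_mul, g_seven hg, one_pow]

theorem ww_inj {i j : Fin 7} (h : i ≠ j) : ww g i ≠ ww g j := by
  unfold ww
  rw [← φ8_pow g hg, ← φ8_pow g hg]
  apply φ8_inj g hg
  revert i j
  decide

theorem ww3_inj {i j : Fin 7} (h : i ≠ j) : ww g i ^ 3 ≠ ww g j ^ 3 := by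
  unfold ww
  rw [← pow_mul, ← pow_mul, ← φ8_pow g hg, ← φ8_pow g hg]
  apply φ8_inj g hg
  revert i j
  decide

theorem aa_inj {i j : Fin 7} (h : i ≠ j) : aa g i ≠ aa g j := by
  unfold aa
  rw [← φ8_pow g hg, ← φ8_pow g hg]
  apply φ8_inj g hg
  revert i j
  decide

theorem aa2_inj {i j : Fin 7} (h : i ≠ j) : aa g i ^ 2 ≠ aa g j ^ 2 := by
  unfold aa
  rw [← pow_mul, ← pow_mul, ← φ8_pow g hg, ← φ8_pow g hg]
  apply φ8_inj g hg
  revert i j
  decide

theorem on_eq {k j : Fin 7} (h : Ln.on k j = true) : ww g j ^ 3 = aa g k * ww g j + bb g k := by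
  have key : ∀ k j : Fin 7, Ln.on k j = true →
      p8 (3 * j) = p8 (2 * k + 5 + j) + p8 (3 * k + 4) := by decide
  unfold ww aa bb
  rw [← pow_add, ← pow_mul, ← φ8_pow g hg, ← φ8_pow g hg, ← φ8_pow g hg, ← φ8_add, ← key k j h,
    mul_comm]

theorem on_ne {k j : Fin 7} (h : Ln.on k j = false) : ww g j ^ 3 ≠ aa g k * ww g j + bb g k := by
  have key : ∀ k j : Fin 7, Ln.on k j = false →
      p8 (3 * j) ≠ p8 (2 * k + 5 + j) + p8 (3 * k + 4) := by decide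
  unfold ww aa bb
  rw [← pow_add, ← pow_mul, ← φ8_pow g hg, ← φ8_pow g hg, ← φ8_pow g hg, ← φ8_add, mul_comm]
  exact φ8_inj g hg (key k j h)

theorem lamN_ne (k : Fin 7) :
    aa g k * aa g k * (aa g k - g ^ 6) - g * (1 - aa g k * bb g k) ≠ 0 := by
  have key : ∀ k : Fin 7, m8 (m8 (p8 (2 * k + 5)) (p8 (2 * k + 5))) (p8 (2 * k + 5) - p8 6) -
      m8 (p8 1) (p8 0 - m8 (p8 (2 * k + 5)) (p8 (3 * k + 4))) ≠ 0 := by decide
  have := φ8_ne g hg (key k)
  simp only [φ8_sub, φ8_mul g hg, φ8_pow g hg, pow_zero, pow_one] at this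
  exact this

theorem lamM_ne (j : Fin 7) : 1 - ww g j ^ 3 * (g * ww g j + g ^ 6) ≠ 0 := by
  have key : ∀ j : Fin 7, p8 0 - m8 (p8 (j * 3)) (m8 (p8 1) (p8 j) + p8 6) ≠ 0 := by decide
  have := φ8_ne g hg (key j)
  simp only [φ8_sub, φ8_mul g hg, φ8_add, φ8_pow g hg, pow_zero, pow_one] at this
  unfold ww
  rw [← pow_mul]
  exact this

end Elements

end Pool.Agent.Work.C21
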