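import Mathlib

namespace Pool.Agent.Work.C21

open Module

/-- Index type for the seventeen lines. -/
inductive Ln
  | La
  | Lb
  | N (k : Fin 7)
  | M (k : Fin 7)
  | Mi
  deriving DecidableEq, Fintype

namespace Ln

/-- The double lines. -/
def dbl : Ln → Bool
  | La => true
  | Lb => true
  | N _ => true
  | M _ => false
  | Mi => false

/-- Incidence of points and lines of the Fano plane. -/
def on (k j : Fin 7) : Bool := j == k || j == k + 1 || j == k + 3

/-- The incidences between double lines and simple lines. -/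
def inc : Ln → Ln → Bool
  | La, M _ => true
  | La, Mi => true
  | Lb, M _ => true
  | Lb, Mi => true
  | N _, Mi => true
  | N k, M j => on k j
  | _, _ => false

end Ln

section Algebra

variable {K : Type*} [Field K]

/-- The determinant of three points of the plane. -/
def det3 (a c : Fin 7 → K) (i j l : Fin 7) : K :=
  (a j - a i) * (c l - c i) - (a l - a i) * (c j - c i)

theorem two_eq_zero_of_fano (a c : Fin 7 → K) (ha : ∀ i j, i ≠ j → a i ≠ a j)
    (h : ∀ k, det3 a c k (k + 1) (k + 3) = 0) (hne : det3 a c 0 1 2 ≠ 0) : (2 : K) = 0 := by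
  have h0 := h 0
  have h1 := h 1
  have h2 := h 2
  have h3 := h 3
  have h4 := h 4
  have h5 := h 5
  have h6 := h 6
  simp only [show (0 : Fin 7) + 1 = 1 from rfl, show (0 : Fin 7) + 3 = 3 from rfl,
    show (1 : Fin 7) + 1 = 2 from rfl, show (1 : Fin 7) + 3 = 4 from rfl,
    show (2 : Fin 7) + 1 = 3 from rfl, show (2 : Fin 7) + 3 = 5 from rfl,
    show (3 : Fin 7) + 1 = 4 from rfl, show (3 : Fin 7) + 3 = 6 from rfl,
    show (4 : Fin 7) + 1 = 5 from rfl, show (4 : Fin 7) + 3 = 0 from rfl,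
    show (5 : Fin 7) + 1 = 6 from rfl, show (5 : Fin 7) + 3 = 1 from rfl,
    show (6 : Fin 7) + 1 = 0 from rfl, show (6 : Fin 7) + 3 = 2 from rfl] at h0 h1 h2 h3 h4 h5 h6
  unfold det3 at *
  have n01 : a 1 - a 0 ≠ 0 := sub_ne_zero.mpr (ha 1 0 (by decide))
  have n12 : a 2 - a 1 ≠ 0 := sub_ne_zero.mpr (ha 2 1 (by decide))
  have n20 : a 0 - a 2 ≠ 0 := sub_ne_zero.mpr (ha 0 2 (by decide))
  have n03 : a 3 - a 0 ≠ 0 := sub_ne_zero.mpr (ha 3 0 (by decide))
  have n13 : a 3 - a 1 ≠ 0 := sub_ne_zero.mpr (ha 3 1 (by decide))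
  have n14 : a 4 - a 1 ≠ 0 := sub_ne_zero.mpr (ha 4 1 (by decide))
  have n24 : a 4 - a 2 ≠ 0 := sub_ne_zero.mpr (ha 4 2 (by decide))
  have n26 : a 6 - a 2 ≠ 0 := sub_ne_zero.mpr (ha 6 2 (by decide))
  have n06 : a 6 - a 0 ≠ 0 := sub_ne_zero.mpr (ha 6 0 (by decide))
  -- parameters on the sides
  obtain ⟨s, hs⟩ : ∃ s, a 3 = a 0 + s * (a 1 - a 0) := ⟨(a 3 - a 0) / (a 1 - a 0), by field_simp; ring⟩
  obtain ⟨t, ht⟩ : ∃ t, a 4 = a 1 + t * (a 2 - a 1) := ⟨(a 4 - a 1) / (a 2 - a 1), by field_simp; ring⟩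
  obtain ⟨u, hu⟩ : ∃ u, a 6 = a 2 + u * (a 0 - a 2) := ⟨(a 6 - a 2) / (a 0 - a 2), by field_simp; ring⟩
  have hs' : c 3 = c 0 + s * (c 1 - c 0) := by
    have : (a 1 - a 0) * (c 3 - (c 0 + s * (c 1 - c 0))) = 0 := by rw [hs] at h0; linear_combination h0
    rcases mul_eq_zero.mp this with h | h
    · exact absurd h n01
    · exact sub_eq_zero.mp h
  have ht' : c 4 = c 1 + t * (c 2 - c 1) := by
    have : (a 2 - a 1) * (c 4 - (c 1 + t * (c 2 - c 1))) = 0 := by rw [ht] at h1; linear_combination h1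
    rcases mul_eq_zero.mp this with h | h
    · exact absurd h n12
    · exact sub_eq_zero.mp h
  have hu' : c 6 = c 2 + u * (c 0 - c 2) := by
    have : (a 0 - a 2) * (c 6 - (c 2 + u * (c 0 - c 2))) = 0 := by
      rw [hu] at h6; linear_combination -h6
    rcases mul_eq_zero.mp this with h | h
    · exact absurd h n20
    · exact sub_eq_zero.mp h
  have s0 : s ≠ 0 := by rintro rfl; apply n03; rw [hs]; ring
  have s1 : 1 - s ≠ 0 := by
    intro h; apply n13; rw [hs]; linear_combination (a 0 - a 1) * h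
  have t0 : t ≠ 0 := by rintro rfl; apply n14; rw [ht]; ring
  have t1 : 1 - t ≠ 0 := by
    intro h; apply n24; rw [ht]; linear_combination (a 1 - a 2) * h
  have u0 : u ≠ 0 := by rintro rfl; apply n26; rw [hu]; ring
  have u1 : 1 - u ≠ 0 := by
    intro h; apply n06; rw [hu]; linear_combination (a 2 - a 0) * h
  -- barycentric coordinates of the point 5
  set Δ := (a 1 - a 0) * (c 2 - c 0) - (a 2 - a 0) * (c 1 - c 0) with hΔ
  obtain ⟨β, γ, h5a, h5c⟩ : ∃ β γ, a 5 = a 0 + β * (a 1 - a 0) + γ * (a 2 - a 0) ∧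
      c 5 = c 0 + β * (c 1 - c 0) + γ * (c 2 - c 0) := by
    refine ⟨((a 5 - a 0) * (c 2 - c 0) - (a 2 - a 0) * (c 5 - c 0)) / Δ,
      ((a 1 - a 0) * (c 5 - c 0) - (a 5 - a 0) * (c 1 - c 0)) / Δ, ?_, ?_⟩
    · field_simp
      rw [hΔ]; ring
    · field_simp
      rw [hΔ]; ring
  rw [h5a, h5c, hs, hs'] at h2
  rw [h5a, h5c, ht, ht'] at h4
  rw [h5a, h5c, hu, hu'] at h5
  rw [hs, hs', ht, ht', hu, hu'] at h3
  have e2 : (1 - β - γ) * s = β * (1 - s) := by
    apply mul_left_cancel₀ hne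
    rw [hΔ]; linear_combination -h2
  have e4 : β * t = γ * (1 - t) := by
    apply mul_left_cancel₀ hne
    rw [hΔ]; linear_combination -h4
  have e5 : γ * u = (1 - β - γ) * (1 - u) := by
    apply mul_left_cancel₀ hne
    rw [hΔ]; linear_combination h5
  have e3 : (1 - s) * (1 - t) * (1 - u) + s * t * u = 0 := by
    apply mul_left_cancel₀ hne
    rw [hΔ, mul_zero]; linear_combination h3
  -- the coordinates do not vanish
  have hβ : β ≠ 0 := by
    rintro rfl
    have g0 : γ = 0 := by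
      have : γ * (1 - t) = 0 := by rw [← e4]; ring
      exact (mul_eq_zero.mp this).resolve_right t1
    subst g0
    have : (1 - 0 - 0 : K) * s = 0 := by rw [e2]; ring
    exact s0 (by simpa using this)
  have hγ : γ ≠ 0 := by
    rintro rfl
    have : β * t = 0 := by rw [e4]; ring
    rcases mul_eq_zero.mp this with h | h
    · exact hβ h
    · exact t0 h
  have hα : 1 - β - γ ≠ 0 := by
    intro h
    rw [h, zero_mul] at e2
    rcases mul_eq_zero.mp e2.symm with h | h
    · exact hβ h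
    · exact s1 h
  have e6 : s * t * u = (1 - s) * (1 - t) * (1 - u) := by
    have : ((1 - β - γ) * β * γ) * (s * t * u - (1 - s) * (1 - t) * (1 - u)) = 0 := by
      have e : ((1 - β - γ) * s) * (β * t) * (γ * u) =
        (β * (1 - s)) * (γ * (1 - t)) * ((1 - β - γ) * (1 - u)) := by rw [e2, e4, e5]
      linear_combination e
    rcases mul_eq_zero.mp this with h | h
    · rcases mul_eq_zero.mp h with h | h
      · rcases mul_eq_zero.mp h with h | h
        · exact absurd h hα
        · exact absurd h hβ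
      · exact absurd h hγ
    · exact sub_eq_zero.mp h
  have e7 : (2 : K) * (s * t * u) = 0 := by linear_combination e3 + e6
  rcases mul_eq_zero.mp e7 with h | h
  · exact h
  · exfalso
    rcases mul_eq_zero.mp h with h | h
    · rcases mul_eq_zero.mp h with h | h
      · exact s0 h
      · exact t0 h
    · exact u0 h

end Algebra

end Pool.Agent.Work.C21
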