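import Pool.Agent.Work.MP_c21e2e_ag_helper46.Fano

namespace Pool.Agent.Work.C21

open Module

variable {K : Type*} [Field K] {W : Type*} [AddCommGroup W] [Module K W]

/-- Independence of two vectors, in elementary form. -/
def Ind (K : Type*) [Field K] {W : Type*} [AddCommGroup W] [Module K W] (x y : W) : Prop :=
  ∀ a b : K, a • x + b • y = 0 → a = 0 ∧ b = 0

theorem Ind.exists_comb {U : Submodule K W} (hU : finrank K U = 2) {x y z : W} (hx : x ∈ U)
    (hy : y ∈ U) (h : Ind K x y) (hz : z ∈ U) : ∃ a b : K, z = a • x + b • y := by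
  have hli : LinearIndependent K ![x, y] := LinearIndependent.pair_iff.mpr h
  have h1 : Submodule.span K (Set.range ![x, y]) ≤ U := by
    rw [Submodule.span_le]
    rintro _ ⟨i, rfl⟩
    fin_cases i
    · exact hx
    · exact hy
  have hfd : FiniteDimensional K U := Module.finite_of_finrank_pos (by omega)
  have h2 : finrank K (Submodule.span K (Set.range ![x, y])) = 2 := by
    rw [finrank_span_eq_card hli]; rfl
  have h3 : Submodule.span K (Set.range ![x, y]) = U :=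
    Submodule.eq_of_le_of_finrank_le h1 (by omega)
  rw [← h3, Matrix.range_cons, Matrix.range_cons, Matrix.range_empty, Set.union_empty,
    Set.singleton_union, Submodule.mem_span_pair] at hz
  obtain ⟨a, b, hab⟩ := hz
  exact ⟨a, b, hab.symm⟩

theorem Ind.of_inf {U V : Submodule K W} (h : U ⊓ V = ⊥) {x y : W} (hx : x ∈ U) (hy : y ∈ V)
    (hx0 : x ≠ 0) (hy0 : y ≠ 0) : Ind K x y := by
  intro a b hab
  have h1 : a • x = -(b • y) := eq_neg_of_add_eq_zero_left hab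
  have h2 : a • x ∈ U ⊓ V :=
    ⟨U.smul_mem _ hx, by rw [h1]; exact V.neg_mem (V.smul_mem _ hy)⟩
  rw [h, Submodule.mem_bot] at h2
  have ha : a = 0 := (smul_eq_zero.mp h2).resolve_right hx0
  refine ⟨ha, ?_⟩
  rw [ha, zero_smul, zero_add] at hab
  exact (smul_eq_zero.mp hab).resolve_right hy0

theorem mem_bot_of_inf {U V : Submodule K W} (h : U ⊓ V = ⊥) {x : W} (hx : x ∈ U) (hy : x ∈ V) :
    x = 0 := by
  have : x ∈ U ⊓ V := ⟨hx, hy⟩
  rwa [h, Submodule.mem_bot] at this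

open Ln in
/-- The configuration of lines forces characteristic two. -/
theorem two_eq_zero_of_config (U : Ln → Submodule K W) (hU : ∀ c, finrank K (U c) = 2)
    (hskew : ∀ c c', c ≠ c' → Ln.dbl c = Ln.dbl c' → U c ⊓ U c' = ⊥)
    (hmeet : ∀ i j, Ln.dbl i = true → Ln.dbl j = false → Ln.inc i j = true → U i ⊓ U j ≠ ⊥)
    (hnon : ∀ i j, Ln.dbl i = true → Ln.dbl j = false → Ln.inc i j = false → U i ⊓ U j = ⊥) :
    (2 : K) = 0 := by
  have hLL : U La ⊓ U Lb = ⊥ := hskew _ _ (by decide) rfl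
  have hLN : ∀ k, U La ⊓ U (N k) = ⊥ := fun k => hskew _ _ (by simp) rfl
  have hL'N : ∀ k, U Lb ⊓ U (N k) = ⊥ := fun k => hskew _ _ (by simp) rfl
  have hMM : ∀ j, U Mi ⊓ U (M j) = ⊥ := fun j => hskew _ _ (by simp) rfl
  have hMM' : ∀ j j', j ≠ j' → U (M j) ⊓ U (M j') = ⊥ := fun j j' h => hskew _ _ (by simpa using h) rfl
  obtain ⟨e1, ⟨he1a, he1b⟩, he1⟩ := Submodule.exists_mem_ne_zero_of_ne_bot (hmeet La Mi rfl rfl rfl)
  obtain ⟨f1, ⟨hf1a, hf1b⟩, hf1⟩ := Submodule.exists_mem_ne_zero_of_ne_bot (hmeet Lb Mi rfl rfl rfl)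
  obtain ⟨e2, ⟨he2a, he2b⟩, he2⟩ :=
    Submodule.exists_mem_ne_zero_of_ne_bot (hmeet La (M 0) rfl rfl rfl)
  obtain ⟨f2, ⟨hf2a, hf2b⟩, hf2⟩ :=
    Submodule.exists_mem_ne_zero_of_ne_bot (hmeet Lb (M 0) rfl rfl rfl)
  have hee : Ind K e1 e2 := Ind.of_inf (hMM 0) he1b he2b he1 he2
  have hff : Ind K f1 f2 := Ind.of_inf (hMM 0) hf1b hf2b hf1 hf2
  have hef : Ind K e1 f1 := Ind.of_inf hLL he1a hf1a he1 hf1
  -- points on the first two lines
  have hpa : ∀ j, ∃ a : K, a • e1 + e2 ∈ U (M j) := by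
    intro j
    obtain ⟨x, ⟨hx1, hx2⟩, hx⟩ := Submodule.exists_mem_ne_zero_of_ne_bot (hmeet La (M j) rfl rfl rfl)
    obtain ⟨α, β, rfl⟩ := hee.exists_comb (hU La) he1a he2a hx1
    have hβ : β ≠ 0 := by
      rintro rfl
      rw [zero_smul, add_zero] at hx hx2
      exact hx (mem_bot_of_inf (hMM j) ((U Mi).smul_mem _ he1b) hx2)
    refine ⟨β⁻¹ * α, ?_⟩
    have h1 := (U (M j)).smul_mem β⁻¹ hx2
    rwa [smul_add, smul_smul, smul_smul, inv_mul_cancel₀ hβ, one_smul] at h1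
  have hpc : ∀ j, ∃ c : K, c • f1 + f2 ∈ U (M j) := by
    intro j
    obtain ⟨x, ⟨hx1, hx2⟩, hx⟩ := Submodule.exists_mem_ne_zero_of_ne_bot (hmeet Lb (M j) rfl rfl rfl)
    obtain ⟨α, β, rfl⟩ := hff.exists_comb (hU Lb) hf1a hf2a hx1
    have hβ : β ≠ 0 := by
      rintro rfl
      rw [zero_smul, add_zero] at hx hx2
      exact hx (mem_bot_of_inf (hMM j) ((U Mi).smul_mem _ hf1b) hx2)
    refine ⟨β⁻¹ * α, ?_⟩
    have h1 := (U (M j)).smul_mem β⁻¹ hx2
    rwa [smul_add, smul_smul, smul_smul, inv_mul_cancel₀ hβ, one_smul] at h1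
  choose a ha using hpa
  choose c hc using hpc
  have hane : ∀ j, a j • e1 + e2 ≠ 0 := by
    intro j h
    have := hee (a j) 1 (by rwa [one_smul])
    exact one_ne_zero this.2
  have hcne : ∀ j, c j • f1 + f2 ≠ 0 := by
    intro j h
    have := hff (c j) 1 (by rwa [one_smul])
    exact one_ne_zero this.2
  have haL : ∀ j, a j • e1 + e2 ∈ U La := fun j => add_mem ((U La).smul_mem _ he1a) he2a
  have hcL : ∀ j, c j • f1 + f2 ∈ U Lb := fun j => add_mem ((U Lb).smul_mem _ hf1a) hf2a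
  -- the slopes
  have hp : ∀ k, ∃ p : K, e1 + p • f1 ∈ U (N k) := by
    intro k
    obtain ⟨x, ⟨hx1, hx2⟩, hx⟩ := Submodule.exists_mem_ne_zero_of_ne_bot (hmeet (N k) Mi rfl rfl rfl)
    obtain ⟨α, β, rfl⟩ := hef.exists_comb (hU Mi) he1b hf1b hx2
    have hα : α ≠ 0 := by
      rintro rfl
      rw [zero_smul, zero_add] at hx hx1
      exact hx (mem_bot_of_inf (hL'N k) ((U Lb).smul_mem _ hf1a) hx1)
    refine ⟨α⁻¹ * β, ?_⟩
    have h1 := (U (N k)).smul_mem α⁻¹ hx1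
    rwa [smul_add, smul_smul, smul_smul, inv_mul_cancel₀ hα, one_smul] at h1
  choose p hp using hp
  have hr : ∀ k j, on k j = true → ∃ r : K, (a j • e1 + e2) + r • (c j • f1 + f2) ∈ U (N k) := by
    intro k j hkj
    obtain ⟨x, ⟨hx1, hx2⟩, hx⟩ := Submodule.exists_mem_ne_zero_of_ne_bot
      (hmeet (N k) (M j) rfl rfl hkj)
    have hxy : Ind K (a j • e1 + e2) (c j • f1 + f2) :=
      Ind.of_inf hLL (haL j) (hcL j) (hane j) (hcne j)
    obtain ⟨α, β, rfl⟩ := hxy.exists_comb (hU (M j)) (ha j) (hc j) hx2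
    have hα : α ≠ 0 := by
      rintro rfl
      rw [zero_smul, zero_add] at hx hx1
      exact hx (mem_bot_of_inf (hL'N k) ((U Lb).smul_mem _ (hcL j)) hx1)
    refine ⟨α⁻¹ * β, ?_⟩
    have h1 := (U (N k)).smul_mem α⁻¹ hx1
    rwa [smul_add, smul_smul, smul_smul, inv_mul_cancel₀ hα, one_smul] at h1
  -- incidence relations
  have hrel : ∀ k j j' (r r' : K), (a j • e1 + e2) + r • (c j • f1 + f2) ∈ U (N k) →
      (a j' • e1 + e2) + r' • (c j' • f1 + f2) ∈ U (N k) →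
      r = r' ∧ r * (c j - c j') = p k * (a j - a j') := by
    intro k j j' r r' h1 h2
    have h3 : (r * c j - r' * c j' - (a j - a j') * p k) • f1 + (r - r') • f2 ∈ U (N k) := by
      have h4 := sub_mem (sub_mem h1 h2) ((U (N k)).smul_mem (a j - a j') (hp k))
      convert h4 using 1
      module
    have h4 : (r * c j - r' * c j' - (a j - a j') * p k) • f1 + (r - r') • f2 ∈ U Lb :=
      add_mem ((U Lb).smul_mem _ hf1a) ((U Lb).smul_mem _ hf2a)
    have h5 := hff _ _ (mem_bot_of_inf (hL'N k) h4 h3)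
    have h6 : r = r' := sub_eq_zero.mp h5.2
    refine ⟨h6, ?_⟩
    have h7 := h5.1
    rw [← h6] at h7
    linear_combination h7
  have hainj : ∀ i j, i ≠ j → a i ≠ a j := by
    intro i j hij h
    apply hane j
    have h1 := ha i
    rw [h] at h1
    exact mem_bot_of_inf (hMM' i j hij) h1 (ha j)
  have hrne : ∀ k j (r : K), (a j • e1 + e2) + r • (c j • f1 + f2) ∈ U (N k) → r ≠ 0 := by
    intro k j r h h0
    rw [h0, zero_smul, add_zero] at h
    exact hane j (mem_bot_of_inf (hLN k) (haL j) h)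
  apply two_eq_zero_of_fano a c hainj
  · intro k
    have d0 : ∀ k, on k k = true := by decide
    have d1 : ∀ k, on k (k + 1) = true := by decide
    have d3 : ∀ k, on k (k + 3) = true := by decide
    obtain ⟨r0, h0⟩ := hr k k (d0 k)
    obtain ⟨r1, h1⟩ := hr k (k + 1) (d1 k)
    obtain ⟨r3, h3⟩ := hr k (k + 3) (d3 k)
    obtain ⟨e01, g01⟩ := hrel k (k + 1) k r1 r0 h1 h0
    obtain ⟨e03, g03⟩ := hrel k (k + 3) k r3 r0 h3 h0
    have hr0 := hrne k k r0 h0
    rw [e01] at g01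
    rw [e03] at g03
    unfold det3
    apply mul_left_cancel₀ hr0
    rw [mul_zero]
    linear_combination (a (k + 1) - a k) * g03 - (a (k + 3) - a k) * g01
  · intro hdet
    obtain ⟨r0, h0⟩ := hr 0 0 rfl
    obtain ⟨r1, h1⟩ := hr 0 1 rfl
    obtain ⟨e01, g01⟩ := hrel 0 1 0 r1 r0 h1 h0
    rw [e01] at g01
    have hr0 := hrne 0 0 r0 h0
    unfold det3 at hdet
    have ha10 : a 1 - a 0 ≠ 0 := sub_ne_zero.mpr (hainj 1 0 (by decide))
    have g02 : r0 * (c 2 - c 0) = p 0 * (a 2 - a 0) := by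
      apply mul_left_cancel₀ ha10
      linear_combination r0 * hdet + (a 2 - a 0) * g01
    -- then the point 2 would lie on the line 0
    have h2 : (a 2 • e1 + e2) + r0 • (c 2 • f1 + f2) ∈ U (N 0) := by
      have h3 := add_mem h0 ((U (N 0)).smul_mem (a 2 - a 0) (hp 0))
      convert h3 using 1
      have e : r0 * c 2 = r0 * c 0 + (a 2 - a 0) * p 0 := by linear_combination g02
      have e2' : r0 • (c 2 • f1 + f2) = (r0 * c 2) • f1 + r0 • f2 := by module
      rw [e2', e]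
      module
    have h3 : (a 2 • e1 + e2) + r0 • (c 2 • f1 + f2) ∈ U (M 2) :=
      add_mem (ha 2) ((U (M 2)).smul_mem _ (hc 2))
    have h4 := mem_bot_of_inf (hnon (N 0) (M 2) rfl rfl (by decide)) h2 h3
    have hxy : Ind K (a 2 • e1 + e2) (c 2 • f1 + f2) :=
      Ind.of_inf hLL (haL 2) (hcL 2) (hane 2) (hcne 2)
    have h5 := hxy 1 r0 (by rwa [one_smul])
    exact one_ne_zero h5.1

end Pool.Agent.Work.C21
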