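import Pool.Agent.Work.MP_c21e2e_ag_helper46.Config

namespace Pool.Agent.Work.C21

open MvPolynomial Module

variable {κ κ' : Type*} [Field κ] [Field κ'] (θ : κ →+* κ')

theorem ev_map {ℓ : LineData κ} {ℓ' : LineData κ'}
    (h : ∀ i, ℓ'.E i = MvPolynomial.map θ (ℓ.E i)) (F : S κ) :
    ℓ'.ev (MvPolynomial.map θ F) = MvPolynomial.map θ (ℓ.ev F) := by
  induction F using MvPolynomial.induction_on with
  | C a =>
    have h1 : ℓ'.ev (C (θ a)) = C (θ a) := by rw [LineData.ev, aeval_C]; rfl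
    have h2 : ℓ.ev (C a) = C a := by rw [LineData.ev, aeval_C]; rfl
    rw [map_C, h1, h2, map_C]
  | add p q hp hq => rw [map_add, map_add, hp, hq, map_add, map_add]
  | mul_X p i hp =>
    have h1 : ℓ'.ev (X i) = ℓ'.E i := by rw [LineData.ev, aeval_X]
    have h2 : ℓ.ev (X i) = ℓ.E i := by rw [LineData.ev, aeval_X]
    rw [map_mul, map_mul, hp, map_X, h1, h i, map_mul, map_mul, h2]

theorem del_map {D : DoubleData κ} {D' : DoubleData κ'}
    (h : ∀ i, D'.E i = MvPolynomial.map θ (D.E i)) (hw : ∀ i, D'.w i = MvPolynomial.map θ (D.w i))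
    (F : S κ) : D'.del (MvPolynomial.map θ F) = MvPolynomial.map θ (D.del F) := by
  rw [DoubleData.del_apply, DoubleData.del_apply, map_sum]
  apply Finset.sum_congr rfl
  intro i _
  rw [pderiv_map, ev_map θ h, hw, map_mul]

theorem P_map {ℓ : LineData κ} {ℓ' : LineData κ'}
    (h : ∀ i, ℓ'.E i = MvPolynomial.map θ (ℓ.E i)) (F : S κ) :
    MvPolynomial.map θ F ∈ ℓ'.P ↔ F ∈ ℓ.P := by
  rw [ℓ'.mem_P, ℓ.mem_P, ev_map θ h]
  exact map_eq_zero_iff _ (MvPolynomial.map_injective θ θ.injective)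

theorem Q_map {D : DoubleData κ} {D' : DoubleData κ'}
    (h : ∀ i, D'.E i = MvPolynomial.map θ (D.E i)) (hw : ∀ i, D'.w i = MvPolynomial.map θ (D.w i))
    (F : S κ) : MvPolynomial.map θ F ∈ D'.Q ↔ F ∈ D.Q := by
  rw [DoubleData.mem_Q, DoubleData.mem_Q, ev_map θ h, del_map θ h hw]
  have hinj := MvPolynomial.map_injective (σ := Fin 2) θ θ.injective
  rw [map_eq_zero_iff _ hinj, map_eq_zero_iff _ hinj]

theorem ww_map (g : κ) (j : Fin 7) : ww (θ g) j = θ (ww g j) := by simp [ww]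

theorem aa_map (g : κ) (j : Fin 7) : aa (θ g) j = θ (aa g j) := by simp [aa]

theorem bb_map (g : κ) (j : Fin 7) : bb (θ g) j = θ (bb g j) := by simp [bb]

theorem cQ_map (g : κ) (n n' : ℕ) (c : Ln) (F : S κ) :
    MvPolynomial.map θ F ∈ cQ (θ g) n n' c ↔ F ∈ cQ g n n' c := by
  cases c with
  | La =>
    apply Q_map θ
    · intro i; fin_cases i <;> simp [dLa, lineLa]
    · intro i; fin_cases i <;> simp [dLa]
  | Lb =>
    apply Q_map θ
    · intro i; fin_cases i <;> simp [dLb, lineLb]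
    · intro i; fin_cases i <;> simp [dLb]
  | N k =>
    apply Q_map θ
    · intro i; fin_cases i <;> simp [dN, lineN, aa_map, bb_map]
    · intro i; fin_cases i <;> simp [dN]
  | M j =>
    apply P_map θ
    intro i; fin_cases i <;> simp [lineM, ww_map]
  | Mi =>
    apply P_map θ
    intro i; fin_cases i <;> simp [lineMi]

theorem iInf_cQ_map (g : κ) (n n' : ℕ) (F : S κ) :
    MvPolynomial.map θ F ∈ (⨅ c, cQ (θ g) n n' c) ↔ F ∈ ⨅ c, cQ g n n' c := by
  rw [Ideal.mem_iInf, Ideal.mem_iInf]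
  exact forall_congr' fun c => cQ_map θ g n n' c F

end Pool.Agent.Work.C21
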