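import Pool.Agent.Work.MP_c21e2e_ag_helper46.Primes

namespace Pool.Agent.Work.C21

open MvPolynomial Module

section Convex

theorem convex_bound (β : ℕ → ℕ) (e C N0 M t0 : ℕ) (h0 : β 0 ≤ 1)
    (hM : C + (e + 1) * (N0 + t0) + N0 + t0 < M)
    (hconv : ∀ s, 1 ≤ s → s + N0 ≤ M → 2 * β s ≤ β (s + 1) + β (s - 1))
    (hup : ∀ s, s ≤ M → β s ≤ e * M + C) : β t0 ≤ e * t0 + 1 := by
  by_contra hcon
  push Not at hcon
  -- there is a large increment
  have h1 : ∃ s, 1 ≤ s ∧ s ≤ t0 ∧ β (s - 1) + e + 1 ≤ β s := by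
    by_contra hno
    push Not at hno
    have : ∀ s, s ≤ t0 → β s ≤ e * s + 1 := by
      intro s
      induction s with
      | zero => intro _; simpa using h0
      | succ n ih =>
        intro hn
        have h2 := ih (by omega)
        have h3 := hno (n + 1) (by omega) hn
        rw [Nat.add_sub_cancel] at h3
        have : e * (n + 1) = e * n + e := by ring
        omega
    have := this t0 le_rfl
    omega
  obtain ⟨s, hs1, hst, hs⟩ := h1
  -- increments persist
  have h2 : ∀ k, s + k + N0 ≤ M + 1 → β (s + k - 1) + e + 1 ≤ β (s + k) := by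
    intro k
    induction k with
    | zero => intro _; simpa using hs
    | succ k ih =>
      intro hk
      have h3 := ih (by omega)
      have h4 := hconv (s + k) (by omega) (by omega)
      have e1 : s + (k + 1) - 1 = s + k := by omega
      rw [e1]
      have e2 : s + (k + 1) = s + k + 1 := by omega
      rw [e2]
      omega
  have h3 : ∀ k, s + k + N0 ≤ M + 1 → (e + 1) * k ≤ β (s + k) := by
    intro k
    induction k with
    | zero => intro _; simp
    | succ k ih =>
      intro hk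
      have h4 := ih (by omega)
      have h5 := h2 (k + 1) hk
      have e1 : s + (k + 1) - 1 = s + k := by omega
      rw [e1] at h5
      have : (e + 1) * (k + 1) = (e + 1) * k + (e + 1) := by ring
      omega
  have h4 := h3 (M - N0 - s) (by omega)
  have h5 := hup (s + (M - N0 - s)) (by omega)
  have h6 : (e + 1) * (M - N0 - s) ≤ e * M + C := h4.trans h5
  -- (e+1)(M - N0 - s) + (e+1)(N0+s) = (e+1) M
  have h7 : (e + 1) * (M - N0 - s) + (e + 1) * (N0 + s) = (e + 1) * M := by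
    rw [← Nat.mul_add]; congr 1; omega
  have h8 : (e + 1) * (N0 + s) ≤ (e + 1) * (N0 + t0) := Nat.mul_le_mul_left _ (by omega)
  have h9 : (e + 1) * M = e * M + M := by ring
  omega

end Convex

variable {K : Type*} [Field K]

section

variable {F : Type*} [Field F] [Algebra K F] (α : S K →ₐ[K] F)

/-- Images of the graded pieces. -/
noncomputable def AA (t : ℕ) : Submodule K F := (gr K t).map α.toLinearMap

theorem AA_mul {s t : ℕ} {x y : F} (hx : x ∈ AA α s) (hy : y ∈ AA α t) : x * y ∈ AA α (s + t) := by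
  obtain ⟨a, ha, rfl⟩ := hx
  obtain ⟨b, hb, rfl⟩ := hy
  exact ⟨a * b, ha.mul hb, by simp⟩

theorem AA_pow {x : F} (hx : x ∈ AA α 1) (n : ℕ) : x ^ n ∈ AA α n := by
  induction n with
  | zero => exact ⟨1, isHomogeneous_one _ _, by simp⟩
  | succ n ih => rw [pow_succ]; exact AA_mul α ih hx

instance (t : ℕ) : FiniteDimensional K (AA α t) := by unfold AA; infer_instance

theorem finrank_AA {𝔭 : Ideal (S K)} (hker : ∀ x, α x = 0 ↔ x ∈ 𝔭) (t : ℕ) :
    finrank K (AA α t) = hf 𝔭 t := by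
  have h := finrank_map_add_inf_ker α.toLinearMap (gr K t)
  have e : (gr K t ⊓ LinearMap.ker α.toLinearMap : Submodule K (S K)) = pc 𝔭 t := by
    ext x
    rw [Submodule.mem_inf, LinearMap.mem_ker, mem_pc, mem_homogeneousSubmodule, and_comm]
    simp [hker]
  rw [e] at h
  have := hf_add_dd 𝔭 t
  unfold dd nn at this
  unfold AA
  omega

/-- The auxiliary spaces. -/
def CC (M s : ℕ) : Submodule K F where
  carrier := {b | ∀ r, M ≤ r → s ≤ r → ∀ a ∈ AA α (r - s), b * a ∈ AA α r}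
  add_mem' := by
    intro x y hx hy r hr hsr a ha
    rw [add_mul]
    exact add_mem (hx r hr hsr a ha) (hy r hr hsr a ha)
  zero_mem' := by
    intro r _ _ a _
    rw [zero_mul]; exact zero_mem _
  smul_mem' := by
    intro c x hx r hr hsr a ha
    rw [Algebra.smul_mul_assoc]
    exact Submodule.smul_mem _ _ (hx r hr hsr a ha)

theorem mem_CC {M s : ℕ} {b : F} :
    b ∈ CC α M s ↔ ∀ r, M ≤ r → s ≤ r → ∀ a ∈ AA α (r - s), b * a ∈ AA α r := Iff.rfl

theorem AA_le_CC (M s : ℕ) : AA α s ≤ CC α M s := by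
  intro b hb r _ hsr a ha
  have := AA_mul α hb ha
  rwa [Nat.add_sub_cancel' hsr] at this

theorem CC_map_le {M s : ℕ} (hsM : s ≤ M) {η : F} (hη : η ∈ AA α 1) :
    (CC α M s).map (LinearMap.mulRight K (η ^ (M - s))) ≤ AA α M := by
  rintro _ ⟨b, hb, rfl⟩
  exact hb M le_rfl hsM _ (AA_pow α hη _)

theorem CC_fin {M s : ℕ} (hsM : s ≤ M) {η : F} (hη : η ∈ AA α 1) (h0 : η ≠ 0) :
    FiniteDimensional K (CC α M s) ∧ finrank K (CC α M s) ≤ finrank K (AA α M) := by
  have hinj : Function.Injective (LinearMap.mulRight K (η ^ (M - s))) := by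
    intro x y hxy
    simp only [LinearMap.mulRight_apply] at hxy
    exact mul_right_cancel₀ (pow_ne_zero _ h0) hxy
  let e := Submodule.equivMapOfInjective _ hinj (CC α M s)
  have hfd : FiniteDimensional K ((CC α M s).map (LinearMap.mulRight K (η ^ (M - s)))) :=
    Submodule.finiteDimensional_of_le (CC_map_le α hsM hη)
  refine ⟨Module.Finite.equiv e.symm, ?_⟩
  rw [e.finrank_eq]
  exact Submodule.finrank_mono (CC_map_le α hsM hη)

theorem CC_zero [IsAlgClosed K] {M : ℕ} {η : F} (hη : η ∈ AA α 1) (h0 : η ≠ 0) :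
    finrank K (CC α M 0) ≤ 1 := by
  have hle : CC α M 0 ≤ Submodule.span K {(1 : F)} := by
    intro b hb
    -- b acts on AA α M
    have hact : ∀ a ∈ AA α M, b * a ∈ AA α M := by
      intro a ha
      exact hb M le_rfl (Nat.zero_le _) a (by simpa using ha)
    let T : Module.End K (AA α M) := (LinearMap.mulLeft K b).restrict hact
    have hnt : Nontrivial (AA α M) := by
      refine ⟨⟨⟨η ^ M, AA_pow α hη M⟩, 0, ?_⟩⟩
      intro hh
      exact pow_ne_zero M h0 (congrArg Subtype.val hh)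
    obtain ⟨μ, hμ⟩ := Module.End.exists_eigenvalue T
    obtain ⟨v, hv⟩ := hμ.exists_hasEigenvector
    have h1 : b * (v : F) = μ • (v : F) := by
      have h2 := hv.apply_eq_smul
      exact congrArg Subtype.val h2
    have h2 : (v : F) ≠ 0 := by
      intro hh; exact hv.2 (Subtype.ext hh)
    rw [Submodule.mem_span_singleton]
    refine ⟨μ, ?_⟩
    have h3 : (b - μ • (1 : F)) * (v : F) = 0 := by
      rw [sub_mul, h1, Algebra.smul_mul_assoc, one_mul, sub_self]
    rcases mul_eq_zero.mp h3 with h4 | h4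
    · exact (sub_eq_zero.mp h4).symm
    · exact absurd h4 h2
  refine (Submodule.finrank_mono hle).trans ?_
  exact (finrank_span_le_card ({(1 : F)} : Set F)).trans (by simp)

theorem CC_conv {M N0 s : ℕ} (hs : 1 ≤ s) (hsM : s + N0 ≤ M) {η l : F} (hη : η ∈ AA α 1)
    (hl : l ∈ AA α 1) (h0 : η ≠ 0) (hl0 : l ≠ 0) (hN : 1 ≤ N0)
    (hgen : ∀ t ≥ N0, ∀ a ∈ AA α (t + 1), ∃ a1 ∈ AA α t, ∃ a2 ∈ AA α t, a = η * a1 + l * a2) :
    2 * finrank K (CC α M s) ≤ finrank K (CC α M (s + 1)) + finrank K (CC α M (s - 1)) := by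
  obtain ⟨hf0, -⟩ := CC_fin α (M := M) (s := s) (by omega) hη h0
  obtain ⟨hf1, -⟩ := CC_fin α (M := M) (s := s + 1) (by omega) hη h0
  obtain ⟨hf2, -⟩ := CC_fin α (M := M) (s := s - 1) (by omega) hη h0
  have hinj : ∀ {x : F}, x ≠ 0 → Function.Injective (LinearMap.mulLeft K x) := by
    intro x hx a b hab
    simp only [LinearMap.mulLeft_apply] at hab
    exact mul_left_cancel₀ hx hab
  set U1 := (CC α M s).map (LinearMap.mulLeft K η) with hU1
  set U2 := (CC α M s).map (LinearMap.mulLeft K l) with hU2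
  have e1 : finrank K U1 = finrank K (CC α M s) :=
    (Submodule.equivMapOfInjective _ (hinj h0) (CC α M s)).finrank_eq.symm
  have e2 : finrank K U2 = finrank K (CC α M s) :=
    (Submodule.equivMapOfInjective _ (hinj hl0) (CC α M s)).finrank_eq.symm
  have hmul : ∀ x ∈ AA α 1, ∀ b ∈ CC α M s, x * b ∈ CC α M (s + 1) := by
    intro x hx b hb r hr hsr a ha
    have h1 : x * a ∈ AA α (r - s) := by
      have := AA_mul α hx ha
      have e : 1 + (r - (s + 1)) = r - s := by omega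
      rwa [e] at this
    have h2 := hb r hr (by omega) _ h1
    have : x * b * a = b * (x * a) := by ring
    rwa [this]
  have hsup : U1 ⊔ U2 ≤ CC α M (s + 1) := by
    apply sup_le
    · rintro _ ⟨b, hb, rfl⟩; exact hmul η hη b hb
    · rintro _ ⟨b, hb, rfl⟩; exact hmul l hl b hb
  have hinf : U1 ⊓ U2 ≤ (CC α M (s - 1)).map (LinearMap.mulLeft K (η * l)) := by
    rintro x ⟨⟨b, hb, hbx⟩, ⟨b', hb', hbx'⟩⟩
    simp only [LinearMap.mulLeft_apply] at hbx hbx'
    refine ⟨x / (η * l), ?_, ?_⟩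
    · intro r hr hsr a ha
      have hr1 : r - (s - 1) = (r - s) + 1 := by omega
      rw [hr1] at ha
      obtain ⟨a1, ha1, a2, ha2, rfl⟩ := hgen (r - s) (by omega) a ha
      have h1 : x / (η * l) * (η * a1 + l * a2) = b' * a1 + b * a2 := by
        have e3 : x / (η * l) * (η * a1) = b' * a1 := by
          rw [← hbx']; field_simp
        have e4 : x / (η * l) * (l * a2) = b * a2 := by
          rw [← hbx]; field_simp
        rw [mul_add, e3, e4]
      rw [h1]
      exact add_mem (hb' r hr (by omega) _ ha1) (hb r hr (by omega) _ ha2)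
    · simp only [LinearMap.mulLeft_apply]
      field_simp
  have e3 : finrank K ((CC α M (s - 1)).map (LinearMap.mulLeft K (η * l))) =
      finrank K (CC α M (s - 1)) :=
    (Submodule.equivMapOfInjective _ (hinj (mul_ne_zero h0 hl0)) (CC α M (s - 1))).finrank_eq.symm
  have h1 := Submodule.finrank_sup_add_finrank_inf_eq U1 U2
  have h2 := Submodule.finrank_mono hsup
  have h3 := Submodule.finrank_mono hinf
  omega

end

/-- Lemma K1. -/
theorem k1 [IsAlgClosed K] {𝔭 : Ideal (S K)} (hp : 𝔭.IsPrime) {h l : S K}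
    (hh : h.IsHomogeneous 1) (hl : l.IsHomogeneous 1) (hhp : h ∉ 𝔭) (hlp : l ∉ 𝔭) {N0 : ℕ}
    (hgen : ∀ t ≥ N0, ∀ a : S K, a.IsHomogeneous (t + 1) → ∃ a1 a2 : S K,
      a1.IsHomogeneous t ∧ a2.IsHomogeneous t ∧ a - (h * a1 + l * a2) ∈ 𝔭) {e C : ℕ}
    (hup : ∀ t, hf 𝔭 t ≤ e * t + C) (t : ℕ) : hf 𝔭 t ≤ e * t + 1 := by
  let F := FractionRing (S K ⧸ 𝔭)
  let α : S K →ₐ[K] F := (IsScalarTower.toAlgHom K (S K ⧸ 𝔭) F).comp (Ideal.Quotient.mkₐ K 𝔭)
  have hker : ∀ x, α x = 0 ↔ x ∈ 𝔭 := by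
    intro x
    have h1 : α x = algebraMap (S K ⧸ 𝔭) F (Ideal.Quotient.mk 𝔭 x) := rfl
    rw [h1, FaithfulSMul.algebraMap_eq_zero_iff, Ideal.Quotient.eq_zero_iff_mem]
  have hη : α h ∈ AA α 1 := ⟨h, hh, rfl⟩
  have hl' : α l ∈ AA α 1 := ⟨l, hl, rfl⟩
  have h0 : α h ≠ 0 := fun hc => hhp ((hker h).mp hc)
  have hl0 : α l ≠ 0 := fun hc => hlp ((hker l).mp hc)
  have hgen' : ∀ t ≥ N0 + 1, ∀ a ∈ AA α (t + 1), ∃ a1 ∈ AA α t, ∃ a2 ∈ AA α t,
      a = α h * a1 + α l * a2 := by
    rintro t ht _ ⟨a, ha, rfl⟩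
    obtain ⟨a1, a2, h1, h2, h3⟩ := hgen t (by omega) a ha
    refine ⟨α a1, ⟨a1, h1, rfl⟩, α a2, ⟨a2, h2, rfl⟩, ?_⟩
    have h4 := (hker _).mpr h3
    rw [map_sub, map_add, map_mul, map_mul, sub_eq_zero] at h4
    exact h4
  set M := C + (e + 1) * ((N0 + 1) + t) + (N0 + 1) + t + 1 with hM
  have h1 : finrank K (AA α t) ≤ finrank K (CC α M t) := by
    obtain ⟨hf1, -⟩ := CC_fin α (M := M) (s := t) (by omega) hη h0
    exact Submodule.finrank_mono (AA_le_CC α M t)
  have h2 := convex_bound (fun s => finrank K (CC α M s)) e C (N0 + 1) M t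
    (CC_zero α hη h0) (by omega)
    (fun s hs hsM => CC_conv α hs hsM hη hl' h0 hl0 (by omega) hgen')
    (fun s hs => ((CC_fin α hs hη h0).2.trans (finrank_AA α hker M).le).trans (hup M))
  rw [finrank_AA α hker] at h1
  exact h1.trans h2

end Pool.Agent.Work.C21
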