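import Pool.Agent.Work.MP_c21e2e_ag_helper46.Primes

namespace Pool.Agent.Work.C21

open MvPolynomial Module IsLocalRing

variable {K : Type*} [Field K] (A : ValuationSubring K)

/-- The inclusion of polynomials over the valuation ring. -/
noncomputable def inc : MvPolynomial (Fin 4) A →+* S K := MvPolynomial.map (algebraMap A K)

/-- Reduction of polynomials over the valuation ring. -/
noncomputable def rho : MvPolynomial (Fin 4) A →+* S (ResidueField A) := MvPolynomial.map (residue A)

theorem inc_injective : Function.Injective (inc A) :=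
  MvPolynomial.map_injective _ (IsFractionRing.injective A K)

theorem rho_surjective : Function.Surjective (rho A) :=
  MvPolynomial.map_surjective _ residue_surjective

theorem coeff_inc (x : MvPolynomial (Fin 4) A) (m : Fin 4 →₀ ℕ) :
    coeff m (inc A x) = ((coeff m x : A) : K) := by
  simp only [inc, coeff_map]; rfl

theorem coeff_rho (x : MvPolynomial (Fin 4) A) (m : Fin 4 →₀ ℕ) :
    coeff m (rho A x) = residue A (coeff m x) := coeff_map _ _ _

/-- Reduction of a subspace. -/
noncomputable def redV (V : Submodule K (S K)) : Submodule (ResidueField A) (S (ResidueField A)) where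
  carrier := {y | ∃ x, inc A x ∈ V ∧ rho A x = y}
  add_mem' := by
    rintro _ _ ⟨x, hx, rfl⟩ ⟨y, hy, rfl⟩
    exact ⟨x + y, by rw [map_add]; exact add_mem hx hy, map_add _ _ _⟩
  zero_mem' := ⟨0, by rw [map_zero]; exact zero_mem _, map_zero _⟩
  smul_mem' := by
    rintro c _ ⟨x, hx, rfl⟩
    obtain ⟨a, rfl⟩ := residue_surjective c
    refine ⟨C a * x, ?_, ?_⟩
    · rw [map_mul, inc, map_C, ← smul_eq_C_mul]
      exact V.smul_mem _ hx
    · rw [map_mul, rho, map_C, ← smul_eq_C_mul]

theorem mem_redV {V : Submodule K (S K)} {y : S (ResidueField A)} :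
    y ∈ redV A V ↔ ∃ x, inc A x ∈ V ∧ rho A x = y := Iff.rfl

theorem redV_mono {V W : Submodule K (S K)} (h : V ≤ W) : redV A V ≤ redV A W := by
  rintro _ ⟨x, hx, rfl⟩
  exact ⟨x, h hx, rfl⟩

/-- A nonzero polynomial can be scaled to have integral coefficients, one of them equal to `1`. -/
theorem exists_scale {v : S K} (hv : v ≠ 0) : ∃ (c : K) (m : Fin 4 →₀ ℕ)
    (w : MvPolynomial (Fin 4) A), inc A w = c • v ∧ coeff m w = 1 := by
  obtain ⟨m, hm, hmax⟩ := Finset.exists_max_image v.support (fun m => A.valuation (coeff m v))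
    (support_nonempty.mpr hv)
  have hm0 : coeff m v ≠ 0 := mem_support_iff.mp hm
  have hmem : ∀ m', (coeff m v)⁻¹ * coeff m' v ∈ A := by
    intro m'
    rw [← A.valuation_le_one_iff, map_mul, map_inv₀]
    by_cases h0 : coeff m' v = 0
    · simp [h0]
    · have h1 := hmax m' (mem_support_iff.mpr h0)
      have h2 : A.valuation (coeff m v) ≠ 0 := by
        intro hc; exact hm0 ((A.valuation.zero_iff).mp hc)
      rw [inv_mul_le_iff₀ (zero_lt_iff.mpr h2), mul_one]
      exact h1
  have hr : (coeff m v)⁻¹ • v ∈ (inc A).range := by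
    rw [inc, RingHom.mem_range]
    change _ ∈ Set.range (MvPolynomial.map (algebraMap A K))
    rw [MvPolynomial.mem_range_map_iff_coeffs_subset]
    intro x hx
    rw [SetLike.mem_coe, MvPolynomial.mem_coeffs_iff] at hx
    obtain ⟨n, _, rfl⟩ := hx
    rw [coeff_smul, smul_eq_mul]
    exact ⟨⟨_, hmem n⟩, rfl⟩
  obtain ⟨w, hw⟩ := hr
  refine ⟨_, m, w, hw, ?_⟩
  have h1 := coeff_inc A w m
  rw [hw, coeff_smul, smul_eq_mul, inv_mul_cancel₀ hm0] at h1
  exact Subtype.ext h1.symm

theorem redV_fin (n : ℕ) : ∀ V : Submodule K (S K), FiniteDimensional K V → finrank K V = n →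
    FiniteDimensional (ResidueField A) (redV A V) ∧ finrank (ResidueField A) (redV A V) = n := by
  induction n with
  | zero =>
    intro V hV h0
    have hbot : V = ⊥ := Submodule.finrank_eq_zero.mp h0
    subst hbot
    have : redV A (⊥ : Submodule K (S K)) = ⊥ := by
      rw [eq_bot_iff]
      rintro _ ⟨x, hx, rfl⟩
      rw [Submodule.mem_bot] at hx ⊢
      have : x = 0 := inc_injective A (by rw [hx, map_zero])
      rw [this, map_zero]
    rw [this]
    exact ⟨inferInstance, finrank_bot _ _⟩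
  | succ n ih =>
    intro V hV hn
    have hne : V ≠ ⊥ := by
      rintro rfl
      rw [finrank_bot] at hn; omega
    obtain ⟨v, hvV, hv0⟩ := Submodule.exists_mem_ne_zero_of_ne_bot hne
    obtain ⟨c, m, w, hw, hw1⟩ := exists_scale A hv0
    have hwV : inc A w ∈ V := by rw [hw]; exact V.smul_mem _ hvV
    let ψ : S K →ₗ[K] K := lcoeff K m
    let ψ' : S (ResidueField A) →ₗ[ResidueField A] (ResidueField A) := lcoeff (ResidueField A) m
    have h1 := finrank_map_add_inf_ker ψ V
    have h2 : V.map ψ = ⊤ := by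
      rw [eq_top_iff]
      intro a _
      refine ⟨a • inc A w, V.smul_mem _ hwV, ?_⟩
      rw [map_smul]
      change a • coeff m (inc A w) = a
      rw [coeff_inc, hw1]
      simp
    rw [h2, finrank_top, finrank_self, hn] at h1
    have hV' : finrank K (V ⊓ LinearMap.ker ψ : Submodule K (S K)) = n := by omega
    obtain ⟨ihf, ihn⟩ := ih (V ⊓ LinearMap.ker ψ) inferInstance hV'
    have hsub : ∀ x : MvPolynomial (Fin 4) A, inc A x ∈ V →
        inc A (x - C (coeff m x) * w) ∈ V ⊓ LinearMap.ker ψ := by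
      intro x hx
      have e1 : inc A (x - C (coeff m x) * w) = inc A x - ((coeff m x : A) : K) • inc A w := by
        rw [map_sub, map_mul, smul_eq_C_mul]
        congr 2
        rw [inc, map_C]; rfl
      refine ⟨?_, ?_⟩
      · rw [e1]; exact sub_mem hx (V.smul_mem _ hwV)
      · rw [SetLike.mem_coe, LinearMap.mem_ker, e1, map_sub, map_smul]
        change coeff m (inc A x) - ((coeff m x : A) : K) • coeff m (inc A w) = 0
        rw [coeff_inc, coeff_inc, hw1]
        simp
    have hdec : ∀ x : MvPolynomial (Fin 4) A, rho A x =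
        rho A (x - C (coeff m x) * w) + residue A (coeff m x) • rho A w := by
      intro x
      rw [map_sub, map_mul, smul_eq_C_mul, rho, map_C]
      ring
    have hle : redV A V ≤ redV A (V ⊓ LinearMap.ker ψ) ⊔
        Submodule.span (ResidueField A) {rho A w} := by
      rintro _ ⟨x, hx, rfl⟩
      rw [hdec x]
      refine Submodule.add_mem_sup ⟨_, hsub x hx, rfl⟩ ?_
      exact Submodule.smul_mem _ _ (Submodule.mem_span_singleton_self _)
    have hfd : FiniteDimensional (ResidueField A) (redV A V) :=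
      Submodule.finiteDimensional_of_le hle
    refine ⟨hfd, ?_⟩
    have h3 := finrank_map_add_inf_ker ψ' (redV A V)
    have h4 : (redV A V).map ψ' = ⊤ := by
      rw [eq_top_iff]
      intro a _
      refine ⟨a • rho A w, Submodule.smul_mem _ _ ⟨w, hwV, rfl⟩, ?_⟩
      rw [map_smul]
      change a • coeff m (rho A w) = a
      rw [coeff_rho, hw1, map_one, smul_eq_mul, mul_one]
    have h5 : (redV A V ⊓ LinearMap.ker ψ' : Submodule _ _) = redV A (V ⊓ LinearMap.ker ψ) := by
      apply le_antisymm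
      · rintro _ ⟨⟨x, hx, rfl⟩, h⟩
        have h6 : residue A (coeff m x) = 0 := by
          rw [SetLike.mem_coe, LinearMap.mem_ker] at h
          change coeff m (rho A x) = 0 at h
          rwa [coeff_rho] at h
        refine ⟨_, hsub x hx, ?_⟩
        rw [hdec x, h6, zero_smul, add_zero]
      · rintro _ ⟨x, hx, rfl⟩
        refine ⟨⟨x, hx.1, rfl⟩, ?_⟩
        rw [SetLike.mem_coe, LinearMap.mem_ker]
        change coeff m (rho A x) = 0
        have h7 : coeff m (inc A x) = 0 := hx.2
        rw [coeff_inc] at h7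
        rw [coeff_rho]
        have : coeff m x = 0 := Subtype.ext h7
        rw [this, map_zero]
    rw [h4, h5, finrank_top, finrank_self, ihn] at h3
    omega

theorem finrank_redV (V : Submodule K (S K)) [h : FiniteDimensional K V] :
    finrank (ResidueField A) (redV A V) = finrank K V := (redV_fin A _ V h rfl).2

/-- Reduction of an ideal. -/
noncomputable def redI (𝔞 : Ideal (S K)) : Ideal (S (ResidueField A)) :=
  Ideal.map (rho A) (Ideal.comap (inc A) 𝔞)

theorem mem_redI {𝔞 : Ideal (S K)} {y : S (ResidueField A)} :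
    y ∈ redI A 𝔞 ↔ ∃ x, inc A x ∈ 𝔞 ∧ rho A x = y := by
  rw [redI, Ideal.mem_map_iff_of_surjective _ (rho_surjective A)]
  rfl

theorem redI_mono {𝔞 𝔟 : Ideal (S K)} (h : 𝔞 ≤ 𝔟) : redI A 𝔞 ≤ redI A 𝔟 :=
  Ideal.map_mono (Ideal.comap_mono h)

theorem comp_inc (x : MvPolynomial (Fin 4) A) (n : ℕ) :
    homogeneousComponent n (inc A x) = inc A (homogeneousComponent n x) := by
  ext m
  rw [coeff_homogeneousComponent, coeff_inc, coeff_inc, coeff_homogeneousComponent]
  split_ifs <;> simp

theorem comp_rho (x : MvPolynomial (Fin 4) A) (n : ℕ) :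
    homogeneousComponent n (rho A x) = rho A (homogeneousComponent n x) := by
  ext m
  rw [coeff_homogeneousComponent, coeff_rho, coeff_rho, coeff_homogeneousComponent]
  split_ifs <;> simp

theorem GH_redI {𝔞 : Ideal (S K)} (h : GH 𝔞) : GH (redI A 𝔞) := by
  intro p hp n
  rw [mem_redI] at hp ⊢
  obtain ⟨x, hx, rfl⟩ := hp
  refine ⟨homogeneousComponent n x, ?_, (comp_rho A x n).symm⟩
  rw [← comp_inc]
  exact h _ hx n

theorem pc_redI {𝔞 : Ideal (S K)} (h : GH 𝔞) (t : ℕ) : pc (redI A 𝔞) t = redV A (pc 𝔞 t) := by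
  apply le_antisymm
  · intro y hy
    rw [mem_pc, mem_redI] at hy
    obtain ⟨⟨x, hx, rfl⟩, hy2⟩ := hy
    refine ⟨homogeneousComponent t x, ?_, ?_⟩
    · rw [← comp_inc, mem_pc]
      exact ⟨h _ hx t, homogeneousComponent_isHomogeneous t _⟩
    · rw [← comp_rho, homogeneousComponent_eq_self hy2]
  · rintro _ ⟨x, hx, rfl⟩
    rw [mem_pc] at hx
    rw [mem_pc, mem_redI]
    refine ⟨⟨x, hx.1, rfl⟩, ?_⟩
    have h1 : inc A (homogeneousComponent t x) = inc A x := by
      rw [← comp_inc, homogeneousComponent_eq_self hx.2]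
    have h2 := inc_injective A h1
    rw [← h2, ← comp_rho]
    exact homogeneousComponent_isHomogeneous t _

theorem redV_gr (t : ℕ) : redV A (gr K t) = gr (ResidueField A) t := by
  have h1 : pc (⊤ : Ideal (S K)) t = gr K t := by
    ext x; simp [mem_pc]
  have h2 : pc (⊤ : Ideal (S (ResidueField A))) t = gr (ResidueField A) t := by
    ext x; simp [mem_pc]
  rw [← h1, ← pc_redI A GH_top, ← h2]
  congr 1
  rw [Ideal.eq_top_iff_one, mem_redI]
  exact ⟨1, trivial, map_one _⟩

theorem nn_eq (t : ℕ) : nn (ResidueField A) t = nn K t := by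
  unfold nn
  rw [← redV_gr, finrank_redV]

theorem dd_redI {𝔞 : Ideal (S K)} (h : GH 𝔞) (t : ℕ) : dd (redI A 𝔞) t = dd 𝔞 t := by
  unfold dd
  rw [pc_redI A h, finrank_redV]

theorem hf_redI {𝔞 : Ideal (S K)} (h : GH 𝔞) (t : ℕ) : hf (redI A 𝔞) t = hf 𝔞 t := by
  unfold hf
  rw [dd_redI A h, nn_eq]

theorem redI_mul_le (𝔞 𝔟 : Ideal (S K)) : redI A 𝔞 * redI A 𝔟 ≤ redI A (𝔞 * 𝔟) := by
  rw [Ideal.mul_le]
  intro r hr s hs
  rw [mem_redI] at hr hs ⊢
  obtain ⟨x, hx, rfl⟩ := hr
  obtain ⟨y, hy, rfl⟩ := hs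
  exact ⟨x * y, by rw [map_mul]; exact Ideal.mul_mem_mul hx hy, map_mul _ _ _⟩

theorem redI_pow_le (𝔞 : Ideal (S K)) (n : ℕ) : redI A 𝔞 ^ n ≤ redI A (𝔞 ^ n) := by
  induction n with
  | zero =>
    rw [pow_zero, pow_zero, Ideal.one_eq_top, Ideal.one_eq_top]
    intro x _
    rw [mem_redI]
    obtain ⟨y, hy⟩ := rho_surjective A x
    exact ⟨y, trivial, hy⟩
  | succ n ih =>
    rw [pow_succ, pow_succ]
    exact (Ideal.mul_mono_left ih).trans (redI_mul_le A _ _)

/-- Homogeneous lifts. -/
theorem exists_lift {y : S (ResidueField A)} {t : ℕ} (hy : y.IsHomogeneous t) :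
    ∃ x : MvPolynomial (Fin 4) A, rho A x = y ∧ (inc A x).IsHomogeneous t := by
  have h1 : y ∈ gr (ResidueField A) t := hy
  rw [← redV_gr] at h1
  obtain ⟨x, hx, hxy⟩ := h1
  exact ⟨x, hxy, hx⟩

end Pool.Agent.Work.C21
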