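import Pool.Agent.Work.MP_c21e2e_ag_helper46.Special
import Pool.Agent.Work.MP_c21e2e_ag_helper46.Red
import Pool.Agent.Work.MP_c21e2e_ag_helper46.KOne

namespace Pool.Agent.Work.C21

open MvPolynomial Module IsLocalRing

section General

variable {K : Type*} [Field K]

theorem Bdd_of_step {𝔞 : Ideal (S K)} (T : ℕ) (h : ∀ t ≥ T, hf 𝔞 (t + 1) ≤ hf 𝔞 t) : Bdd 𝔞 := by
  apply Bdd_of_eventually (hf 𝔞 T) T
  intro t ht
  induction t, ht using Nat.le_induction with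
  | base => exact le_rfl
  | succ n hn ih => exact (h n hn).trans ih

/-- The local component at a prime. -/
noncomputable def QQ (I 𝔭 : Ideal (S K)) : Ideal (S K) :=
  Ideal.span {f | ∃ (s : S K) (k : ℕ), s.IsHomogeneous k ∧ s ∉ 𝔭 ∧ s * f ∈ I}

theorem mem_QQ {I 𝔭 : Ideal (S K)} (hp : 𝔭.IsPrime) {f : S K} :
    f ∈ QQ I 𝔭 ↔ ∃ (s : S K) (k : ℕ), s.IsHomogeneous k ∧ s ∉ 𝔭 ∧ s * f ∈ I := by
  constructor
  · intro h
    induction h using Submodule.span_induction with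
    | mem x hx => exact hx
    | zero =>
      refine ⟨1, 0, isHomogeneous_one _ _, ?_, by rw [mul_zero]; exact zero_mem _⟩
      exact fun h => hp.ne_top ((Ideal.eq_top_iff_one _).mpr h)
    | add x y _ _ hx hy =>
      obtain ⟨s, k, h1, h2, h3⟩ := hx
      obtain ⟨s', k', h1', h2', h3'⟩ := hy
      refine ⟨s * s', _, h1.mul h1', ?_, ?_⟩
      · intro h
        rcases hp.mem_or_mem h with h | h
        · exact h2 h
        · exact h2' h
      · have e : s * s' * (x + y) = s' * (s * x) + s * (s' * y) := by ring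
        rw [e]
        exact add_mem (I.mul_mem_left _ h3) (I.mul_mem_left _ h3')
    | smul a x _ hx =>
      obtain ⟨s, k, h1, h2, h3⟩ := hx
      refine ⟨s, k, h1, h2, ?_⟩
      have e : s * (a • x) = a * (s * x) := by rw [smul_eq_mul]; ring
      rw [e]
      exact I.mul_mem_left _ h3
  · intro h
    exact Ideal.subset_span h

theorem le_QQ {I 𝔭 : Ideal (S K)} (hp : 𝔭.IsPrime) : I ≤ QQ I 𝔭 := by
  intro f hf'
  rw [mem_QQ hp]
  refine ⟨1, 0, isHomogeneous_one _ _, ?_, by rwa [one_mul]⟩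
  exact fun h => hp.ne_top ((Ideal.eq_top_iff_one _).mpr h)

theorem QQ_le {I 𝔭 : Ideal (S K)} (hp : 𝔭.IsPrime) (h : I ≤ 𝔭) : QQ I 𝔭 ≤ 𝔭 := by
  intro f hf'
  rw [mem_QQ hp] at hf'
  obtain ⟨s, k, _, h2, h3⟩ := hf'
  exact (hp.mem_or_mem (h h3)).resolve_left h2

theorem GH_QQ {I 𝔭 : Ideal (S K)} (hp : 𝔭.IsPrime) (h : GH I) : GH (QQ I 𝔭) := by
  intro f hf' n
  rw [mem_QQ hp] at hf' ⊢
  obtain ⟨s, k, h1, h2, h3⟩ := hf'
  refine ⟨s, k, h1, h2, ?_⟩
  rw [← comp_mul_left h1]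
  exact h _ h3 _

theorem QQ_prim {I 𝔭 : Ideal (S K)} (hp : 𝔭.IsPrime) {f g : S K} {k : ℕ} (hf' : f.IsHomogeneous k)
    (hfp : f ∉ 𝔭) (h : f * g ∈ QQ I 𝔭) : g ∈ QQ I 𝔭 := by
  rw [mem_QQ hp] at h ⊢
  obtain ⟨s, k', h1, h2, h3⟩ := h
  refine ⟨s * f, _, h1.mul hf', ?_, by rwa [mul_assoc]⟩
  intro hm
  rcases hp.mem_or_mem hm with hm | hm
  · exact h2 hm
  · exact hfp hm

theorem exists_s {I 𝔭 : Ideal (S K)} (hp : 𝔭.IsPrime) :
    ∃ (s : S K) (k : ℕ), s.IsHomogeneous k ∧ s ∉ 𝔭 ∧ ∀ x ∈ QQ I 𝔭, s * x ∈ I := by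
  classical
  obtain ⟨F, hF⟩ := (isNoetherianRing_iff_ideal_fg (S K)).mp inferInstance (QQ I 𝔭)
  have h1 : ∀ f : S K, ∃ (s : S K) (k : ℕ), f ∈ F → s.IsHomogeneous k ∧ s ∉ 𝔭 ∧ s * f ∈ I := by
    intro f
    by_cases hf' : f ∈ F
    · have : f ∈ QQ I 𝔭 := hF ▸ Ideal.subset_span hf'
      rw [mem_QQ hp] at this
      obtain ⟨s, k, h⟩ := this
      exact ⟨s, k, fun _ => h⟩
    · exact ⟨0, 0, fun h => absurd h hf'⟩
  choose s k hs using h1
  refine ⟨∏ f ∈ F, s f, ∑ f ∈ F, k f, ?_, ?_, ?_⟩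
  · exact IsHomogeneous.prod _ _ _ fun f hf' => (hs f hf').1
  · intro hm
    rw [hp.prod_mem_iff] at hm
    obtain ⟨f, hf', hm⟩ := hm
    exact (hs f hf').2.1 hm
  · intro x hx
    have h2 : QQ I 𝔭 ≤ colon I (Ideal.span {∏ f ∈ F, s f}) := by
      rw [← hF]
      apply Ideal.span_le.mpr
      intro f hf' p hp'
      obtain ⟨a, rfl⟩ := Ideal.mem_span_singleton'.mp hp'
      rw [← Finset.mul_prod_erase F s hf']
      have e : f * (a * (s f * ∏ x ∈ F.erase f, s x)) =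
          (a * ∏ x ∈ F.erase f, s x) * (s f * f) := by ring
      rw [e]
      exact I.mul_mem_left _ (hs f hf').2.2
    have h3 := h2 hx _ (Ideal.mem_span_singleton_self _)
    rwa [mul_comm]

theorem exists_pow_mul_mem {I 𝔭 : Ideal (S K)} (hp : 𝔭 ∈ I.minimalPrimes) (hI : GH I) {x : S K}
    {j : ℕ} (hj : x.IsHomogeneous j) (hx : x ∈ 𝔭) : ∃ n, x ^ n ∈ QQ I 𝔭 := by
  have hprime : 𝔭.IsPrime := hp.1.1
  by_contra hcon
  push Not at hcon
  -- the multiplicative set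
  let M : Submonoid (S K) :=
    { carrier := {y | ∃ s ∉ 𝔭, ∃ n, y = s * x ^ n}
      one_mem' := ⟨1, fun h => hprime.ne_top ((Ideal.eq_top_iff_one _).mpr h), 0, by simp⟩
      mul_mem' := by
        rintro _ _ ⟨s, hs, n, rfl⟩ ⟨s', hs', n', rfl⟩
        refine ⟨s * s', ?_, n + n', by ring⟩
        intro hm
        rcases hprime.mem_or_mem hm with hm | hm
        · exact hs hm
        · exact hs' hm }
  have hdisj : Disjoint (I : Set (S K)) (M : Set (S K)) := by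
    rw [Set.disjoint_left]
    rintro y hyI ⟨s, hs, n, rfl⟩
    obtain ⟨m, hm⟩ := exists_comp_not_mem hs
    apply hcon n
    rw [mem_QQ hprime]
    refine ⟨homogeneousComponent m s, m, homogeneousComponent_isHomogeneous m s, hm, ?_⟩
    rw [← comp_mul_right (hj.pow n)]
    exact hI _ hyI _
  obtain ⟨𝔮, hq, hIq, hqM⟩ := Ideal.exists_le_prime_disjoint I M hdisj
  have h1 : 𝔮 ≤ 𝔭 := by
    intro y hy
    by_contra hyp
    exact Set.disjoint_left.mp hqM hy ⟨y, hyp, 0, by simp⟩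
  have h2 : 𝔭 ≤ 𝔮 := hp.2 ⟨hq, hIq⟩ h1
  refine Set.disjoint_left.mp hqM (h2 hx) ⟨1, ?_, 1, by simp⟩
  exact fun h => hprime.ne_top ((Ideal.eq_top_iff_one _).mpr h)

theorem exists_pow_le_QQ {I 𝔭 : Ideal (S K)} (hp : 𝔭 ∈ I.minimalPrimes) (hI : GH I) :
    ∃ N, 𝔭 ^ N ≤ QQ I 𝔭 := by
  have hG : GH 𝔭 := hI.minimalPrimes hp
  have h1 : 𝔭 ≤ (QQ I 𝔭).radical := by
    intro x hx
    rw [← sum_homogeneousComponent x]
    refine Ideal.sum_mem _ fun i _ => ?_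
    exact exists_pow_mul_mem hp hI (homogeneousComponent_isHomogeneous i x) (hG x hx i)
  obtain ⟨N, hN⟩ := Ideal.exists_radical_pow_le_of_fg (QQ I 𝔭)
    ((isNoetherianRing_iff_ideal_fg (S K)).mp inferInstance _)
  exact ⟨N, (Ideal.pow_right_mono h1 N).trans hN⟩

/-- If the local component is strictly smaller than the prime then the multiplicity doubles. -/
theorem hf_QQ_lower {I 𝔭 𝔮 : Ideal (S K)} (hp : 𝔭.IsPrime) (h : QQ I 𝔭 ≤ 𝔮) {f : S K} {c : ℕ}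
    (hf' : f.IsHomogeneous c) (hfq : f ∈ 𝔮) (hfQ : f ∉ QQ I 𝔭) (t : ℕ) :
    hf 𝔮 (t + c) + hf 𝔭 t ≤ hf (QQ I 𝔭) (t + c) := by
  refine hf_lower h hf' hfq t ?_
  intro g hg hfg
  by_contra hgp
  apply hfQ
  rw [mul_comm] at hfg
  exact QQ_prim hp hg hgp hfg

end General

variable {K : Type*} [Field K] (A : ValuationSubring K) {C : Type*} [Fintype C] [DecidableEq C]
  (X : Cfg (ResidueField A) C)

/-- Relevant primes. -/
def IsPP (I 𝔭 : Ideal (S K)) : Prop := 𝔭.IsPrime ∧ GH 𝔭 ∧ I ≤ 𝔭 ∧ ¬ Bdd 𝔭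

variable {A X} {I : Ideal (S K)} (hI : GH I) (hX : X.Cont (redI A I))

include hX in
theorem UB_K {𝔟 : Ideal (S K)} (hb : GH 𝔟) (h : I ≤ 𝔟) : UB 𝔟 (∑ c, X.mu (redI A 𝔟) c) := by
  obtain ⟨E, hE⟩ := X.UB_mu (GH_redI A hb) (hX.mono (redI_mono A h))
  exact ⟨E, fun t => by rw [← hf_redI A hb]; exact hE t⟩

theorem sum_kk_K {𝔟 : Ideal (S K)} (hb : GH 𝔟) (t : ℕ) :
    ∑ c, hf (X.kk (redI A 𝔟) c) t ≤ hf 𝔟 (t + 32) := by
  rw [← hf_redI A hb]
  exact X.sum_kk_le _ t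

theorem Cfg.exists_kk_lower {κ : Type*} [Field κ] (X : Cfg κ C) (𝔟 : Ideal (S κ)) :
    ∃ T, ∀ t ≥ T, ∀ c, X.mu 𝔟 c * t +
      (if X.mu 𝔟 c = 2 then X.n c + 1 else 0) ≤ hf (X.kk 𝔟 c) t := by
  have h1 : ∀ c, ∃ T, ∀ t ≥ T, X.mu 𝔟 c * t +
      (if X.mu 𝔟 c = 2 then X.n c + 1 else 0) ≤ hf (X.kk 𝔟 c) t := by
    intro c
    rcases X.kk_cases 𝔟 c with ⟨_, h1, h2⟩ | ⟨_, _, h1, h2⟩ | ⟨_, _, h1, h2⟩ <;> rw [h1, h2]
    · by_cases h : X.dbl c = true
      · obtain ⟨T, hT⟩ := X.hfQ c h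
        refine ⟨T, fun t ht => ?_⟩
        rw [hT t ht]
        simp only [h, if_true]
        omega
      · refine ⟨0, fun t _ => ?_⟩
        have h' := h
        rw [Bool.not_eq_true] at h
        rw [X.QeP c h, X.hfP]
        simp only [h']
        norm_num
    · refine ⟨0, fun t _ => ?_⟩
      rw [X.hfP]
      norm_num
    · exact ⟨0, fun t _ => by norm_num⟩
  choose T hT using h1
  refine ⟨∑ c, T c, fun t ht c => hT c t ?_⟩
  have : T c ≤ ∑ c, T c := Finset.single_le_sum (fun _ _ => Nat.zero_le _) (Finset.mem_univ c)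
  omega

theorem LB_K {𝔟 : Ideal (S K)} (hb : GH 𝔟) : LB 𝔟 (∑ c, X.mu (redI A 𝔟) c) := by
  obtain ⟨T, hT⟩ := X.exists_kk_lower (redI A 𝔟)
  apply LB_of_eventually ((∑ c, X.mu (redI A 𝔟) c) * 32) (T + 32)
  intro t ht
  obtain ⟨k, rfl⟩ := Nat.exists_eq_add_of_le' (show 32 ≤ t by omega)
  have h1 := sum_kk_K (X := X) hb k
  have h2 : ∑ c, X.mu (redI A 𝔟) c * k ≤ ∑ c, hf (X.kk (redI A 𝔟) c) k :=
    Finset.sum_le_sum fun c _ => (Nat.le_add_right _ _).trans (hT k (by omega) c)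
  rw [← Finset.sum_mul] at h2
  rw [mul_add]
  omega

/-- Small Hilbert function implies that no double component is involved. -/
theorem mu_le_one {𝔟 : Ideal (S K)} (hb : GH 𝔟)
    (h : ∀ t, hf 𝔟 t ≤ (∑ c, X.mu (redI A 𝔟) c) * t + 2) (c : C) : X.mu (redI A 𝔟) c ≤ 1 := by
  by_contra hc
  have h2 : X.mu (redI A 𝔟) c = 2 := by
    have := X.mu_le (redI A 𝔟) c
    split_ifs at this <;> omega
  have hd : X.dbl c = true := by
    by_contra hd
    have := X.mu_le (redI A 𝔟) c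
    rw [if_neg hd] at this
    omega
  obtain ⟨T, hT⟩ := X.exists_kk_lower (redI A 𝔟)
  have h3 := sum_kk_K (X := X) hb T
  have h4 : ∑ c', (X.mu (redI A 𝔟) c' * T + if X.mu (redI A 𝔟) c' = 2 then X.n c' + 1 else 0) ≤
      ∑ c, hf (X.kk (redI A 𝔟) c) T := Finset.sum_le_sum fun c _ => hT T le_rfl c
  rw [Finset.sum_add_distrib, ← Finset.sum_mul] at h4
  have h5 : X.n c + 1 ≤ ∑ c', (if X.mu (redI A 𝔟) c' = 2 then X.n c' + 1 else 0) := by
    have := Finset.single_le_sum (f := fun c' => if X.mu (redI A 𝔟) c' = 2 then X.n c' + 1 else 0)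
      (fun _ _ => Nat.zero_le _) (Finset.mem_univ c)
    simpa [h2] using this
  have h6 := X.big c hd
  have h7 : ∑ c, X.mu (redI A 𝔟) c ≤ 26 := by
    rw [← X.hsum]
    exact Finset.sum_le_sum fun c _ => X.mu_le _ c
  have h8 := h (T + 32)
  rw [mul_add] at h8
  omega

include hX in
theorem hf_PP [IsAlgClosed K] {𝔭 : Ideal (S K)} (hp : IsPP I 𝔭) (t : ℕ) :
    hf 𝔭 t ≤ (∑ c, X.mu (redI A 𝔭) c) * t + 1 := by
  obtain ⟨hprime, hG, hle, hb⟩ := hp
  obtain ⟨h', hh1, hh2⟩ := exists_lift A X.hh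
  obtain ⟨l', hl1, hl2⟩ := exists_lift A X.hl
  set h := inc A h' with hh
  set l := inc A l' with hl
  obtain ⟨T, hT⟩ := hX
  -- the special fibre
  have h1 : mm (ResidueField A) ^ (T + 34) ≤
      redI A 𝔭 ⊔ (Ideal.span {X.h} ⊔ Ideal.span {X.l}) := by
    have h2 : ∀ c, mm (ResidueField A) ^ 2 ≤ X.Q c ⊔ (Ideal.span {X.h} ⊔ Ideal.span {X.l}) := by
      intro c
      have h3 := X.hhl c
      rw [sup_assoc] at h3
      exact (Ideal.pow_right_mono h3 2).trans ((pow_sup_le 2).trans (sup_le_sup_right (X.sq c) _))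
    have h3 : ∏ c : C, mm (ResidueField A) ^ 2 ≤
        ∏ c, (X.Q c ⊔ (Ideal.span {X.h} ⊔ Ideal.span {X.l})) :=
      Finset.prod_le_prod' fun c _ => h2 c
    rw [Finset.prod_const, Finset.card_univ, X.hcard, ← pow_mul] at h3
    have h4 := h3.trans (prod_sup_le _ _ _)
    rw [pow_add]
    refine (Ideal.mul_mono_right h4).trans ?_
    rw [Ideal.mul_sup]
    apply sup_le
    · refine le_trans ?_ le_sup_left
      refine le_trans ?_ (hT.trans (redI_mono A hle))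
      apply Ideal.mul_mono_right
      refine le_iInf fun c => ?_
      have h6 : ∏ c, X.Q c ≤ Finset.univ.inf X.Q := Ideal.prod_le_inf
      exact h6.trans (Finset.inf_le (Finset.mem_univ c))
    · have h6 : mm (ResidueField A) ^ T * (Ideal.span {X.h} ⊔ Ideal.span {X.l}) ≤
        Ideal.span {X.h} ⊔ Ideal.span {X.l} := Ideal.mul_le_right
      exact h6.trans le_sup_right
  have hGh : GH (𝔭 ⊔ Ideal.span {h}) := hG.sup (GH_span_singleton hh2)
  have hGl : GH (𝔭 ⊔ Ideal.span {h} ⊔ Ideal.span {l}) := hGh.sup (GH_span_singleton hl2)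
  have h2 : mm (ResidueField A) ^ (T + 34) ≤ redI A (𝔭 ⊔ Ideal.span {h} ⊔ Ideal.span {l}) := by
    refine h1.trans (sup_le ?_ (sup_le ?_ ?_))
    · exact redI_mono A (le_sup_left.trans le_sup_left)
    · rw [Ideal.span_singleton_le_iff_mem, mem_redI]
      exact ⟨h', Ideal.mem_sup_left (Ideal.mem_sup_right (Ideal.mem_span_singleton_self _)), hh1⟩
    · rw [Ideal.span_singleton_le_iff_mem, mem_redI]
      exact ⟨l', Ideal.mem_sup_right (Ideal.mem_span_singleton_self _), hl1⟩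
  have h3 : ∀ t ≥ T + 34, hf (𝔭 ⊔ Ideal.span {h} ⊔ Ideal.span {l}) t = 0 := by
    intro t ht
    rw [← hf_redI A hGl]
    exact hf_of_mm_pow h2 ht
  have h4 : ∀ t ≥ T + 34, pc (𝔭 ⊔ Ideal.span {h} ⊔ Ideal.span {l}) t = gr K t := by
    intro t ht
    apply Submodule.eq_of_le_of_finrank_le (pc_le_gr _ t)
    have h5 := h3 t ht
    have h6 := hf_add_dd (𝔭 ⊔ Ideal.span {h} ⊔ Ideal.span {l}) t
    unfold dd nn at h6
    omega
  have hhp : h ∉ 𝔭 := by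
    intro hm
    apply hb
    have e : 𝔭 ⊔ Ideal.span {h} = 𝔭 := by
      rw [sup_eq_left, Ideal.span_singleton_le_iff_mem]; exact hm
    rw [e] at h3
    apply Bdd_of_step (T + 34)
    intro t ht
    have h5 := hf_le_sup_span hG hl2 t
    rw [h3 (t + 1) (by omega)] at h5
    omega
  have hlp : l ∉ 𝔭 := by
    intro hm
    apply hb
    have e : 𝔭 ⊔ Ideal.span {h} ⊔ Ideal.span {l} = 𝔭 ⊔ Ideal.span {h} := by
      rw [sup_eq_left, Ideal.span_singleton_le_iff_mem]; exact Ideal.mem_sup_left hm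
    rw [e] at h3
    apply Bdd_of_step (T + 34)
    intro t ht
    have h5 := hf_le_sup_span hG hh2 t
    rw [h3 (t + 1) (by omega)] at h5
    omega
  obtain ⟨E, hE⟩ := UB_K (X := X) (I := I) ⟨T, hT⟩ hG hle
  refine k1 hprime hh2 hl2 hhp hlp (N0 := T + 34) ?_ hE t
  intro t ht a ha
  have h5 : a ∈ pc (𝔭 ⊔ Ideal.span {h} ⊔ Ideal.span {l}) (t + 1) := by
    rw [h4 (t + 1) (by omega)]; exact ha
  obtain ⟨g2, hg2, hag2⟩ := mem_pc_sup_span hGh hl2 h5
  have h6 : a - l * g2 ∈ pc (𝔭 ⊔ Ideal.span {h}) (t + 1) := by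
    rw [mem_pc]
    refine ⟨hag2, ha.sub ?_⟩
    have := hl2.mul hg2
    rwa [add_comm] at this
  obtain ⟨g1, hg1, hag1⟩ := mem_pc_sup_span hG hh2 h6
  refine ⟨g1, g2, hg1, hg2, ?_⟩
  have e : a - (h * g1 + l * g2) = a - l * g2 - h * g1 := by ring
  rwa [e]

end Pool.Agent.Work.C21
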