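import Pool.Agent.Work.MP_c21e2e_ag_helper46.KSide

namespace Pool.Agent.Work.C21

open MvPolynomial Module IsLocalRing

variable {K : Type*} [Field K] [IsAlgClosed K] {A : ValuationSubring K} {C : Type*} [Fintype C]
  [DecidableEq C] {X : Cfg (ResidueField A) C}
  {I : Ideal (S K)} (hI : GH I) (hX : X.Cont (redI A I))

include hX in
theorem mu_le_one_PP {𝔭 : Ideal (S K)} (hp : IsPP I 𝔭) (c : C) : X.mu (redI A 𝔭) c ≤ 1 :=
  mu_le_one hp.2.1 (fun t => (hf_PP hX hp t).trans (by omega)) c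

include hX in
theorem PP_eq_of_le {𝔭 𝔭' : Ideal (S K)} (hp : IsPP I 𝔭) (hp' : IsPP I 𝔭') (h : 𝔭 ≤ 𝔭') :
    𝔭 = 𝔭' := by
  apply le_antisymm h
  by_contra hc
  obtain ⟨f, k, hf1, hf2, hf3⟩ := hp'.2.1.exists_hom_not_mem hc
  have h1 := Bdd_sup_span hp.1 (LB_K (A := A) (X := X) hp.2.1) (UB_K hX hp.2.1 hp.2.2.1) hf1 hf3
  apply hp'.2.2.2
  refine h1.mono (sup_le h ?_)
  rw [Ideal.span_singleton_le_iff_mem]
  exact hf2

include hX in
theorem PP_eq_of_common {𝔭 𝔭' : Ideal (S K)} (hp : IsPP I 𝔭) (hp' : IsPP I 𝔭') {c : C}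
    (h : redI A 𝔭 ≤ X.P c) (h' : redI A 𝔭' ≤ X.P c) : 𝔭 = 𝔭' := by
  by_contra hne
  have hnle : ¬ 𝔭 ≤ 𝔭' := fun hle => hne (PP_eq_of_le hX hp hp' hle)
  set 𝔟 := 𝔭 ⊓ 𝔭' with h𝔟
  have hG : GH 𝔟 := hp.2.1.inf hp'.2.1
  have hI𝔟 : I ≤ 𝔟 := le_inf hp.2.2.1 hp'.2.2.1
  -- multiplicities
  set e := ∑ c, X.mu (redI A 𝔭) c with he
  set e' := ∑ c, X.mu (redI A 𝔭') c with he'
  set E := ∑ c, X.mu (redI A 𝔟) c with hE
  have hup : ∀ t, hf 𝔟 t ≤ (e + e') * t + 2 := by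
    intro t
    have h1 : hf 𝔟 t ≤ hf 𝔭 t + hf 𝔭' t := hf_inf_le 𝔭 𝔭' t
    have h2 : hf 𝔭 t ≤ e * t + 1 := hf_PP hX hp t
    have h3 : hf 𝔭' t ≤ e' * t + 1 := hf_PP hX hp' t
    rw [add_mul]
    omega
  have hLB : LB 𝔟 (e + e') := by
    obtain ⟨f, k, hf1, hf2, hf3⟩ := hp.2.1.exists_hom_not_mem hnle
    obtain ⟨C1, hC1⟩ := LB_K (A := A) (X := X) hp.2.1
    obtain ⟨C2, hC2⟩ := LB_K (A := A) (X := X) hp'.2.1
    apply LB_of_eventually (C1 + C2 + e' * k) k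
    intro t ht
    obtain ⟨j, rfl⟩ := Nat.exists_eq_add_of_le' ht
    have h1 := hf_lower (𝔞 := 𝔟) (𝔟 := 𝔭) (𝔠 := 𝔭') inf_le_left hf1 hf2 j (by
      intro g _ hg
      exact (hp'.1.mem_or_mem hg.2).resolve_left hf3)
    have h2 : e * (j + k) ≤ hf 𝔭 (j + k) + C1 := hC1 (j + k)
    have h3 : e' * j ≤ hf 𝔭' j + C2 := hC2 j
    have h4 : (e + e') * (j + k) = e * (j + k) + e' * j + e' * k := by ring
    omega
  have h1 : e + e' ≤ E := le_of_LB_UB hLB (UB_K hX hG hI𝔟)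
  have h2 : E ≤ e + e' := le_of_LB_UB (LB_K (A := A) (X := X) hG) ⟨2, hup⟩
  have h3 : E = e + e' := le_antisymm h2 h1
  have h4 : ∀ c, X.mu (redI A 𝔟) c ≤ 1 := by
    apply mu_le_one hG
    intro t
    rw [← hE, h3]
    exact hup t
  -- pointwise comparison
  have h5 : ∀ c, X.mu (redI A 𝔟) c ≤ X.mu (redI A 𝔭) c + X.mu (redI A 𝔭') c := by
    intro c
    by_cases h0 : redI A 𝔟 ≤ X.P c
    · have h6 : redI A 𝔭 * redI A 𝔭' ≤ X.P c :=
        (redI_mul_le A _ _).trans ((redI_mono A Ideal.mul_le_inf).trans h0)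
      have h7 := h4 c
      rcases ((X.prime c).mul_le).mp h6 with h8 | h8
      · have := (X.mu_pos_iff _ c).mpr h8
        omega
      · have := (X.mu_pos_iff _ c).mpr h8
        omega
    · have : X.mu (redI A 𝔟) c = 0 := by
        by_contra hc
        exact h0 ((X.mu_pos_iff _ c).mp (Nat.pos_of_ne_zero hc))
      omega
  have h6 : X.mu (redI A 𝔟) c < X.mu (redI A 𝔭) c + X.mu (redI A 𝔭') c := by
    have h7 := (X.mu_pos_iff _ c).mpr h
    have h8 := (X.mu_pos_iff _ c).mpr h'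
    have h9 := h4 c
    omega
  have h7 : E < ∑ c, (X.mu (redI A 𝔭) c + X.mu (redI A 𝔭') c) :=
    Finset.sum_lt_sum (fun c _ => h5 c) ⟨c, Finset.mem_univ c, h6⟩
  rw [Finset.sum_add_distrib] at h7
  omega

include hX hI in
theorem PP_minimal {𝔭 : Ideal (S K)} (hp : IsPP I 𝔭) : 𝔭 ∈ I.minimalPrimes := by
  have := hp.1
  obtain ⟨𝔮, hq, hq𝔭⟩ := Ideal.exists_minimalPrimes_le hp.2.2.1
  have h1 : IsPP I 𝔮 := ⟨hq.1.1, hI.minimalPrimes hq, hq.1.2, fun hb => hp.2.2.2 (hb.mono hq𝔭)⟩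
  have h2 := PP_eq_of_le hX h1 hp hq𝔭
  rwa [← h2]

include hX in
theorem PP_exists_c {𝔭 : Ideal (S K)} (hp : IsPP I 𝔭) : ∃ c, redI A 𝔭 ≤ X.P c := by
  by_contra hc
  push Not at hc
  have h1 : ∑ c, X.mu (redI A 𝔭) c = 0 := by
    apply Finset.sum_eq_zero
    intro c _
    by_contra h0
    exact hc c ((X.mu_pos_iff _ c).mp (Nat.pos_of_ne_zero h0))
  have h2 := UB_K hX hp.2.1 hp.2.2.1
  rw [h1, UB_zero_iff] at h2
  exact hp.2.2.2 h2

include hX in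
theorem PP_finite : {𝔭 | IsPP I 𝔭}.Finite := by
  classical
  apply Set.Finite.of_finite_image (f := fun 𝔭 => Finset.univ.filter fun c => redI A 𝔭 ≤ X.P c)
    (Set.toFinite _)
  intro 𝔭 hp 𝔭' hp' heq
  obtain ⟨c, hc⟩ := PP_exists_c hX hp
  have h1 : c ∈ Finset.univ.filter fun c => redI A 𝔭 ≤ X.P c := by simp [hc]
  have h2 : (Finset.univ.filter fun c => redI A 𝔭 ≤ X.P c) =
    Finset.univ.filter fun c => redI A 𝔭' ≤ X.P c := heq
  rw [h2, Finset.mem_filter] at h1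
  exact PP_eq_of_common hX hp hp' hc h1.2

include hX hI in
theorem QQ_supp {𝔭 : Ideal (S K)} (hp : IsPP I 𝔭) {c : C} (h : redI A (QQ I 𝔭) ≤ X.P c) :
    redI A 𝔭 ≤ X.P c := by
  obtain ⟨N, hN⟩ := exists_pow_le_QQ (PP_minimal hI hX hp) hI
  have h1 : redI A 𝔭 ^ N ≤ X.P c := (redI_pow_le A _ _).trans ((redI_mono A hN).trans h)
  exact (X.prime c).le_of_pow_le h1

include hI in
theorem exists_QQ_bound (F : Finset (Ideal (S K))) (hF : ∀ 𝔭, 𝔭 ∈ F ↔ IsPP I 𝔭) :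
    ∃ D, ∀ t, hf I t ≤ hf (⨅ 𝔭 ∈ F, QQ I 𝔭) t + D := by
  set I' : Ideal (S K) := ⨅ 𝔭 ∈ F, QQ I 𝔭 with hI'
  have hG : GH I' := GH.iInf fun 𝔭 => GH.iInf fun h => GH_QQ ((hF 𝔭).mp h).1 hI
  have hle : I ≤ I' := le_iInf fun 𝔭 => le_iInf fun h => le_QQ ((hF 𝔭).mp h).1
  apply UB_of_colon hle hG
  by_contra hb
  obtain ⟨𝔭, h1, h2, h3, h4⟩ := exists_prime_not_Bdd (GH_colon hI hG) hb
  have hp : IsPP I 𝔭 := ⟨h1, h2, (le_colon I I').trans h3, h4⟩
  obtain ⟨s, k, _, hs2, hs3⟩ := exists_s (I := I) h1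
  apply hs2
  apply h3
  intro x hx
  apply hs3
  have : I' ≤ QQ I 𝔭 := iInf_le_of_le 𝔭 (iInf_le _ ((hF 𝔭).mpr hp))
  exact this hx

include hX hI in
/-- Every component is reached exactly once, with full multiplicity. -/
theorem exists_PP (hLB : LB I 26) (c : C) : ∃ 𝔭, IsPP I 𝔭 ∧ redI A 𝔭 ≤ X.P c ∧
    X.mu (redI A (QQ I 𝔭)) c = if X.dbl c = true then 2 else 1 := by
  classical
  set F := (PP_finite hX).toFinset with hF'
  have hF : ∀ 𝔭, 𝔭 ∈ F ↔ IsPP I 𝔭 := fun 𝔭 => by rw [hF', Set.Finite.mem_toFinset]; rfl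
  obtain ⟨D, hD⟩ := exists_QQ_bound hI F hF
  have h1 : LB (⨅ 𝔭 ∈ F, QQ I 𝔭) 26 := by
    obtain ⟨E, hE⟩ := hLB
    exact ⟨E + D, fun t => by have := hE t; have := hD t; omega⟩
  have h2 : UB (⨅ 𝔭 ∈ F, QQ I 𝔭) (∑ 𝔭 ∈ F, ∑ c, X.mu (redI A (QQ I 𝔭)) c) := by
    apply UB_iInf
    intro 𝔭 hp
    have hp' := (hF 𝔭).mp hp
    exact UB_K hX (GH_QQ hp'.1 hI) (le_QQ hp'.1)
  have h3 := le_of_LB_UB h1 h2
  rw [Finset.sum_comm, ← X.hsum] at h3
  -- for each `c` at most one prime contributes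
  have h4 : ∀ c, ∑ 𝔭 ∈ F, X.mu (redI A (QQ I 𝔭)) c ≤ if X.dbl c = true then 2 else 1 := by
    intro c
    by_cases hz : ∀ 𝔭 ∈ F, X.mu (redI A (QQ I 𝔭)) c = 0
    · rw [Finset.sum_eq_zero hz]; exact Nat.zero_le _
    · push Not at hz
      obtain ⟨𝔭, hp, hne⟩ := hz
      rw [Finset.sum_eq_single_of_mem 𝔭 hp]
      · exact X.mu_le _ c
      · intro 𝔮 hq hqp
        by_contra h0
        apply hqp
        have h5 := QQ_supp hI hX ((hF 𝔭).mp hp) ((X.mu_pos_iff _ c).mp (Nat.pos_of_ne_zero hne))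
        have h6 := QQ_supp hI hX ((hF 𝔮).mp hq) ((X.mu_pos_iff _ c).mp (Nat.pos_of_ne_zero h0))
        exact PP_eq_of_common hX ((hF 𝔮).mp hq) ((hF 𝔭).mp hp) h6 h5
  have h5 : ∑ 𝔭 ∈ F, X.mu (redI A (QQ I 𝔭)) c = if X.dbl c = true then 2 else 1 := by
    apply le_antisymm (h4 c)
    by_contra hlt
    push Not at hlt
    have := Finset.sum_lt_sum (fun c _ => h4 c) ⟨c, Finset.mem_univ c, hlt⟩
    omega
  have h6 : ∃ 𝔭 ∈ F, X.mu (redI A (QQ I 𝔭)) c ≠ 0 := by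
    by_contra hz
    push Not at hz
    rw [Finset.sum_eq_zero hz] at h5
    split_ifs at h5
  obtain ⟨𝔭, hp, hne⟩ := h6
  have h7 := QQ_supp hI hX ((hF 𝔭).mp hp) ((X.mu_pos_iff _ c).mp (Nat.pos_of_ne_zero hne))
  refine ⟨𝔭, (hF 𝔭).mp hp, h7, ?_⟩
  rw [← h5, Finset.sum_eq_single_of_mem 𝔭 hp]
  intro 𝔮 hq hqp
  by_contra h0
  apply hqp
  have h6 := QQ_supp hI hX ((hF 𝔮).mp hq) ((X.mu_pos_iff _ c).mp (Nat.pos_of_ne_zero h0))
  exact PP_eq_of_common hX ((hF 𝔮).mp hq) ((hF 𝔭).mp hp) h6 h7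

include hX hI in
/-- The multiplicity of the local component is full on the support of the prime. -/
theorem mu_QQ (hLB : LB I 26) {𝔭 : Ideal (S K)} (hp : IsPP I 𝔭) {c : C} (h : redI A 𝔭 ≤ X.P c) :
    X.mu (redI A (QQ I 𝔭)) c = if X.dbl c = true then 2 else 1 := by
  obtain ⟨𝔮, h1, h2, h3⟩ := exists_PP hI hX hLB c
  rwa [← PP_eq_of_common hX hp h1 h h2] at h3

include hX in
theorem mu_PP {𝔭 : Ideal (S K)} (hp : IsPP I 𝔭) (c : C) [Decidable (redI A 𝔭 ≤ X.P c)] :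
    X.mu (redI A 𝔭) c = if redI A 𝔭 ≤ X.P c then 1 else 0 := by
  have h1 := mu_le_one_PP hX hp c
  split_ifs with h
  · have := (X.mu_pos_iff _ c).mpr h
    omega
  · by_contra h0
    exact h ((X.mu_pos_iff _ c).mp (Nat.pos_of_ne_zero h0))

include hX hI in
theorem QQ_ne_iff (hLB : LB I 26) {𝔭 : Ideal (S K)} (hp : IsPP I 𝔭) {c : C}
    (h : redI A 𝔭 ≤ X.P c) : (X.dbl c = true ↔ ¬ 𝔭 ≤ QQ I 𝔭) := by
  classical
  constructor
  · intro hd hle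
    have h1 : QQ I 𝔭 = 𝔭 := le_antisymm (QQ_le hp.1 hp.2.2.1) hle
    have h2 := mu_QQ hI hX hLB hp h
    rw [h1, if_pos hd] at h2
    have h3 := mu_le_one_PP hX hp c
    omega
  · intro hnle
    obtain ⟨f, k, hf1, hf2, hf3⟩ := hp.2.1.exists_hom_not_mem hnle
    -- lower bound
    have h1 : LB (QQ I 𝔭) (2 * ∑ c, X.mu (redI A 𝔭) c) := by
      obtain ⟨D, hD⟩ := LB_K (A := A) (X := X) hp.2.1
      apply LB_of_eventually (2 * D + (∑ c, X.mu (redI A 𝔭) c) * k) k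
      intro t ht
      obtain ⟨j, rfl⟩ := Nat.exists_eq_add_of_le' ht
      have h2 := hf_QQ_lower hp.1 (QQ_le hp.1 hp.2.2.1) hf1 hf2 hf3 j
      have h3 := hD j
      have h4 := hD (j + k)
      have h5 : 2 * (∑ c, X.mu (redI A 𝔭) c) * (j + k) = (∑ c, X.mu (redI A 𝔭) c) * (j + k) +
        (∑ c, X.mu (redI A 𝔭) c) * j + (∑ c, X.mu (redI A 𝔭) c) * k := by ring
      omega
    have h2 := le_of_LB_UB h1 (UB_K hX (GH_QQ hp.1 hI) (le_QQ hp.1))
    by_contra hd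
    have h3 : ∑ c, X.mu (redI A (QQ I 𝔭)) c < ∑ c, 2 * X.mu (redI A 𝔭) c := by
      apply Finset.sum_lt_sum
      · intro c' _
        by_cases h' : redI A 𝔭 ≤ X.P c'
        · rw [mu_PP hX hp c', if_pos h', mu_QQ hI hX hLB hp h']
          split_ifs <;> omega
        · have : X.mu (redI A (QQ I 𝔭)) c' = 0 := by
            by_contra h0
            exact h' (QQ_supp hI hX hp ((X.mu_pos_iff _ c').mp (Nat.pos_of_ne_zero h0)))
          omega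
      · refine ⟨c, Finset.mem_univ c, ?_⟩
        rw [mu_PP hX hp c, if_pos h, mu_QQ hI hX hLB hp h, if_neg hd]
        omega
    rw [← Finset.mul_sum] at h3
    omega

include hX hI in
/-- The support of a relevant prime is a single line. -/
theorem PP_unique (hLB : LB I 26) {𝔭 : Ideal (S K)} (hp : IsPP I 𝔭) {c c' : C}
    (h : redI A 𝔭 ≤ X.P c) (h' : redI A 𝔭 ≤ X.P c') : c = c' := by
  classical
  by_contra hne
  set Y := Finset.univ.filter fun c => redI A 𝔭 ≤ X.P c with hY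
  have hY' : ∀ c'' ∈ Y, X.dbl c'' = X.dbl c := by
    intro c'' hc''
    rw [hY, Finset.mem_filter] at hc''
    have h1 := QQ_ne_iff hI hX hLB hp h
    have h2 := QQ_ne_iff hI hX hLB hp hc''.2
    rw [Bool.eq_iff_iff]
    exact h2.trans h1.symm
  obtain ⟨T, hT⟩ := X.exists_hf_iInf_eq X.P X.QP X.gP _ Y hY'
  have h1 := hT T le_rfl
  have h2 : ∑ c ∈ Y, hf (X.P c) T = Y.card * (T + 1) := by
    rw [Finset.sum_congr rfl fun c _ => X.hfP c T, Finset.sum_const, smul_eq_mul]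
  have h3 : redI A 𝔭 ≤ ⨅ c ∈ Y, X.P c := by
    refine le_iInf fun c => le_iInf fun hc => ?_
    rw [hY, Finset.mem_filter] at hc
    exact hc.2
  have h4 := hf_anti h3 T
  rw [hf_redI A hp.2.1] at h4
  have h5 := hf_PP hX hp T
  have h6 : ∑ c, X.mu (redI A 𝔭) c = Y.card := by
    rw [Finset.sum_congr rfl fun c _ => mu_PP hX hp c, Finset.sum_boole, hY]
    simp
  rw [h6] at h5
  have h7 : 2 ≤ Y.card := by
    have : ({c, c'} : Finset C) ⊆ Y := by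
      intro x hx
      rw [Finset.mem_insert, Finset.mem_singleton] at hx
      rw [hY, Finset.mem_filter]
      rcases hx with rfl | rfl
      · exact ⟨Finset.mem_univ _, h⟩
      · exact ⟨Finset.mem_univ _, h'⟩
    have := Finset.card_le_card this
    rwa [Finset.card_pair hne] at this
  have h8 : Y.card * (T + 1) = Y.card * T + Y.card := by ring
  omega

include hX hI in
theorem hf_PP_eq (hLB : LB I 26) {𝔭 : Ideal (S K)} (hp : IsPP I 𝔭) {c : C}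
    (h : redI A 𝔭 ≤ X.P c) (t : ℕ) : hf 𝔭 t = t + 1 := by
  classical
  apply le_antisymm
  · have h1 := hf_PP hX hp t
    have h2 : ∑ c, X.mu (redI A 𝔭) c = 1 := by
      rw [Finset.sum_congr rfl fun c _ => mu_PP hX hp c]
      rw [Finset.sum_eq_single_of_mem c (Finset.mem_univ c)]
      · rw [if_pos h]
      · intro c' _ hne
        rw [if_neg]
        intro h'
        exact hne (PP_unique hI hX hLB hp h' h)
    rwa [h2, one_mul] at h1
  · rw [← hf_redI A hp.2.1, ← X.hfP c t]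
    exact hf_anti h t

include hX hI in
theorem redI_PP_eq (hLB : LB I 26) {𝔭 : Ideal (S K)} (hp : IsPP I 𝔭) {c : C}
    (h : redI A 𝔭 ≤ X.P c) : redI A 𝔭 = X.P c := by
  apply le_antisymm h
  apply (X.gP c).le_of_pc_le
  intro t
  rw [pc_eq_of_le_of_hf h]
  rw [hf_redI A hp.2.1, hf_PP_eq hI hX hLB hp h, X.hfP]

include hX hI in
/-- The square of the prime is contained in the local component. -/
theorem sq_le_QQ (hLB : LB I 26) {𝔭 : Ideal (S K)} (hp : IsPP I 𝔭) {c : C}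
    (h : redI A 𝔭 ≤ X.P c) : 𝔭 ^ 2 ≤ QQ I 𝔭 := by
  classical
  by_contra hnle
  have hnle' : ¬ 𝔭 ≤ QQ I 𝔭 := fun hle => hnle ((Ideal.pow_le_self two_ne_zero).trans hle)
  set 𝔯 := QQ I 𝔭 ⊔ 𝔭 ^ 2 with h𝔯
  have hG𝔯 : GH 𝔯 := (GH_QQ hp.1 hI).sup (hp.2.1.pow 2)
  have h𝔯𝔭 : 𝔯 ≤ 𝔭 := sup_le (QQ_le hp.1 hp.2.2.1) (Ideal.pow_le_self two_ne_zero)
  -- first step
  obtain ⟨f, k, hf1, hf2, hf3⟩ := (hp.2.1.pow 2).exists_hom_not_mem hnle
  have h1 := hf_QQ_lower (I := I) hp.1 (le_sup_left : QQ I 𝔭 ≤ 𝔯) hf1 (Ideal.mem_sup_right hf2) hf3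
  -- second step
  have h2 : ¬ 𝔭 ≤ QQ 𝔯 𝔭 := by
    intro hle
    obtain ⟨s, j, hs1, hs2, hs3⟩ := exists_s (I := 𝔯) hp.1
    obtain ⟨N, hN⟩ := exists_pow_le_QQ (PP_minimal hI hX hp) hI
    have h3 : ∀ n, ∀ x ∈ 𝔭, s ^ n * x ∈ QQ I 𝔭 ⊔ 𝔭 ^ (n + 1) := by
      have key : ∀ n, ∀ x ∈ 𝔭 ^ (n + 1), s * x ∈ QQ I 𝔭 ⊔ 𝔭 ^ (n + 2) := by
        intro n x hx
        rw [pow_succ] at hx
        induction hx using Submodule.mul_induction_on' with
        | mem_mul_mem a ha b hb =>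
          have h4 := hs3 b (hle hb)
          obtain ⟨q, hq, r, hr, hqr⟩ := Submodule.mem_sup.mp h4
          have e : s * (a * b) = a * q + a * r := by rw [← mul_add, hqr]; ring
          rw [e]
          apply Submodule.add_mem_sup
          · exact Ideal.mul_mem_left _ _ hq
          · have e2 : n + 2 = n + 2 := rfl
            rw [pow_add]
            exact Ideal.mul_mem_mul ha hr
        | add a _ b _ ha hb => rw [mul_add]; exact add_mem ha hb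
      intro n
      induction n with
      | zero => intro x hx; rw [pow_zero, one_mul, zero_add, pow_one]; exact Ideal.mem_sup_right hx
      | succ n ih =>
        intro x hx
        obtain ⟨q, hq, r, hr, hqr⟩ := Submodule.mem_sup.mp (ih x hx)
        have e : s ^ (n + 1) * x = s * q + s * r := by rw [← mul_add, hqr]; ring
        rw [e]
        exact add_mem (Ideal.mem_sup_left (Ideal.mul_mem_left _ _ hq)) (key n r hr)
    apply hnle'
    intro x hx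
    have h4 : s ^ N * x ∈ QQ I 𝔭 := by
      have h5 := h3 N x hx
      have h6 : QQ I 𝔭 ⊔ 𝔭 ^ (N + 1) ≤ QQ I 𝔭 :=
        sup_le le_rfl ((Ideal.pow_le_pow_right (Nat.le_succ N)).trans hN)
      exact h6 h5
    exact QQ_prim hp.1 (hs1.pow N) (fun hm => hs2 (hp.1.mem_of_pow_mem _ hm)) h4
  obtain ⟨f', k', hf1', hf2', hf3'⟩ := hp.2.1.exists_hom_not_mem h2
  have h3 := hf_QQ_lower hp.1 (QQ_le hp.1 h𝔯𝔭) hf1' hf2' hf3'
  -- conclusion
  have h4 : LB (QQ I 𝔭) 3 := by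
    apply LB_of_eventually (k + k') (k + k')
    intro t ht
    obtain ⟨a, ha⟩ := Nat.exists_eq_add_of_le' (show k ≤ t by omega)
    obtain ⟨b, hb⟩ := Nat.exists_eq_add_of_le' (show k' ≤ t by omega)
    have h5 := h1 a
    have h6 := h3 b
    rw [← ha] at h5
    rw [← hb] at h6
    rw [hf_PP_eq hI hX hLB hp h] at h5 h6
    rw [hf_PP_eq hI hX hLB hp h] at h6
    have h7 : hf (QQ 𝔯 𝔭) t ≤ hf 𝔯 t := hf_anti (le_QQ hp.1) t
    rw [← h𝔯] at h5
    omega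
  have h5 : UB (QQ I 𝔭) (∑ c', X.mu (redI A (QQ I 𝔭)) c') :=
    UB_K hX (GH_QQ hp.1 hI) (le_QQ hp.1)
  have h6 := le_of_LB_UB h4 h5
  have h7 : ∑ c', X.mu (redI A (QQ I 𝔭)) c' = X.mu (redI A (QQ I 𝔭)) c := by
    rw [Finset.sum_eq_single_of_mem c (Finset.mem_univ c)]
    intro c' _ hne
    by_contra h0
    exact hne (PP_unique hI hX hLB hp
      (QQ_supp hI hX hp ((X.mu_pos_iff _ c').mp (Nat.pos_of_ne_zero h0))) h)
  rw [h7] at h6
  have h8 := X.mu_le (redI A (QQ I 𝔭)) c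
  split_ifs at h8 <;> omega

include hX hI in
theorem redI_QQ_le (hLB : LB I 26) {𝔭 : Ideal (S K)} (hp : IsPP I 𝔭) {c : C}
    (h : redI A 𝔭 ≤ X.P c) : redI A (QQ I 𝔭) ≤ X.Q c := by
  have h1 := mu_QQ hI hX hLB hp h
  rcases X.kk_cases (redI A (QQ I 𝔭)) c with ⟨h2, _, _⟩ | ⟨h2, h3, _, h4⟩ | ⟨_, _, _, h4⟩
  · exact h2
  · by_cases hd : X.dbl c = true
    · rw [h4, if_pos hd] at h1; omega
    · rw [Bool.not_eq_true] at hd
      rw [X.QeP c hd]; exact h3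
  · rw [h4] at h1
    split_ifs at h1

end Pool.Agent.Work.C21
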