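import Pool.Agent.Work.MP_c21e2e_ag_helper46.Tang
import Pool.Agent.Work.MP_c21e2e_ag_helper46.FEight

namespace Pool.Agent.Work.C21

open MvPolynomial Module

variable {κ : Type*} [Field κ]

theorem C_mul_hom {σ : Type*} {p : MvPolynomial σ κ} {n : ℕ} (c : κ) (h : p.IsHomogeneous n) :
    (C c * p).IsHomogeneous n := by
  have := (isHomogeneous_C σ c).mul h
  rwa [zero_add] at this

/-- The line `x₂ = x₃ = 0`. -/
noncomputable def lineLa (κ : Type*) [Field κ] : LineData κ where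
  E := ![X 0, X 1, 0, 0]
  a := X 0
  b := X 1
  hE := by
    intro i
    fin_cases i
    · exact isHomogeneous_X _ _
    · exact isHomogeneous_X _ _
    · exact isHomogeneous_zero _ _ _
    · exact isHomogeneous_zero _ _ _
  ha := isHomogeneous_X _ _
  hb := isHomogeneous_X _ _
  ea := by rw [aeval_X]; rfl
  eb := by rw [aeval_X]; rfl

/-- The line `x₀ = x₁ = 0`. -/
noncomputable def lineLb (κ : Type*) [Field κ] : LineData κ where
  E := ![0, 0, X 0, X 1]
  a := X 2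
  b := X 3
  hE := by
    intro i
    fin_cases i
    · exact isHomogeneous_zero _ _ _
    · exact isHomogeneous_zero _ _ _
    · exact isHomogeneous_X _ _
    · exact isHomogeneous_X _ _
  ha := isHomogeneous_X _ _
  hb := isHomogeneous_X _ _
  ea := by rw [aeval_X]; rfl
  eb := by rw [aeval_X]; rfl

/-- The line `x₂ = l (a x₀ + b x₁)`, `x₃ = l x₁`. -/
noncomputable def lineN (l a b : κ) : LineData κ where
  E := ![X 0, X 1, C l * (C a * X 0 + C b * X 1), C l * X 1]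
  a := X 0
  b := X 1
  hE := by
    intro i
    fin_cases i
    · exact isHomogeneous_X _ _
    · exact isHomogeneous_X _ _
    · exact C_mul_hom _ ((C_mul_hom _ (isHomogeneous_X _ _)).add (C_mul_hom _ (isHomogeneous_X _ _)))
    · exact C_mul_hom _ (isHomogeneous_X _ _)
  ha := isHomogeneous_X _ _
  hb := isHomogeneous_X _ _
  ea := by rw [aeval_X]; rfl
  eb := by rw [aeval_X]; rfl

/-- The line `x₀ = w x₁`, `x₂ = w³ x₃`. -/
noncomputable def lineM (w : κ) : LineData κ where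
  E := ![C w * X 0, X 0, C (w ^ 3) * X 1, X 1]
  a := X 1
  b := X 3
  hE := by
    intro i
    fin_cases i
    · exact C_mul_hom _ (isHomogeneous_X _ _)
    · exact isHomogeneous_X _ _
    · exact C_mul_hom _ (isHomogeneous_X _ _)
    · exact isHomogeneous_X _ _
  ha := isHomogeneous_X _ _
  hb := isHomogeneous_X _ _
  ea := by rw [aeval_X]; rfl
  eb := by rw [aeval_X]; rfl

/-- The line `x₁ = x₃ = 0`. -/
noncomputable def lineMi (κ : Type*) [Field κ] : LineData κ where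
  E := ![X 0, 0, X 1, 0]
  a := X 0
  b := X 2
  hE := by
    intro i
    fin_cases i
    · exact isHomogeneous_X _ _
    · exact isHomogeneous_zero _ _ _
    · exact isHomogeneous_X _ _
    · exact isHomogeneous_zero _ _ _
  ha := isHomogeneous_X _ _
  hb := isHomogeneous_X _ _
  ea := by rw [aeval_X]; rfl
  eb := by rw [aeval_X]; rfl

/-- The first double line. -/
noncomputable def dLa (κ : Type*) [Field κ] (n : ℕ) : DoubleData κ where
  toLineData := lineLa κ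
  w := ![0, 0, X 0 ^ n, X 1 ^ n]
  n := n
  l1 := X 2
  l2 := X 3
  hw := by
    intro i
    fin_cases i
    · exact isHomogeneous_zero _ _ _
    · exact isHomogeneous_zero _ _ _
    · exact isHomogeneous_X_pow _ _
    · exact isHomogeneous_X_pow _ _
  h1 := isHomogeneous_X _ _
  h2 := isHomogeneous_X _ _
  e1 := by rw [aeval_X]; rfl
  e2 := by rw [aeval_X]; rfl
  d1 := by
    rw [Fin.sum_univ_four]
    simp [pderiv_X, lineLa]
  d2 := by
    rw [Fin.sum_univ_four]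
    simp [pderiv_X, lineLa]

/-- The second double line. -/
noncomputable def dLb (κ : Type*) [Field κ] (n : ℕ) : DoubleData κ where
  toLineData := lineLb κ
  w := ![X 0 ^ n, X 1 ^ n, 0, 0]
  n := n
  l1 := X 0
  l2 := X 1
  hw := by
    intro i
    fin_cases i
    · exact isHomogeneous_X_pow _ _
    · exact isHomogeneous_X_pow _ _
    · exact isHomogeneous_zero _ _ _
    · exact isHomogeneous_zero _ _ _
  h1 := isHomogeneous_X _ _
  h2 := isHomogeneous_X _ _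
  e1 := by rw [aeval_X]; rfl
  e2 := by rw [aeval_X]; rfl
  d1 := by
    rw [Fin.sum_univ_four]
    simp [pderiv_X, lineLb]
  d2 := by
    rw [Fin.sum_univ_four]
    simp [pderiv_X, lineLb]

/-- The other double lines. -/
noncomputable def dN (l a b : κ) (n : ℕ) : DoubleData κ where
  toLineData := lineN l a b
  w := ![0, 0, X 0 ^ n, X 1 ^ n]
  n := n
  l1 := X 2 - C l * (C a * X 0 + C b * X 1)
  l2 := X 3 - C l * X 1
  hw := by
    intro i
    fin_cases i
    · exact isHomogeneous_zero _ _ _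
    · exact isHomogeneous_zero _ _ _
    · exact isHomogeneous_X_pow _ _
    · exact isHomogeneous_X_pow _ _
  h1 := (isHomogeneous_X _ _).sub (C_mul_hom _ ((C_mul_hom _ (isHomogeneous_X _ _)).add
    (C_mul_hom _ (isHomogeneous_X _ _))))
  h2 := (isHomogeneous_X _ _).sub (C_mul_hom _ (isHomogeneous_X _ _))
  e1 := by
    simp only [map_sub, map_mul, map_add, aeval_X, aeval_C, lineN]
    simp [algebraMap_eq]
  e2 := by
    simp only [map_sub, map_mul, aeval_X, aeval_C, lineN]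
    simp [algebraMap_eq]
  d1 := by
    rw [Fin.sum_univ_four]
    simp [pderiv_X, lineN]
  d2 := by
    rw [Fin.sum_univ_four]
    simp [pderiv_X, lineN]

/-! ### Generators -/

theorem La_X2 : (X 2 : S κ) ∈ (lineLa κ).P := by
  rw [LineData.mem_P, LineData.ev, aeval_X]; rfl

theorem La_X3 : (X 3 : S κ) ∈ (lineLa κ).P := by
  rw [LineData.mem_P, LineData.ev, aeval_X]; rfl

theorem Lb_X0 : (X 0 : S κ) ∈ (lineLb κ).P := by
  rw [LineData.mem_P, LineData.ev, aeval_X]; rfl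

theorem Lb_X1 : (X 1 : S κ) ∈ (lineLb κ).P := by
  rw [LineData.mem_P, LineData.ev, aeval_X]; rfl

theorem N_l1 (l a b : κ) : (X 2 - C l * (C a * X 0 + C b * X 1) : S κ) ∈ (lineN l a b).P := by
  rw [LineData.mem_P]; exact (dN l a b 0).e1

theorem N_l2 (l a b : κ) : (X 3 - C l * X 1 : S κ) ∈ (lineN l a b).P := by
  rw [LineData.mem_P]; exact (dN l a b 0).e2

theorem M_l1 (w : κ) : (X 0 - C w * X 1 : S κ) ∈ (lineM w).P := by
  rw [LineData.mem_P, LineData.ev]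
  simp only [map_sub, map_mul, aeval_X, aeval_C, lineM]
  simp [algebraMap_eq]

theorem M_l2 (w : κ) : (X 2 - C (w ^ 3) * X 3 : S κ) ∈ (lineM w).P := by
  rw [LineData.mem_P, LineData.ev]
  simp only [map_sub, map_mul, aeval_X, aeval_C, lineM]
  simp [algebraMap_eq]

theorem Mi_X1 : (X 1 : S κ) ∈ (lineMi κ).P := by
  rw [LineData.mem_P, LineData.ev, aeval_X]; rfl

theorem Mi_X3 : (X 3 : S κ) ∈ (lineMi κ).P := by
  rw [LineData.mem_P, LineData.ev, aeval_X]; rfl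

/-! ### Sums -/

theorem unit_mem {J : Ideal (S κ)} {c : κ} {p : S κ} (hc : c ≠ 0) (h : C c * p ∈ J) : p ∈ J := by
  have h1 := J.mul_mem_left (C c⁻¹) h
  rw [← mul_assoc, ← C_mul, inv_mul_cancel₀ hc, C_1, one_mul] at h1
  exact h1

theorem mm_le_of {J : Ideal (S κ)} (h0 : (X 0 : S κ) ∈ J) (h1 : (X 1 : S κ) ∈ J)
    (h2 : (X 2 : S κ) ∈ J) (h3 : (X 3 : S κ) ∈ J) : mm κ ≤ J := by
  rw [mm_le_iff]
  intro i
  fin_cases i
  · exact h0
  · exact h1
  · exact h2
  · exact h3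

theorem skew_La_Lb : mm κ ≤ (lineLa κ).P ⊔ (lineLb κ).P :=
  mm_le_of (Ideal.mem_sup_right Lb_X0) (Ideal.mem_sup_right Lb_X1) (Ideal.mem_sup_left La_X2)
    (Ideal.mem_sup_left La_X3)

theorem skew_La_N {l a b : κ} (hl : l ≠ 0) (ha : a ≠ 0) :
    mm κ ≤ (lineLa κ).P ⊔ (lineN l a b).P := by
  set J := (lineLa κ).P ⊔ (lineN l a b).P
  have x2 : (X 2 : S κ) ∈ J := Ideal.mem_sup_left La_X2
  have x3 : (X 3 : S κ) ∈ J := Ideal.mem_sup_left La_X3
  have n1 : (X 2 - C l * (C a * X 0 + C b * X 1) : S κ) ∈ J := Ideal.mem_sup_right (N_l1 l a b)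
  have n2 : (X 3 - C l * X 1 : S κ) ∈ J := Ideal.mem_sup_right (N_l2 l a b)
  have x1 : (X 1 : S κ) ∈ J := by
    apply unit_mem hl
    have e : (C l * X 1 : S κ) = X 3 - (X 3 - C l * X 1) := by ring
    rw [e]; exact sub_mem x3 n2
  have x0 : (X 0 : S κ) ∈ J := by
    apply unit_mem (mul_ne_zero hl ha)
    have e : (C (l * a) * X 0 : S κ) = X 2 - (X 2 - C l * (C a * X 0 + C b * X 1)) -
      C (l * b) * X 1 := by rw [C_mul, C_mul]; ring
    rw [e]; exact sub_mem (sub_mem x2 n1) (J.mul_mem_left _ x1)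
  exact mm_le_of x0 x1 x2 x3

theorem skew_Lb_N {l a b : κ} : mm κ ≤ (lineLb κ).P ⊔ (lineN l a b).P := by
  set J := (lineLb κ).P ⊔ (lineN l a b).P
  have x0 : (X 0 : S κ) ∈ J := Ideal.mem_sup_left Lb_X0
  have x1 : (X 1 : S κ) ∈ J := Ideal.mem_sup_left Lb_X1
  have n1 : (X 2 - C l * (C a * X 0 + C b * X 1) : S κ) ∈ J := Ideal.mem_sup_right (N_l1 l a b)
  have n2 : (X 3 - C l * X 1 : S κ) ∈ J := Ideal.mem_sup_right (N_l2 l a b)
  have x3 : (X 3 : S κ) ∈ J := by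
    have e : (X 3 : S κ) = (X 3 - C l * X 1) + C l * X 1 := by ring
    rw [e]; exact add_mem n2 (J.mul_mem_left _ x1)
  have x2 : (X 2 : S κ) ∈ J := by
    have e : (X 2 : S κ) = (X 2 - C l * (C a * X 0 + C b * X 1)) + C l * (C a * X 0 + C b * X 1) := by
      ring
    rw [e]
    exact add_mem n1 (J.mul_mem_left _ (add_mem (J.mul_mem_left _ x0) (J.mul_mem_left _ x1)))
  exact mm_le_of x0 x1 x2 x3

theorem skew_N_N {l a b l' a' b' : κ} (h1 : l ≠ l') (h2 : l * a ≠ l' * a') :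
    mm κ ≤ (lineN l a b).P ⊔ (lineN l' a' b').P := by
  set J := (lineN l a b).P ⊔ (lineN l' a' b').P
  have n1 : (X 2 - C l * (C a * X 0 + C b * X 1) : S κ) ∈ J := Ideal.mem_sup_left (N_l1 l a b)
  have n2 : (X 3 - C l * X 1 : S κ) ∈ J := Ideal.mem_sup_left (N_l2 l a b)
  have m1 : (X 2 - C l' * (C a' * X 0 + C b' * X 1) : S κ) ∈ J :=
    Ideal.mem_sup_right (N_l1 l' a' b')
  have m2 : (X 3 - C l' * X 1 : S κ) ∈ J := Ideal.mem_sup_right (N_l2 l' a' b')
  have x1 : (X 1 : S κ) ∈ J := by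
    apply unit_mem (sub_ne_zero.mpr h1)
    have e : (C (l - l') * X 1 : S κ) = (X 3 - C l' * X 1) - (X 3 - C l * X 1) := by
      rw [C_sub]; ring
    rw [e]; exact sub_mem m2 n2
  have x3 : (X 3 : S κ) ∈ J := by
    have e : (X 3 : S κ) = (X 3 - C l * X 1) + C l * X 1 := by ring
    rw [e]; exact add_mem n2 (J.mul_mem_left _ x1)
  have x0 : (X 0 : S κ) ∈ J := by
    apply unit_mem (sub_ne_zero.mpr h2)
    have e : (C (l * a - l' * a') * X 0 : S κ) = (X 2 - C l' * (C a' * X 0 + C b' * X 1)) -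
        (X 2 - C l * (C a * X 0 + C b * X 1)) - C (l * b - l' * b') * X 1 := by
      rw [C_sub, C_sub, C_mul, C_mul, C_mul, C_mul]; ring
    rw [e]; exact sub_mem (sub_mem m1 n1) (J.mul_mem_left _ x1)
  have x2 : (X 2 : S κ) ∈ J := by
    have e : (X 2 : S κ) = (X 2 - C l * (C a * X 0 + C b * X 1)) + C l * (C a * X 0 + C b * X 1) := by
      ring
    rw [e]
    exact add_mem n1 (J.mul_mem_left _ (add_mem (J.mul_mem_left _ x0) (J.mul_mem_left _ x1)))
  exact mm_le_of x0 x1 x2 x3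

theorem skew_M_M {w w' : κ} (h1 : w ≠ w') (h2 : w ^ 3 ≠ w' ^ 3) :
    mm κ ≤ (lineM w).P ⊔ (lineM w').P := by
  set J := (lineM w).P ⊔ (lineM w').P
  have n1 : (X 0 - C w * X 1 : S κ) ∈ J := Ideal.mem_sup_left (M_l1 w)
  have n2 : (X 2 - C (w ^ 3) * X 3 : S κ) ∈ J := Ideal.mem_sup_left (M_l2 w)
  have m1 : (X 0 - C w' * X 1 : S κ) ∈ J := Ideal.mem_sup_right (M_l1 w')
  have m2 : (X 2 - C (w' ^ 3) * X 3 : S κ) ∈ J := Ideal.mem_sup_right (M_l2 w')
  have x1 : (X 1 : S κ) ∈ J := by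
    apply unit_mem (sub_ne_zero.mpr h1)
    have e : (C (w - w') * X 1 : S κ) = (X 0 - C w' * X 1) - (X 0 - C w * X 1) := by
      rw [C_sub]; ring
    rw [e]; exact sub_mem m1 n1
  have x3 : (X 3 : S κ) ∈ J := by
    apply unit_mem (sub_ne_zero.mpr h2)
    have e : (C (w ^ 3 - w' ^ 3) * X 3 : S κ) = (X 2 - C (w' ^ 3) * X 3) -
      (X 2 - C (w ^ 3) * X 3) := by rw [C_sub]; ring
    rw [e]; exact sub_mem m2 n2
  have x0 : (X 0 : S κ) ∈ J := by
    have e : (X 0 : S κ) = (X 0 - C w * X 1) + C w * X 1 := by ring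
    rw [e]; exact add_mem n1 (J.mul_mem_left _ x1)
  have x2 : (X 2 : S κ) ∈ J := by
    have e : (X 2 : S κ) = (X 2 - C (w ^ 3) * X 3) + C (w ^ 3) * X 3 := by ring
    rw [e]; exact add_mem n2 (J.mul_mem_left _ x3)
  exact mm_le_of x0 x1 x2 x3

theorem skew_M_Mi {w : κ} : mm κ ≤ (lineM w).P ⊔ (lineMi κ).P := by
  set J := (lineM w).P ⊔ (lineMi κ).P
  have n1 : (X 0 - C w * X 1 : S κ) ∈ J := Ideal.mem_sup_left (M_l1 w)
  have n2 : (X 2 - C (w ^ 3) * X 3 : S κ) ∈ J := Ideal.mem_sup_left (M_l2 w)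
  have x1 : (X 1 : S κ) ∈ J := Ideal.mem_sup_right Mi_X1
  have x3 : (X 3 : S κ) ∈ J := Ideal.mem_sup_right Mi_X3
  have x0 : (X 0 : S κ) ∈ J := by
    have e : (X 0 : S κ) = (X 0 - C w * X 1) + C w * X 1 := by ring
    rw [e]; exact add_mem n1 (J.mul_mem_left _ x1)
  have x2 : (X 2 : S κ) ∈ J := by
    have e : (X 2 : S κ) = (X 2 - C (w ^ 3) * X 3) + C (w ^ 3) * X 3 := by ring
    rw [e]; exact add_mem n2 (J.mul_mem_left _ x3)
  exact mm_le_of x0 x1 x2 x3

theorem skew_N_M {l a b w : κ} (hl : l ≠ 0) (h : w ^ 3 ≠ a * w + b) :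
    mm κ ≤ (lineN l a b).P ⊔ (lineM w).P := by
  set J := (lineN l a b).P ⊔ (lineM w).P
  have n1 : (X 2 - C l * (C a * X 0 + C b * X 1) : S κ) ∈ J := Ideal.mem_sup_left (N_l1 l a b)
  have n2 : (X 3 - C l * X 1 : S κ) ∈ J := Ideal.mem_sup_left (N_l2 l a b)
  have m1 : (X 0 - C w * X 1 : S κ) ∈ J := Ideal.mem_sup_right (M_l1 w)
  have m2 : (X 2 - C (w ^ 3) * X 3 : S κ) ∈ J := Ideal.mem_sup_right (M_l2 w)
  have x1 : (X 1 : S κ) ∈ J := by
    apply unit_mem (mul_ne_zero hl (sub_ne_zero.mpr h))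
    have e : (C (l * (w ^ 3 - (a * w + b))) * X 1 : S κ) =
        (X 2 - C l * (C a * X 0 + C b * X 1)) - (X 2 - C (w ^ 3) * X 3) -
          C (w ^ 3) * (X 3 - C l * X 1) + C (l * a) * (X 0 - C w * X 1) := by
      simp only [C_mul, C_sub, C_add, C_pow]; ring
    rw [e]
    exact add_mem (sub_mem (sub_mem n1 m2) (J.mul_mem_left _ n2)) (J.mul_mem_left _ m1)
  have x3 : (X 3 : S κ) ∈ J := by
    have e : (X 3 : S κ) = (X 3 - C l * X 1) + C l * X 1 := by ring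
    rw [e]; exact add_mem n2 (J.mul_mem_left _ x1)
  have x0 : (X 0 : S κ) ∈ J := by
    have e : (X 0 : S κ) = (X 0 - C w * X 1) + C w * X 1 := by ring
    rw [e]; exact add_mem m1 (J.mul_mem_left _ x1)
  have x2 : (X 2 : S κ) ∈ J := by
    have e : (X 2 : S κ) = (X 2 - C (w ^ 3) * X 3) + C (w ^ 3) * X 3 := by ring
    rw [e]; exact add_mem m2 (J.mul_mem_left _ x3)
  exact mm_le_of x0 x1 x2 x3

/-! ### The auxiliary line -/

/-- The first equation of the auxiliary line. -/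
noncomputable def auxh (κ : Type*) [Field κ] : S κ := X 2 - X 1

/-- The second equation of the auxiliary line. -/
noncomputable def auxl (g : κ) : S κ := X 3 - C g * X 0 - C (g ^ 6) * X 1

theorem auxh_hom : (auxh κ).IsHomogeneous 1 := (isHomogeneous_X _ _).sub (isHomogeneous_X _ _)

theorem auxl_hom (g : κ) : (auxl g).IsHomogeneous 1 :=
  ((isHomogeneous_X _ _).sub (C_mul_hom _ (isHomogeneous_X _ _))).sub
    (C_mul_hom _ (isHomogeneous_X _ _))

section aux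

variable (g : κ) (P : Ideal (S κ))

/-- The sum with the auxiliary line. -/
noncomputable def auxJ : Ideal (S κ) := P ⊔ Ideal.span {auxh κ} ⊔ Ideal.span {auxl g}

theorem auxJ_h : (X 2 - X 1 : S κ) ∈ auxJ g P :=
  Ideal.mem_sup_left (Ideal.mem_sup_right (Ideal.mem_span_singleton_self _))

theorem auxJ_l : (X 3 - C g * X 0 - C (g ^ 6) * X 1 : S κ) ∈ auxJ g P :=
  Ideal.mem_sup_right (Ideal.mem_span_singleton_self _)

variable {P}

theorem auxJ_P {x : S κ} (hx : x ∈ P) : x ∈ auxJ g P := Ideal.mem_sup_left (Ideal.mem_sup_left hx)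

end aux

theorem aux_La {g : κ} (hg : g ≠ 0) : mm κ ≤ auxJ g (lineLa κ).P := by
  set J := auxJ g (lineLa κ).P
  have h := auxJ_h g (lineLa κ).P
  have l := auxJ_l g (lineLa κ).P
  have x2 : (X 2 : S κ) ∈ J := auxJ_P g La_X2
  have x3 : (X 3 : S κ) ∈ J := auxJ_P g La_X3
  have x1 : (X 1 : S κ) ∈ J := by
    have e : (X 1 : S κ) = X 2 - (X 2 - X 1) := by ring
    rw [e]; exact sub_mem x2 h
  have x0 : (X 0 : S κ) ∈ J := by
    apply unit_mem hg
    have e : (C g * X 0 : S κ) = X 3 - (X 3 - C g * X 0 - C (g ^ 6) * X 1) - C (g ^ 6) * X 1 := by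
      ring
    rw [e]; exact sub_mem (sub_mem x3 l) (J.mul_mem_left _ x1)
  exact mm_le_of x0 x1 x2 x3

theorem aux_Lb {g : κ} : mm κ ≤ auxJ g (lineLb κ).P := by
  set J := auxJ g (lineLb κ).P
  have h := auxJ_h g (lineLb κ).P
  have l := auxJ_l g (lineLb κ).P
  have x0 : (X 0 : S κ) ∈ J := auxJ_P g Lb_X0
  have x1 : (X 1 : S κ) ∈ J := auxJ_P g Lb_X1
  have x2 : (X 2 : S κ) ∈ J := by
    have e : (X 2 : S κ) = X 1 + (X 2 - X 1) := by ring
    rw [e]; exact add_mem x1 h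
  have x3 : (X 3 : S κ) ∈ J := by
    have e : (X 3 : S κ) = (X 3 - C g * X 0 - C (g ^ 6) * X 1) + C g * X 0 + C (g ^ 6) * X 1 := by
      ring
    rw [e]; exact add_mem (add_mem l (J.mul_mem_left _ x0)) (J.mul_mem_left _ x1)
  exact mm_le_of x0 x1 x2 x3

theorem aux_Mi {g : κ} (hg : g ≠ 0) : mm κ ≤ auxJ g (lineMi κ).P := by
  set J := auxJ g (lineMi κ).P
  have h := auxJ_h g (lineMi κ).P
  have l := auxJ_l g (lineMi κ).P
  have x1 : (X 1 : S κ) ∈ J := auxJ_P g Mi_X1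
  have x3 : (X 3 : S κ) ∈ J := auxJ_P g Mi_X3
  have x2 : (X 2 : S κ) ∈ J := by
    have e : (X 2 : S κ) = X 1 + (X 2 - X 1) := by ring
    rw [e]; exact add_mem x1 h
  have x0 : (X 0 : S κ) ∈ J := by
    apply unit_mem hg
    have e : (C g * X 0 : S κ) = X 3 - (X 3 - C g * X 0 - C (g ^ 6) * X 1) - C (g ^ 6) * X 1 := by
      ring
    rw [e]; exact sub_mem (sub_mem x3 l) (J.mul_mem_left _ x1)
  exact mm_le_of x0 x1 x2 x3

theorem aux_N {g l a b : κ} (hg : g ≠ 0) (h : l * a * (l - g ^ 6) - g * (1 - l * b) ≠ 0) :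
    mm κ ≤ auxJ g (lineN l a b).P := by
  set J := auxJ g (lineN l a b).P
  have h' := auxJ_h g (lineN l a b).P
  have l' := auxJ_l g (lineN l a b).P
  have n1 : (X 2 - C l * (C a * X 0 + C b * X 1) : S κ) ∈ J := auxJ_P g (N_l1 l a b)
  have n2 : (X 3 - C l * X 1 : S κ) ∈ J := auxJ_P g (N_l2 l a b)
  have x1 : (X 1 : S κ) ∈ J := by
    apply unit_mem h
    have e : (C (l * a * (l - g ^ 6) - g * (1 - l * b)) * X 1 : S κ) =
        C (l * a) * ((X 3 - C g * X 0 - C (g ^ 6) * X 1) - (X 3 - C l * X 1)) -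
        C g * ((X 2 - C l * (C a * X 0 + C b * X 1)) - (X 2 - X 1)) := by
      simp only [C_mul, C_sub, C_pow, C_1]; ring
    rw [e]
    exact sub_mem (J.mul_mem_left _ (sub_mem l' n2)) (J.mul_mem_left _ (sub_mem n1 h'))
  have x3 : (X 3 : S κ) ∈ J := by
    have e : (X 3 : S κ) = (X 3 - C l * X 1) + C l * X 1 := by ring
    rw [e]; exact add_mem n2 (J.mul_mem_left _ x1)
  have x2 : (X 2 : S κ) ∈ J := by
    have e : (X 2 : S κ) = X 1 + (X 2 - X 1) := by ring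
    rw [e]; exact add_mem x1 h'
  have x0 : (X 0 : S κ) ∈ J := by
    apply unit_mem hg
    have e : (C g * X 0 : S κ) = X 3 - (X 3 - C g * X 0 - C (g ^ 6) * X 1) - C (g ^ 6) * X 1 := by
      ring
    rw [e]; exact sub_mem (sub_mem x3 l') (J.mul_mem_left _ x1)
  exact mm_le_of x0 x1 x2 x3

theorem aux_M {g w : κ} (h : 1 - w ^ 3 * (g * w + g ^ 6) ≠ 0) : mm κ ≤ auxJ g (lineM w).P := by
  set J := auxJ g (lineM w).P
  have h' := auxJ_h g (lineM w).P
  have l' := auxJ_l g (lineM w).P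
  have m1 : (X 0 - C w * X 1 : S κ) ∈ J := auxJ_P g (M_l1 w)
  have m2 : (X 2 - C (w ^ 3) * X 3 : S κ) ∈ J := auxJ_P g (M_l2 w)
  have x1 : (X 1 : S κ) ∈ J := by
    apply unit_mem h
    have e : (C (1 - w ^ 3 * (g * w + g ^ 6)) * X 1 : S κ) =
        (X 2 - C (w ^ 3) * X 3) - (X 2 - X 1) +
          C (w ^ 3) * ((X 3 - C g * X 0 - C (g ^ 6) * X 1) + C g * (X 0 - C w * X 1)) := by
      simp only [C_mul, C_sub, C_pow, C_1, C_add]; ring
    rw [e]
    exact add_mem (sub_mem m2 h') (J.mul_mem_left _ (add_mem l' (J.mul_mem_left _ m1)))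
  have x0 : (X 0 : S κ) ∈ J := by
    have e : (X 0 : S κ) = (X 0 - C w * X 1) + C w * X 1 := by ring
    rw [e]; exact add_mem m1 (J.mul_mem_left _ x1)
  have x2 : (X 2 : S κ) ∈ J := by
    have e : (X 2 : S κ) = X 1 + (X 2 - X 1) := by ring
    rw [e]; exact add_mem x1 h'
  have x3 : (X 3 : S κ) ∈ J := by
    have e : (X 3 : S κ) = (X 3 - C g * X 0 - C (g ^ 6) * X 1) + C g * X 0 + C (g ^ 6) * X 1 := by
      ring
    rw [e]; exact add_mem (add_mem l' (J.mul_mem_left _ x0)) (J.mul_mem_left _ x1)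
  exact mm_le_of x0 x1 x2 x3

/-! ### Distinguishing lines -/

theorem eval_ev (ℓ : LineData κ) (u v : κ) (F : S κ) :
    eval ![u, v] (ℓ.ev F) = eval (fun i => eval ![u, v] (ℓ.E i)) F := by
  induction F using MvPolynomial.induction_on with
  | C a =>
    have h2 : ℓ.ev (C a) = C a := by rw [LineData.ev, aeval_C]; rfl
    rw [h2, eval_C, eval_C]
  | add p q hp hq => rw [map_add, map_add, map_add, hp, hq]
  | mul_X p i hp =>
    rw [map_mul, map_mul, map_mul, hp, eval_X, LineData.ev, aeval_X]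

theorem not_mem_of_point (ℓ : LineData κ) (u v : κ) {F : S κ}
    (h : eval (fun i => eval ![u, v] (ℓ.E i)) F ≠ 0) : F ∉ ℓ.P := by
  intro hm
  rw [ℓ.mem_P] at hm
  rw [← eval_ev, hm, map_zero] at h
  exact h rfl

theorem lin_of_skew (ℓ ℓ' : LineData κ) (h : mm κ ≤ ℓ.P ⊔ ℓ'.P) :
    ∃ l : S κ, l.IsHomogeneous 1 ∧ l ∈ ℓ'.P ∧ l ∉ ℓ.P := by
  by_contra hc
  push Not at hc
  have h1 : pc (ℓ.P ⊔ ℓ'.P) 1 ≤ pc ℓ.P 1 := by
    rw [pc_sup ℓ.GH_P ℓ'.GH_P]
    apply sup_le le_rfl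
    intro x hx
    rw [mem_pc] at hx ⊢
    exact ⟨hc x hx.2 hx.1, hx.2⟩
  have h2 := Submodule.finrank_mono h1
  have h3 : hf (ℓ.P ⊔ ℓ'.P) 1 = 0 := hf_of_mm_pow (N := 1) (by rw [pow_one]; exact h) le_rfl
  have h4 := hf_add_dd (ℓ.P ⊔ ℓ'.P) 1
  have h5 := hf_add_dd ℓ.P 1
  rw [ℓ.hf_P] at h5
  unfold dd at h4 h5
  omega

end Pool.Agent.Work.C21
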