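import Pool.Agent.Work.MP_c21e2e_ag_helper46.Tools

namespace Pool.Agent.Work.C21

open MvPolynomial Module

section General

variable {K : Type*} [Field K]

theorem nn_one : nn K 1 = 4 := by
  unfold nn gr
  rw [homogeneousSubmodule_one_eq_span_X]
  have h := finrank_span_eq_card (R := K) (b := (X : Fin 4 → MvPolynomial (Fin 4) K))
    (linearIndependent_X (Fin 4) K)
  rw [h]
  rfl

/-- Bounding a sum with a prime of a line. -/
theorem hf_sup_line {C : Type*} [DecidableEq C] {𝔭 : Ideal (S K)} (hp : 𝔭.IsPrime) (hG : GH 𝔭)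
    (hhf : ∀ t, hf 𝔭 t = t + 1) (s : Finset C) (𝔮 : C → Ideal (S K))
    (G : C → S K) (D : C → ℕ) (hGD : ∀ c ∈ s, (G c).IsHomogeneous (D c))
    (hGp : ∀ c ∈ s, G c ∉ 𝔭) (h : ∀ c ∈ s, mm K ^ 2 * Ideal.span {G c} ≤ 𝔮 c ⊔ 𝔭) :
    ∃ T, ∀ t ≥ T, hf ((⨅ c ∈ s, 𝔮 c) ⊔ 𝔭) t ≤ ∑ c ∈ s, D c := by
  set g := ∏ c ∈ s, G c with hg
  have hg1 : g.IsHomogeneous (∑ c ∈ s, D c) := IsHomogeneous.prod _ _ _ hGD
  have hg2 : g ∉ 𝔭 := by
    intro hm
    rw [hg, hp.prod_mem_iff] at hm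
    obtain ⟨c, hc, hm⟩ := hm
    exact hGp c hc hm
  have h1 : mm K ^ (2 * s.card) * Ideal.span {g} ≤ (⨅ c ∈ s, 𝔮 c) ⊔ 𝔭 := by
    have h2 : ∏ c ∈ s, (mm K ^ 2 * Ideal.span {G c}) ≤ ∏ c ∈ s, (𝔮 c ⊔ 𝔭) :=
      Finset.prod_le_prod' h
    rw [Finset.prod_mul_distrib, Finset.prod_const, ← pow_mul, Ideal.prod_span_singleton] at h2
    refine h2.trans ((prod_sup_le _ _ _).trans (sup_le_sup_right ?_ _))
    refine le_iInf fun c => le_iInf fun hc => ?_
    have h6 : ∏ c ∈ s, 𝔮 c ≤ s.inf 𝔮 := Ideal.prod_le_inf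
    exact h6.trans (Finset.inf_le hc)
  refine ⟨2 * s.card + ∑ c ∈ s, D c, fun t ht => ?_⟩
  obtain ⟨k, rfl⟩ := Nat.exists_eq_add_of_le' (show ∑ c ∈ s, D c ≤ t by omega)
  have h2 := hf_sup_span hp hg1 hg2 k
  rw [hhf, hhf] at h2
  have h3 : pc (𝔭 ⊔ Ideal.span {g}) (k + ∑ c ∈ s, D c) ≤
      pc ((⨅ c ∈ s, 𝔮 c) ⊔ 𝔭) (k + ∑ c ∈ s, D c) := by
    intro x hx
    obtain ⟨y, hy, hxy⟩ := mem_pc_sup_span hG hg1 hx
    rw [mem_pc] at hx ⊢
    refine ⟨?_, hx.2⟩
    have e : x = (x - g * y) + y * g := by ring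
    rw [e]
    refine add_mem (Ideal.mem_sup_right hxy) (h1 ?_)
    refine Ideal.mul_mem_mul (hom_mem_mm_pow hy ?_) (Ideal.mem_span_singleton_self g)
    omega
  have h4 := Submodule.finrank_mono h3
  have h5 := hf_add_dd (𝔭 ⊔ Ideal.span {g}) (k + ∑ c ∈ s, D c)
  have h6 := hf_add_dd ((⨅ c ∈ s, 𝔮 c) ⊔ 𝔭) (k + ∑ c ∈ s, D c)
  unfold dd at h5 h6
  omega

theorem mm_le_of_hf_one {𝔞 : Ideal (S K)} (h : hf 𝔞 1 = 0) : mm K ≤ 𝔞 := by
  have h1 := hf_add_dd 𝔞 1
  have h2 : pc 𝔞 1 = gr K 1 := by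
    apply Submodule.eq_of_le_of_finrank_le (pc_le_gr _ _)
    unfold dd nn at h1
    omega
  rw [mm_le_iff]
  intro i
  have h3 : (X i : S K) ∈ gr K 1 := isHomogeneous_X _ _
  rw [← h2, mem_pc] at h3
  exact h3.1


open Classical in
/-- Number of double lines meeting a given line. -/
noncomputable def cm {C : Type*} [Fintype C] (dbl : C → Bool) (p : C → Ideal (S K)) (j : C) : ℕ :=
  (Finset.univ.filter fun i => dbl i = true ∧ ¬ mm K ≤ p i ⊔ p j).card

/-- The general lower bound. -/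
theorem lower_general {C : Type*} [Fintype C] [DecidableEq C] (dbl : C → Bool) (n : C → ℕ)
    (p q : C → Ideal (S K)) (prime : ∀ c, (p c).IsPrime) (gp : ∀ c, GH (p c))
    (gq : ∀ c, GH (q c)) (hfp : ∀ c t, hf (p c) t = t + 1) (sq : ∀ c, p c ^ 2 ≤ q c)
    (lin : ∀ c c', c ≠ c' → ∃ l : S K, l.IsHomogeneous 1 ∧ l ∈ p c' ∧ l ∉ p c)
    (skew : ∀ c c', c ≠ c' → dbl c = false → dbl c' = false → mm K ≤ p c ⊔ p c')
    (qeq : ∀ c, dbl c = false → q c = p c)
    (base : ∃ T, ∀ t ≥ T, ∑ c ∈ Finset.univ.filter (fun c => dbl c = true), (2 * t + n c + 1) ≤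
      hf (⨅ c ∈ Finset.univ.filter (fun c => dbl c = true), q c) t) :
    ∃ T, ∀ t ≥ T, ∑ c, (if dbl c = true then 2 * t + n c + 1 else t + 1) ≤
      hf (⨅ c, q c) t + 2 * ∑ j ∈ Finset.univ.filter (fun j => dbl j = false), cm dbl p j := by
  classical
  -- the sum with a simple line
  have hsup : ∀ (j : C), dbl j = false → ∀ (s : Finset C), j ∉ s →
      ∃ T, ∀ t ≥ T, hf ((⨅ c ∈ s, q c) ⊔ p j) t ≤ 2 * cm dbl p j := by
    intro j hj s hs
    have h1 : ∀ c, ∃ (G : S K) (D : ℕ), c ≠ j → (G.IsHomogeneous D ∧ G ∉ p j ∧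
        mm K ^ 2 * Ideal.span {G} ≤ q c ⊔ p j ∧
        D = if dbl c = true ∧ ¬ mm K ≤ p c ⊔ p j then 2 else 0) := by
      intro c
      by_cases hcj : c = j
      · exact ⟨0, 0, fun h => absurd hcj h⟩
      by_cases h : mm K ≤ p c ⊔ p j
      · refine ⟨1, 0, fun _ => ⟨isHomogeneous_one _ _, ?_, ?_, ?_⟩⟩
        · exact fun hm => (prime j).ne_top ((Ideal.eq_top_iff_one _).mpr hm)
        · rw [Ideal.span_singleton_one, Ideal.mul_top]
          exact (Ideal.pow_right_mono h 2).trans ((pow_sup_le 2).trans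
            (sup_le_sup_right (sq c) _))
        · rw [if_neg]
          exact fun h' => h'.2 h
      · -- the lines meet
        have hd : dbl c = true := by
          by_contra hd
          rw [Bool.not_eq_true] at hd
          exact h (skew c j hcj hd hj)
        obtain ⟨l, hl1, hl2, hl3⟩ := lin j c (Ne.symm hcj)
        refine ⟨l ^ 2, 1 * 2, fun _ => ⟨hl1.pow 2, ?_, ?_, ?_⟩⟩
        · exact fun hm => hl3 ((prime j).mem_of_pow_mem _ hm)
        · refine le_trans Ideal.mul_le_right (le_trans ?_ le_sup_left)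
          rw [Ideal.span_singleton_le_iff_mem]
          exact sq c (Ideal.pow_mem_pow hl2 2)
        · rw [if_pos ⟨hd, h⟩]
    choose G D hGD using h1
    have hne : ∀ c ∈ s, c ≠ j := fun c hc h => hs (h ▸ hc)
    obtain ⟨T, hT⟩ := hf_sup_line (prime j) (gp j) (hfp j) s q G D
      (fun c hc => (hGD c (hne c hc)).1) (fun c hc => (hGD c (hne c hc)).2.1)
      (fun c hc => (hGD c (hne c hc)).2.2.1)
    refine ⟨T, fun t ht => (hT t ht).trans ?_⟩
    rw [Finset.sum_congr rfl fun c hc => (hGD c (hne c hc)).2.2.2, ← Finset.sum_filter,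
      Finset.sum_const, smul_eq_mul, mul_comm]
    apply Nat.mul_le_mul_left
    unfold cm
    apply Finset.card_le_card
    intro c hc
    rw [Finset.mem_filter] at hc ⊢
    exact ⟨Finset.mem_univ _, hc.2⟩
  set ι := Finset.univ.filter (fun i => dbl i = true) with hι
  set τ := Finset.univ.filter (fun j => dbl j = false) with hτ
  -- the simple lines, one at a time
  have h2 : ∀ s ⊆ τ, ∃ T, ∀ t ≥ T, ∑ c ∈ ι, (2 * t + n c + 1) + ∑ c ∈ s, (t + 1) ≤
      hf (⨅ c ∈ ι ∪ s, q c) t + 2 * ∑ j ∈ s, cm dbl p j := by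
    intro s
    induction s using Finset.induction_on with
    | empty =>
      intro _
      obtain ⟨T, hT⟩ := base
      refine ⟨T, fun t ht => ?_⟩
      rw [Finset.union_empty]
      simpa using hT t ht
    | insert a s ha ih =>
      intro hsub
      obtain ⟨T, hT⟩ := ih ((Finset.subset_insert a s).trans hsub)
      have haτ : dbl a = false := by
        have := hsub (Finset.mem_insert_self a s)
        rw [hτ, Finset.mem_filter] at this
        exact this.2
      have haι : a ∉ ι ∪ s := by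
        rw [Finset.mem_union]
        rintro (h | h)
        · rw [hι, Finset.mem_filter, haτ] at h
          exact Bool.noConfusion h.2
        · exact ha h
      obtain ⟨T', hT'⟩ := hsup a haτ (ι ∪ s) haι
      refine ⟨max T T', fun t ht => ?_⟩
      have h3 := hT t ((le_max_left _ _).trans ht)
      have h4 := hT' t ((le_max_right _ _).trans ht)
      have h5 := hf_inf_add_sup (𝔞 := ⨅ c ∈ ι ∪ s, q c) (𝔟 := p a)
        (GH.iInf fun c => GH.iInf fun _ => gq c) (gp a) t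
      rw [hfp] at h5
      have h6 : (⨅ c ∈ ι ∪ insert a s, q c) = (⨅ c ∈ ι ∪ s, q c) ⊓ p a := by
        rw [Finset.union_insert, Finset.iInf_insert, qeq a haτ, inf_comm]
      rw [h6, Finset.sum_insert ha, Finset.sum_insert ha, mul_add]
      omega
  obtain ⟨T, hT⟩ := h2 τ subset_rfl
  refine ⟨T, fun t ht => ?_⟩
  have h3 := hT t ht
  have h4 : ι ∪ τ = Finset.univ := by
    ext c
    rw [Finset.mem_union, hι, hτ, Finset.mem_filter, Finset.mem_filter]
    have := Finset.mem_univ c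
    cases dbl c <;> simp
  rw [h4] at h3
  have h5 : (⨅ c ∈ (Finset.univ : Finset C), q c) = ⨅ c, q c := by simp
  rw [h5] at h3
  have h6 : ∑ c, (if dbl c = true then 2 * t + n c + 1 else t + 1) =
      ∑ c ∈ ι, (2 * t + n c + 1) + ∑ c ∈ τ, (t + 1) := by
    rw [Finset.sum_ite]
    congr 1
    apply Finset.sum_congr _ fun _ _ => rfl
    rw [hτ]
    ext c
    simp
  rw [h6]
  exact h3

end General

end Pool.Agent.Work.C21
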