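import Pool.Agent.Work.MP_c21e2e_ag_helper46.Step4
import Pool.Agent.Work.MP_c21e2e_ag_helper46.Config
import Pool.Agent.Work.MP_c21e2e_ag_helper46.FanoLin

namespace Pool.Agent.Work.C21

open MvPolynomial Module IsLocalRing

section

variable {K : Type*} [Field K]

theorem pc_mm_pow {T t : ℕ} (h : t < T) : pc (mm K ^ T) t = ⊥ := by
  rw [eq_bot_iff]
  intro x hx
  rw [mem_pc, mm, MvPolynomial.mem_pow_idealOfVars_iff'] at hx
  rw [Submodule.mem_bot]
  ext m
  rw [coeff_zero]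
  by_contra hc
  have h1 := hx.2 hc
  apply hc
  apply hx.1
  rw [Finsupp.degree_eq_weight_one]
  change Finsupp.weight (1 : Fin 4 → ℕ) m < T
  omega

theorem mm_pow_mul_le {𝔞 𝔟 : Ideal (S K)} (ha : GH 𝔞) {T : ℕ}
    (h : ∀ t ≥ T, pc 𝔞 t ≤ pc 𝔟 t) : mm K ^ T * 𝔞 ≤ 𝔟 := by
  apply ((GH_mm.pow T).mul ha).le_of_pc_le
  intro t
  rcases lt_or_ge t T with hlt | hge
  · have h1 : mm K ^ T * 𝔞 ≤ mm K ^ T := Ideal.mul_le_left
    have h2 := pc_mono h1 t
    rw [pc_mm_pow hlt] at h2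
    exact h2.trans bot_le
  · have h1 : mm K ^ T * 𝔞 ≤ 𝔞 := Ideal.mul_le_right
    exact (pc_mono h1 t).trans (h t hge)

end

/-- The main theorem over an algebraically closed valued field. -/
theorem main_K {K : Type*} [Field K] [IsAlgClosed K] (h2 : (2 : K) ≠ 0) (A : ValuationSubring K)
    [CharP (ResidueField A) 2] {g : ResidueField A} (hg : g ^ 3 = g + 1) (n n' : ℕ)
    (hn : n % 7 = 3) (hn' : n' % 7 = 5) (h834 : 834 ≤ n) (h834' : 834 ≤ n') {I : Ideal (S K)}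
    (hI : GH I) (hpc : ∃ T, ∀ t ≥ T, pc (redI A I) t = pc (⨅ c, cQ g n n' c) t) : False := by
  obtain ⟨T, hT⟩ := hpc
  set X : Cfg (ResidueField A) Ln := cfg hg n n' hn hn' h834 h834' with hX
  have hQ : X.Q = cQ g n n' := rfl
  have hGQ : GH (⨅ c, X.Q c) := GH.iInf X.gQ
  have hCont : X.Cont (redI A I) := ⟨T, mm_pow_mul_le hGQ fun t ht => (hT t ht).ge⟩
  have hfI : ∃ T, ∀ t ≥ T, hf I t = hf (⨅ c, X.Q c) t := by
    refine ⟨T, fun t ht => ?_⟩
    rw [← hf_redI A hI, hf_eq_of_pc_eq (hT t ht)]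
    rfl
  have hLB : LB I 26 := by
    obtain ⟨T1, hT1⟩ := hfI
    obtain ⟨T2, hT2⟩ := X.hf_eq
    apply LB_of_eventually 88 (T1 + T2)
    intro t ht
    have h3 := hT1 t (by omega)
    have h4 := hT2 t (by omega)
    have h5 : 26 * t ≤ ∑ c, (if X.dbl c = true then 2 * t + X.n c + 1 else t + 1) := by
      rw [← X.hsum, Finset.sum_mul]
      apply Finset.sum_le_sum
      intro c _
      split_ifs <;> omega
    omega
  obtain ⟨Y, hY⟩ := exists_lifted hI hCont hLB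
  apply h2
  apply two_eq_zero_of_config (W := gr K 1) Y.U Y.finrank_U
  · intro c c' hne hd
    rw [Y.U_inf_eq_bot_iff]
    exact Y.mm_le_of_mm_le (X.skew c c' hne hd)
  · intro i j hi hj hij h
    rw [Y.U_inf_eq_bot_iff] at h
    exact Y.meets hY hfI i j hi hj hij h
  · intro i j hi hj hij
    rw [Y.U_inf_eq_bot_iff]
    exact Y.mm_le_of_mm_le (X.noninc i j hi hj hij)

end Pool.Agent.Work.C21
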