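import Pool.Agent.Work.MP_c21e2e_ag_helper46.Basic

namespace Pool.Agent.Work.C21

open MvPolynomial Module

variable {K : Type*} [Field K]

section Core

attribute [local instance] MvPolynomial.gradedAlgebra

theorem GH_iff (𝔞 : Ideal (S K)) : GH 𝔞 ↔ 𝔞.IsHomogeneous (homogeneousSubmodule (Fin 4) K) := by
  constructor
  · intro h i r hr
    have := h r hr i
    rwa [← MvPolynomial.decomposition.decompose'_apply] at this
  · intro h p hp n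
    exact MvPolynomial.homogeneousComponent_mem_of_mem h hp n

theorem GH.minimalPrimes {𝔞 : Ideal (S K)} (h : GH 𝔞) {𝔭 : Ideal (S K)}
    (hp : 𝔭 ∈ 𝔞.minimalPrimes) : GH 𝔭 := by
  have hprime : 𝔭.IsPrime := hp.1.1
  set core := (𝔭.homogeneousCore (homogeneousSubmodule (Fin 4) K)).toIdeal with hcore
  have h1 : core.IsPrime := hprime.homogeneousCore
  have h2 : core ≤ 𝔭 := Ideal.toIdeal_homogeneousCore_le _ _
  have h3 : 𝔞 ≤ core := by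
    have := (GH_iff 𝔞).mp h
    rw [← this.toIdeal_homogeneousCore_eq_self]
    exact Ideal.homogeneousCore_mono _ hp.1.2
  have h4 : 𝔭 ≤ core := hp.2 ⟨h1, h3⟩ h2
  have h5 : 𝔭 = core := le_antisymm h4 h2
  rw [h5, GH_iff]
  exact HomogeneousIdeal.isHomogeneous _

end Core

theorem exists_prime_not_Bdd {𝔠 : Ideal (S K)} (h : GH 𝔠) (hb : ¬ Bdd 𝔠) :
    ∃ 𝔭 : Ideal (S K), 𝔭.IsPrime ∧ GH 𝔭 ∧ 𝔠 ≤ 𝔭 ∧ ¬ Bdd 𝔭 := by
  classical
  by_contra hcon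
  push Not at hcon
  apply hb
  have hfin : 𝔠.minimalPrimes.Finite := Ideal.finite_minimalPrimes_of_isNoetherianRing _ 𝔠
  have h1 : Bdd (∏ 𝔭 ∈ hfin.toFinset, 𝔭) := by
    apply Bdd_prod
    · intro 𝔭 hp
      rw [Set.Finite.mem_toFinset] at hp
      exact h.minimalPrimes hp
    · intro 𝔭 hp
      rw [Set.Finite.mem_toFinset] at hp
      exact hcon 𝔭 hp.1.1 (h.minimalPrimes hp) hp.1.2
  have hG : GH (∏ 𝔭 ∈ hfin.toFinset, 𝔭) := by
    apply GH_prod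
    intro 𝔭 hp
    rw [Set.Finite.mem_toFinset] at hp
    exact h.minimalPrimes hp
  have h2 : ∏ 𝔭 ∈ hfin.toFinset, 𝔭 ≤ 𝔠.radical := by
    refine Ideal.prod_le_inf.trans ?_
    rw [← Ideal.sInf_minimalPrimes]
    refine le_sInf fun 𝔭 hp => ?_
    exact Finset.inf_le (f := fun x => x) ((Set.Finite.mem_toFinset hfin).mpr hp)
  obtain ⟨N, hN⟩ := Ideal.exists_radical_pow_le_of_fg 𝔠
    ((isNoetherianRing_iff_ideal_fg (S K)).mp inferInstance _)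
  exact (h1.pow hG N).mono ((Ideal.pow_right_mono h2 N).trans hN)

/-- Linear lower bound for the Hilbert function. -/
def LB (𝔞 : Ideal (S K)) (e : ℕ) : Prop := ∃ C, ∀ t, e * t ≤ hf 𝔞 t + C

/-- Linear upper bound for the Hilbert function. -/
def UB (𝔞 : Ideal (S K)) (e : ℕ) : Prop := ∃ C, ∀ t, hf 𝔞 t ≤ e * t + C

theorem UB_zero_iff {𝔞 : Ideal (S K)} : UB 𝔞 0 ↔ Bdd 𝔞 := by
  simp [UB, Bdd]

theorem le_of_LB_UB {𝔞 : Ideal (S K)} {e e' : ℕ} (h : LB 𝔞 e) (h' : UB 𝔞 e') : e ≤ e' := by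
  obtain ⟨C, hC⟩ := h
  obtain ⟨D, hD⟩ := h'
  by_contra hlt
  push Not at hlt
  have h1 := hC (C + D + 1)
  have h2 := hD (C + D + 1)
  have h3 : (e' + 1) * (C + D + 1) ≤ e * (C + D + 1) := Nat.mul_le_mul_right _ hlt
  have h4 : (e' + 1) * (C + D + 1) = e' * (C + D + 1) + (C + D + 1) := by ring
  omega

theorem LB.mono {𝔞 𝔟 : Ideal (S K)} {e : ℕ} (h : 𝔟 ≤ 𝔞) (ha : LB 𝔞 e) : LB 𝔟 e := by
  obtain ⟨C, hC⟩ := ha
  exact ⟨C, fun t => (hC t).trans (Nat.add_le_add_right (hf_anti h t) _)⟩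

theorem LB_of_eventually {𝔞 : Ideal (S K)} {e : ℕ} (C T : ℕ) (h : ∀ t ≥ T, e * t ≤ hf 𝔞 t + C) :
    LB 𝔞 e := by
  refine ⟨C + e * T, fun t => ?_⟩
  rcases lt_or_ge t T with hlt | hge
  · have : e * t ≤ e * T := Nat.mul_le_mul_left _ hlt.le
    omega
  · have := h t hge; omega

theorem UB_of_eventually {𝔞 : Ideal (S K)} {e : ℕ} (C T : ℕ) (h : ∀ t ≥ T, hf 𝔞 t ≤ e * t + C) :
    UB 𝔞 e := by
  refine ⟨C + ∑ i ∈ Finset.range T, hf 𝔞 i, fun t => ?_⟩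
  rcases lt_or_ge t T with hlt | hge
  · have : hf 𝔞 t ≤ ∑ i ∈ Finset.range T, hf 𝔞 i :=
      Finset.single_le_sum (f := fun i => hf 𝔞 i) (fun _ _ => Nat.zero_le _)
        (Finset.mem_range.mpr hlt)
    omega
  · have := h t hge; omega

theorem UB_iInf {ι : Type*} (s : Finset ι) (𝔞 : ι → Ideal (S K)) (e : ι → ℕ)
    (h : ∀ i ∈ s, UB (𝔞 i) (e i)) : UB (⨅ i ∈ s, 𝔞 i) (∑ i ∈ s, e i) := by
  classical
  choose! C hC using h
  refine ⟨∑ i ∈ s, C i, fun t => (hf_iInf_le s 𝔞 t).trans ?_⟩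
  rw [Finset.sum_mul, ← Finset.sum_add_distrib]
  exact Finset.sum_le_sum fun i hi => hC i hi t

theorem hf_sup_span {𝔭 : Ideal (S K)} (hp : 𝔭.IsPrime) {f : S K} {c : ℕ}
    (hf' : f.IsHomogeneous c) (hfp : f ∉ 𝔭) (t : ℕ) :
    hf (𝔭 ⊔ Ideal.span {f}) (t + c) + hf 𝔭 t ≤ hf 𝔭 (t + c) := by
  refine hf_lower le_sup_left hf' ?_ t ?_
  · exact Ideal.mem_sup_right (Ideal.mem_span_singleton_self f)
  · intro g _ hg
    exact (hp.mem_or_mem hg).resolve_left hfp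

theorem Bdd_sup_span {𝔭 : Ideal (S K)} (hp : 𝔭.IsPrime) {e : ℕ} (hl : LB 𝔭 e) (hu : UB 𝔭 e)
    {f : S K} {c : ℕ} (hf' : f.IsHomogeneous c) (hfp : f ∉ 𝔭) : Bdd (𝔭 ⊔ Ideal.span {f}) := by
  obtain ⟨C, hC⟩ := hl
  obtain ⟨D, hD⟩ := hu
  apply Bdd_of_eventually (e * c + C + D) c
  intro t ht
  obtain ⟨k, rfl⟩ := Nat.exists_eq_add_of_le' ht
  have h1 := hf_sup_span hp hf' hfp k
  have h2 := hC k
  have h3 := hD (k + c)
  have h4 : e * (k + c) = e * k + e * c := by ring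
  omega

end Pool.Agent.Work.C21
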