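import Pool.Agent.Work.MP_c21e2e_ag_helper46.Tools

namespace Pool.Agent.Work.C21

open MvPolynomial Module

/-- The polynomial ring in two variables. -/
abbrev R2 (K : Type*) [Field K] := MvPolynomial (Fin 2) K

variable {K : Type*} [Field K]

/-- Dehomogenisation. -/
noncomputable def dh : R2 K →ₐ[K] Polynomial K := aeval ![1, Polynomial.X]

/-- Homogenisation in degree `m`. -/
noncomputable def hmg (m : ℕ) : Polynomial K →ₗ[K] R2 K where
  toFun p := ∑ b ∈ Finset.range (m + 1), C (p.coeff b) * (X 0 ^ (m - b) * X 1 ^ b)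
  map_add' p q := by
    rw [← Finset.sum_add_distrib]
    apply Finset.sum_congr rfl
    intro b _
    rw [Polynomial.coeff_add, map_add, add_mul]
  map_smul' c p := by
    rw [RingHom.id_apply, Finset.smul_sum]
    apply Finset.sum_congr rfl
    intro b _
    rw [Polynomial.coeff_smul, smul_eq_mul, map_mul, smul_eq_C_mul, mul_assoc]

theorem hmg_apply (m : ℕ) (p : Polynomial K) :
    hmg m p = ∑ b ∈ Finset.range (m + 1), C (p.coeff b) * (X 0 ^ (m - b) * X 1 ^ b) := rfl

theorem hmg_hom (m : ℕ) (p : Polynomial K) : (hmg m p).IsHomogeneous m := by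
  rw [hmg_apply]
  apply IsHomogeneous.sum
  intro b hb
  rw [Finset.mem_range] at hb
  have h1 : (C (p.coeff b) * (X 0 ^ (m - b) * X 1 ^ b) : R2 K).IsHomogeneous
      (0 + ((m - b) + b)) := by
    apply (isHomogeneous_C _ _).mul
    apply IsHomogeneous.mul
    · exact isHomogeneous_X_pow 0 _
    · exact isHomogeneous_X_pow 1 _
  have e : 0 + ((m - b) + b) = m := by omega
  rwa [e] at h1

theorem dh_hmg (m : ℕ) {p : Polynomial K} (hp : p.natDegree ≤ m) : dh (hmg m p) = p := by
  rw [hmg_apply, map_sum]
  conv_rhs => rw [p.as_sum_range' (m + 1) (by omega)]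
  apply Finset.sum_congr rfl
  intro b _
  simp [dh, Polynomial.C_mul_X_pow_eq_monomial]

theorem hmg_dh {m : ℕ} {G : R2 K} (hG : G.IsHomogeneous m) : hmg m (dh G) = G := by
  have h1 : ∀ d ∈ G.support, hmg m (dh (monomial d (coeff d G))) = monomial d (coeff d G) := by
    intro d hd
    have hdeg : d 0 + d 1 = m := by
      have := hG (mem_support_iff.mp hd)
      rw [Finsupp.weight_apply, Finsupp.sum_fintype _ _ (fun _ => by simp)] at this
      simpa [Fin.sum_univ_two] using this
    have h2 : dh (monomial d (coeff d G)) = Polynomial.monomial (d 1) (coeff d G) := by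
      rw [dh, aeval_monomial, Finsupp.prod_fintype _ _ (fun _ => by simp), Fin.prod_univ_two]
      simp [Polynomial.C_mul_X_pow_eq_monomial]
    rw [h2, hmg_apply, Finset.sum_eq_single (d 1)]
    · rw [Polynomial.coeff_monomial, if_pos rfl]
      rw [monomial_eq, Finsupp.prod_fintype _ _ (fun _ => by simp), Fin.prod_univ_two]
      have : m - d 1 = d 0 := by omega
      rw [this]
    · intro b _ hb
      rw [Polynomial.coeff_monomial, if_neg (Ne.symm hb), map_zero, zero_mul]
    · intro h
      exfalso
      apply h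
      rw [Finset.mem_range]
      omega
  conv_lhs => rw [G.as_sum, map_sum, map_sum]
  rw [Finset.sum_congr rfl h1]
  exact G.as_sum.symm

theorem dh_natDegree {m : ℕ} {G : R2 K} (hG : G.IsHomogeneous m) : (dh G).natDegree ≤ m := by
  rw [G.as_sum, map_sum]
  apply Polynomial.natDegree_sum_le_of_forall_le
  intro d hd
  have hdeg : d 0 + d 1 = m := by
    have := hG (mem_support_iff.mp hd)
    rw [Finsupp.weight_apply, Finsupp.sum_fintype _ _ (fun _ => by simp)] at this
    simpa [Fin.sum_univ_two] using this
  have h2 : dh (monomial d (coeff d G)) = Polynomial.monomial (d 1) (coeff d G) := by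
    rw [dh, aeval_monomial, Finsupp.prod_fintype _ _ (fun _ => by simp), Fin.prod_univ_two]
    simp [Polynomial.C_mul_X_pow_eq_monomial]
  rw [h2]
  exact (Polynomial.natDegree_monomial_le _).trans (by omega)

theorem dh_injective_on {m : ℕ} {G : R2 K} (hG : G.IsHomogeneous m) (h : dh G = 0) : G = 0 := by
  rw [← hmg_dh hG, h, map_zero]

/-- The dimension of the space of binary forms. -/
theorem finrank_binary (m : ℕ) : finrank K (homogeneousSubmodule (Fin 2) K m) = m + 1 := by
  have h1 : (Polynomial.degreeLT K (m + 1)).map (hmg m) = homogeneousSubmodule (Fin 2) K m := by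
    apply le_antisymm
    · rintro _ ⟨p, _, rfl⟩
      exact hmg_hom m p
    · intro G hG
      refine ⟨dh G, ?_, hmg_dh hG⟩
      rw [SetLike.mem_coe, Polynomial.mem_degreeLT]
      have := dh_natDegree hG
      refine lt_of_le_of_lt Polynomial.degree_le_natDegree ?_
      exact_mod_cast (by omega : (dh G).natDegree < m + 1)
  have h2 := finrank_map_add_inf_ker (hmg m) (Polynomial.degreeLT K (m + 1))
  have h3 : (Polynomial.degreeLT K (m + 1) ⊓ LinearMap.ker (hmg m) : Submodule K _) = ⊥ := by
    rw [eq_bot_iff]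
    rintro p ⟨hp1, hp2⟩
    rw [SetLike.mem_coe, Polynomial.mem_degreeLT] at hp1
    rw [SetLike.mem_coe, LinearMap.mem_ker] at hp2
    rw [Submodule.mem_bot]
    have h4 : p.natDegree ≤ m := by
      by_cases h0 : p = 0
      · rw [h0]; simp
      · have := (Polynomial.natDegree_lt_iff_degree_lt h0).mpr hp1
        omega
    rw [← dh_hmg m h4, hp2, map_zero]
  rw [h1, h3, finrank_bot, add_zero] at h2
  rw [h2, (Polynomial.degreeLTEquiv K (m + 1)).finrank_eq]
  simp

end Pool.Agent.Work.C21
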