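import Mathlib

/-!
# Families of closed subschemes of projective three-space

Closed subschemes of `ℙ³` over a ring `R` are described by homogeneous ideals of
`R[x₀, x₁, x₂, x₃]`, two ideals defining the same subscheme when they agree in all large degrees.
-/

set_option autoImplicit false

open MvPolynomial IsLocalRing

namespace C21Spec

/-- The polynomial ring `R[x₀, x₁, x₂, x₃]`. -/
abbrev PolyRing (R : Type) [CommRing R] : Type := MvPolynomial (Fin 4) R

/-- Homogeneous ideals of `R[x₀, x₁, x₂, x₃]`. -/
def IsHom {R : Type} [CommRing R] (J : Ideal (PolyRing R)) : Prop :=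
  ∀ f ∈ J, ∀ n, homogeneousComponent n f ∈ J

/-- The degree `t` part of `R[x₀, x₁, x₂, x₃] / J`. -/
abbrev Piece {R : Type} [CommRing R] (J : Ideal (PolyRing R)) (t : ℕ) : Type :=
  homogeneousSubmodule (Fin 4) R t ⧸
    (J.restrictScalars R).comap (homogeneousSubmodule (Fin 4) R t).subtype

/-- The closed subscheme of `ℙ³` over the field `k` defined by `I` has Hilbert polynomial
`d t + 1 - g`. -/
def HasHilbertPoly {k : Type} [Field k] (I : Ideal (PolyRing k)) (d : ℕ) (g : ℤ) : Prop :=
  ∃ T : ℕ, ∀ t ≥ T, (Module.finrank k (Piece I t) : ℤ) = d * t + 1 - g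

/-- The ideals `I` and `J` define the same closed subscheme of `ℙ³` over the field `k`: they have
the same forms in all large degrees. -/
def SameScheme {k : Type} [Field k] (I J : Ideal (PolyRing k)) : Prop :=
  ∃ T : ℕ, ∀ t ≥ T, ∀ f : PolyRing k, f.IsHomogeneous t → (f ∈ I ↔ f ∈ J)

/-- The closed subscheme of `ℙ³` over `k₁` defined by `I₁` specialises to the closed subscheme of
`ℙ³` over `k₀` defined by `I₀`: there are a local ring `R` contained in `k₁` with residue field
containing `k₀`, and a closed subscheme of `ℙ³` over `R` which is flat over `R` (it is given by a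
homogeneous ideal `J` for which the graded pieces of `R[x₀, x₁, x₂, x₃] / J` are flat in all large
degrees), whose base change to `k₁` is the subscheme defined by `I₁`, and whose closed fibre is the
base change of the subscheme defined by `I₀`. -/
def Specializes {k₁ k₀ : Type} [Field k₁] [Field k₀] (I₁ : Ideal (PolyRing k₁))
    (I₀ : Ideal (PolyRing k₀)) : Prop :=
  ∃ (R : Type) (_ : CommRing R) (_ : IsLocalRing R) (J : Ideal (PolyRing R)) (a : R →+* k₁)
    (b : k₀ →+* ResidueField R),
    IsHom J ∧ (∃ T : ℕ, ∀ t ≥ T, Module.Flat R (Piece J t)) ∧ Function.Injective a ∧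
      SameScheme (J.map (MvPolynomial.map a)) I₁ ∧
      SameScheme (J.map (MvPolynomial.map (residue R))) (I₀.map (MvPolynomial.map b))

/-- The closed subscheme of `ℙ³` over `k` defined by `I` is a specialisation of a closed subscheme
of `ℙ³` over a field of characteristic zero. -/
def LiftsToCharZero {k : Type} [Field k] (I : Ideal (PolyRing k)) : Prop :=
  ∃ (K : Type) (_ : Field K) (_ : CharZero K) (I' : Ideal (PolyRing K)),
    IsHom I' ∧ Specializes I' I

end C21Spec
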