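import Pool.Agent.Work.MP_c21e2e_ag_helper46.SpecProof

namespace Pool.Agent.Work.C21

open MvPolynomial Module IsLocalRing C21Spec

theorem pc_eq_of_same {k : Type} [Field k] {I J : Ideal (S k)} {t : ℕ}
    (h : ∀ f : S k, f.IsHomogeneous t → (f ∈ I ↔ f ∈ J)) : pc I t = pc J t := by
  ext f
  rw [mem_pc, mem_pc]
  constructor
  · rintro ⟨h1, h2⟩; exact ⟨(h f h2).mp h1, h2⟩
  · rintro ⟨h1, h2⟩; exact ⟨(h f h2).mpr h1, h2⟩

/-- The trivial specialisation. -/
theorem specializes_refl {k : Type} [Field k] {I : Ideal (PolyRing k)} (hI : IsHom I) :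
    Specializes I I := by
  refine ⟨k, inferInstance, inferInstance, I, RingHom.id k, residue k, hI,
    ⟨0, fun t _ => inferInstance⟩, fun _ _ h => h, ⟨0, fun t _ f _ => ?_⟩,
    ⟨0, fun t _ f _ => Iff.rfl⟩⟩
  have e : MvPolynomial.map (RingHom.id k) = RingHom.id (PolyRing k) :=
    RingHom.ext fun p => MvPolynomial.map_id p
  rw [e, Ideal.map_id]

theorem no_chain_spec {k₀ : Type} [Field k₀] [CharP k₀ 2] {g : k₀} (hg : g ^ 3 = g + 1)
    (n n' : ℕ) (hn : n % 7 = 3) (hn' : n' % 7 = 5) (h834 : 834 ≤ n) (h834' : 834 ≤ n')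
    {k₁ : Type} [Field k₁] {I₁ : Ideal (PolyRing k₁)} (hI₁ : IsHom I₁)
    (h : Specializes I₁ (⨅ c, cQ g n n' c)) : ¬ LiftsToCharZero I₁ := by
  rintro ⟨k₂, _, _, I₂, _, h'⟩
  obtain ⟨R₀, _, _, J₀, a₀, b₀, hJ₀, ⟨T1, hT1⟩, _, ⟨T2, hT2⟩, ⟨T3, hT3⟩⟩ := h
  obtain ⟨R₁, _, _, J₁, a₁, b₁, hJ₁, ⟨T4, hT4⟩, _, _, ⟨T5, hT5⟩⟩ := h'
  exact no_chain hg n n' hn hn' h834 h834' hJ₀ (T₀ := T1 + T2 + T3)
    (fun t ht => hT1 t (by omega)) a₀ b₀ hI₁
    (fun t ht => pc_eq_of_same (hT2 t (by omega))) (fun t ht => pc_eq_of_same (hT3 t (by omega)))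
    hJ₁ (T₁ := T4 + T5) (fun t ht => hT4 t (by omega)) a₁ b₁
    (fun t ht => pc_eq_of_same (hT5 t (by omega)))

theorem sum_value (t : ℕ) :
    ∑ c, (if Ln.dbl c = true then 2 * t + cn 836 838 c + 1 else t + 1) = 26 * t + 7543 := by
  have h1 : ∀ c, (if Ln.dbl c = true then 2 * t + cn 836 838 c + 1 else t + 1) =
      (if Ln.dbl c = true then 2 else 1) * t + (cn 836 838 c + 1) := by
    intro c
    cases c <;> simp [Ln.dbl, cn]
  rw [Finset.sum_congr rfl fun c _ => h1 c, Finset.sum_add_distrib, ← Finset.sum_mul]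
  have h2 : ∑ c : Ln, (if Ln.dbl c = true then 2 else 1) = 26 := by decide
  have h3 : ∑ c : Ln, (cn 836 838 c + 1) = 7543 := by decide
  rw [h2, h3]

theorem exists_g : ∃ g : AlgebraicClosure (ZMod 2), g ^ 3 = g + 1 := by
  obtain ⟨g, hg⟩ := IsAlgClosed.exists_root
    (Polynomial.X ^ 3 - Polynomial.X - 1 : Polynomial (AlgebraicClosure (ZMod 2))) (by
      have : (Polynomial.X ^ 3 - Polynomial.X - 1 :
        Polynomial (AlgebraicClosure (ZMod 2))).degree = 3 := by compute_degree!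
      rw [this]; norm_num)
  refine ⟨g, ?_⟩
  rw [Polynomial.IsRoot.def] at hg
  simp only [Polynomial.eval_sub, Polynomial.eval_pow, Polynomial.eval_X, Polynomial.eval_one] at hg
  linear_combination hg

/-- The main theorem. -/
theorem main : ∃ I : Ideal (PolyRing (AlgebraicClosure (ZMod 2))),
    IsHom I ∧ HasHilbertPoly I 26 (-7454) ∧ ¬ LiftsToCharZero I ∧
      ∀ (k : Type) [Field k] (I₁ : Ideal (PolyRing k)), IsHom I₁ → Specializes I₁ I →
        ¬ LiftsToCharZero I₁ := by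
  obtain ⟨g, hg⟩ := exists_g
  have hG : IsHom (⨅ c, cQ g 836 838 c) := GH.iInf (c_gQ g 836 838)
  have hc : CharP (AlgebraicClosure (ZMod 2)) 2 :=
    charP_of_injective_algebraMap (algebraMap (ZMod 2) (AlgebraicClosure (ZMod 2))).injective 2
  refine ⟨⨅ c, cQ g 836 838 c, hG, ?_, ?_, ?_⟩
  · obtain ⟨T, hT⟩ := hf_cQ hg 836 838 (by norm_num) (by norm_num) (by norm_num) (by norm_num)
    refine ⟨T, fun t ht => ?_⟩
    have h1 := hT t ht
    rw [sum_value, hf_eq_finrank_piece] at h1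
    have h2 : finrank (AlgebraicClosure (ZMod 2)) (C21Spec.Piece (⨅ c, cQ g 836 838 c) t) =
        26 * t + 7455 := by
      have : finrank (AlgebraicClosure (ZMod 2)) (C21Spec.Piece (⨅ c, cQ g 836 838 c) t) + 88 =
        26 * t + 7543 := h1
      omega
    rw [h2]
    push_cast
    ring
  · exact no_chain_spec hg 836 838 (by norm_num) (by norm_num) (by norm_num) (by norm_num) hG
      (specializes_refl hG)
  · intro k _ I₁ hI₁ h
    exact no_chain_spec hg 836 838 (by norm_num) (by norm_num) (by norm_num) (by norm_num) hI₁ h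

end Pool.Agent.Work.C21
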