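import Pool.Agent.Work.MP_c21e2e_ag_helper46.SpecDefs
import Pool.Agent.Work.MP_c21e2e_ag_helper46.MainK
import Pool.Agent.Work.MP_c21e2e_ag_helper46.BaseChange
import Pool.Agent.Work.MP_c21e2e_ag_helper46.Funct
import Pool.Agent.Work.MP_c21e2e_ag_helper46.Composite

namespace Pool.Agent.Work.C21

open MvPolynomial Module IsLocalRing

/-! ### Families over local rings dominated by valuation rings -/

section Family

variable {R : Type*} [CommRing R] [IsLocalRing R] {K : Type*} [Field K]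

/-- The reduction of the generic fibre of a flat family is the closed fibre. -/
theorem exists_reduction {J : Ideal (MvPolynomial (Fin 4) R)} (hJ : GHR J) {T : ℕ}
    (hflat : ∀ t ≥ T, Module.Flat R (Piece J t)) (f : R →+* K) :
    ∃ (A : ValuationSubring K) (θ : ResidueField R →+* ResidueField A), ∀ t ≥ T,
      pc (redI A (J.map (MvPolynomial.map f))) t =
        pc ((J.map (MvPolynomial.map (residue R))).map (MvPolynomial.map θ)) t := by
  obtain ⟨A, hA, hloc⟩ := IsLocalRing.exists_factor_valuationRing f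
  let f' : R →+* A := f.codRestrict A.toSubring hA
  have hloc' : IsLocalHom f' := hloc
  refine ⟨A, ResidueField.map f', fun t ht => ?_⟩
  set θ := ResidueField.map f' with hθ
  have h1 : (J.map (MvPolynomial.map (residue R))).map (MvPolynomial.map θ) =
      J.map (MvPolynomial.map (θ.comp (residue R))) := by
    rw [Ideal.map_map]
    congr 1
    ext
    · simp
    · simp
  rw [h1]
  symm
  apply pc_eq_of_le_of_hf
  · rw [Ideal.map_le_iff_le_comap]
    intro j hj
    rw [Ideal.mem_comap, mem_redI]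
    refine ⟨MvPolynomial.map f' j, ?_, ?_⟩
    · have : inc A (MvPolynomial.map f' j) = MvPolynomial.map f j := by
        ext m
        rw [coeff_inc, coeff_map, coeff_map]
        rfl
      rw [this]
      exact Ideal.mem_map_of_mem _ hj
    · ext m
      rw [coeff_rho, coeff_map, coeff_map, RingHom.comp_apply, hθ, ResidueField.map_residue]
  · rw [hf_redI A (GH_map f hJ), hf_map_of_flat _ hJ t (hflat t ht),
      hf_map_of_flat _ hJ t (hflat t ht)]

end Family

section Chain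

variable {k₀ : Type*} [Field k₀] [CharP k₀ 2] {g : k₀}

/-- The exact Hilbert function. -/
theorem hf_cQ {κ : Type*} [Field κ] [CharP κ 2] {g : κ} (hg : g ^ 3 = g + 1) (n n' : ℕ)
    (hn : n % 7 = 3) (hn' : n' % 7 = 5) (h834 : 834 ≤ n) (h834' : 834 ≤ n') :
    ∃ T, ∀ t ≥ T, hf (⨅ c, cQ g n n' c) t + 88 =
      ∑ c, (if Ln.dbl c = true then 2 * t + cn n n' c + 1 else t + 1) :=
  (cfg hg n n' hn hn' h834 h834').hf_eq

/-- No chain of two specialisations from characteristic zero. -/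
theorem no_chain (hg : g ^ 3 = g + 1) (n n' : ℕ)
    (hn : n % 7 = 3) (hn' : n' % 7 = 5) (h834 : 834 ≤ n) (h834' : 834 ≤ n')
    {R₀ : Type*} [CommRing R₀] [IsLocalRing R₀] {J₀ : Ideal (MvPolynomial (Fin 4) R₀)}
    (hJ₀ : GHR J₀) {T₀ : ℕ} (hflat₀ : ∀ t ≥ T₀, Module.Flat R₀ (Piece J₀ t))
    {k₁ : Type*} [Field k₁] (a₀ : R₀ →+* k₁) (b₀ : k₀ →+* ResidueField R₀) {I₁ : Ideal (S k₁)}
    (hI₁ : GH I₁) (hgen₀ : ∀ t ≥ T₀, pc (J₀.map (MvPolynomial.map a₀)) t = pc I₁ t)
    (hsp₀ : ∀ t ≥ T₀, pc (J₀.map (MvPolynomial.map (residue R₀))) t =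
      pc ((⨅ c, cQ g n n' c).map (MvPolynomial.map b₀)) t)
    {R₁ : Type*} [CommRing R₁] [IsLocalRing R₁] {J₁ : Ideal (MvPolynomial (Fin 4) R₁)}
    (hJ₁ : GHR J₁) {T₁ : ℕ} (hflat₁ : ∀ t ≥ T₁, Module.Flat R₁ (Piece J₁ t))
    {k₂ : Type*} [Field k₂] [CharZero k₂] (a₁ : R₁ →+* k₂) (b₁ : k₁ →+* ResidueField R₁)
    (hsp₁ : ∀ t ≥ T₁, pc (J₁.map (MvPolynomial.map (residue R₁))) t =
      pc (I₁.map (MvPolynomial.map b₁)) t) : False := by
  let K := AlgebraicClosure k₂
  have hK2 : (2 : K) ≠ 0 := by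
    have : CharZero K := charZero_of_injective_algebraMap (algebraMap k₂ K).injective
    exact two_ne_zero
  let f₁ : R₁ →+* K := (algebraMap k₂ K).comp a₁
  obtain ⟨A, θ₁, hA⟩ := exists_reduction hJ₁ hflat₁ f₁
  set IK : Ideal (S K) := J₁.map (MvPolynomial.map f₁) with hIK
  have hGIK : GH IK := GH_map f₁ hJ₁
  let f₀ : R₀ →+* ResidueField A := (θ₁.comp b₁).comp a₀
  -- the reduction over `A`
  have h1 : ∀ t ≥ T₀ + T₁, pc (redI A IK) t = pc (J₀.map (MvPolynomial.map f₀)) t := by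
    intro t ht
    rw [hA t (by omega)]
    have e1 := pc_map_eq θ₁ (GH_map (residue R₁) hJ₁) (GH_map b₁ hI₁) (hsp₁ t (by omega))
    have e2 := pc_map_eq (θ₁.comp b₁) (GH_map a₀ hJ₀) hI₁ (hgen₀ t (by omega))
    have e3 : (I₁.map (MvPolynomial.map b₁)).map (MvPolynomial.map θ₁) =
        I₁.map (MvPolynomial.map (θ₁.comp b₁)) := by
      rw [Ideal.map_map]
      congr 1
      ext
      · simp
      · simp
    have e4 : (J₀.map (MvPolynomial.map a₀)).map (MvPolynomial.map (θ₁.comp b₁)) =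
        J₀.map (MvPolynomial.map f₀) := by
      rw [Ideal.map_map]
      congr 1
      ext
      · simp [f₀]
      · simp
    rw [e1, e3, ← e2, e4]
  obtain ⟨O, θ₀, hO⟩ := exists_reduction hJ₀ hflat₀ f₀
  set I₀ : Ideal (S k₀) := ⨅ c, cQ g n n' c with hI₀
  have hGI₀ : GH I₀ := GH.iInf (c_gQ g n n')
  let ψ : k₀ →+* ResidueField O := θ₀.comp b₀
  have hchar : CharP (ResidueField O) 2 := charP_of_injective_ringHom ψ.injective 2
  have hg'' : (ψ g) ^ 3 = ψ g + 1 := by rw [← map_pow, hg, map_add, map_one]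
  obtain ⟨T₂, hT₂⟩ := hf_cQ hg n n' hn hn' h834 h834'
  obtain ⟨T₃, hT₃⟩ := hf_cQ hg'' n n' hn hn' h834 h834'
  -- the reduction over `O`
  have h2 : ∀ t ≥ T₀ + T₁ + T₂ + T₃, pc (redI O (redI A IK)) t =
      pc (⨅ c, cQ (ψ g) n n' c) t := by
    intro t ht
    rw [pc_redI O (GH_redI A hGIK), h1 t (by omega), ← pc_redI O (GH_map f₀ hJ₀),
      hO t (by omega)]
    have e1 := pc_map_eq θ₀ (GH_map (residue R₀) hJ₀) (GH_map b₀ hGI₀) (hsp₀ t (by omega))
    have e3 : (I₀.map (MvPolynomial.map b₀)).map (MvPolynomial.map θ₀) =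
        I₀.map (MvPolynomial.map ψ) := by
      rw [Ideal.map_map]
      congr 1
      ext
      · simp [ψ]
      · simp
    rw [e1, e3]
    apply pc_eq_of_le_of_hf
    · rw [Ideal.map_le_iff_le_comap]
      intro F hF
      rw [Ideal.mem_comap, iInf_cQ_map]
      exact hF
    · rw [hf_map_field ψ hGI₀]
      have h3 := hT₂ t (by omega)
      have h4 := hT₃ t (by omega)
      rw [hI₀]
      omega
  -- the composite valuation ring
  obtain ⟨g', hg'⟩ := compTheta_surjective A O (ψ g)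
  have hinj : Function.Injective (compTheta A O) := (compTheta A O).injective
  have hcharB : CharP (ResidueField (compV A O)) 2 := RingHom.charP (compTheta A O) hinj 2
  have hg3 : g' ^ 3 = g' + 1 := by
    apply hinj
    rw [map_pow, map_add, map_one, hg', hg'']
  obtain ⟨T₄, hT₄⟩ := hf_cQ hg3 n n' hn hn' h834 h834'
  refine main_K hK2 (compV A O) hg3 n n' hn hn' h834 h834' hGIK ⟨T₀ + T₁ + T₂ + T₃ + T₄, fun t ht => ?_⟩
  have h5 : pc (redI (compV A O) IK) t ≤ pc (⨅ c, cQ g' n n' c) t := by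
    intro F hF
    rw [mem_pc] at hF ⊢
    refine ⟨?_, hF.2⟩
    have h6 : MvPolynomial.map (compTheta A O) F ∈ pc (redI O (redI A IK)) t := by
      rw [mem_pc]
      exact ⟨map_redI_compV A O hF.1, hF.2.map _⟩
    rw [h2 t (by omega), mem_pc, ← hg', iInf_cQ_map] at h6
    exact h6.1
  apply Submodule.eq_of_le_of_finrank_le h5
  have h6 : hf (redI (compV A O) IK) t = hf (⨅ c, cQ g' n n' c) t := by
    have e1 := hf_eq_of_pc_eq (h2 t (by omega))
    rw [hf_redI O (GH_redI A hGIK), hf_redI A hGIK] at e1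
    rw [hf_redI (compV A O) hGIK, e1]
    have h3 := hT₃ t (by omega)
    have h4 := hT₄ t (by omega)
    omega
  have h7 := hf_add_dd (redI (compV A O) IK) t
  have h8 := hf_add_dd (⨅ c, cQ g' n n' c) t
  unfold dd at h7 h8
  omega

end Chain

end Pool.Agent.Work.C21
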