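import Pool.Agent.Work.MP_c21e2e_ag_helper46.KSide2
import Pool.Agent.Work.MP_c21e2e_ag_helper46.Exact

namespace Pool.Agent.Work.C21

open MvPolynomial Module IsLocalRing

variable {K : Type*} [Field K] [IsAlgClosed K] {A : ValuationSubring K} {C : Type*} [Fintype C]
  [DecidableEq C] {X : Cfg (ResidueField A) C}

/-- The lifted configuration. -/
structure Lifted (A : ValuationSubring K) (X : Cfg (ResidueField A) C) where
  p : C → Ideal (S K)
  q : C → Ideal (S K)
  prime : ∀ c, (p c).IsPrime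
  gp : ∀ c, GH (p c)
  gq : ∀ c, GH (q c)
  hfp : ∀ c t, hf (p c) t = t + 1
  red : ∀ c, redI A (p c) = X.P c
  sq : ∀ c, p c ^ 2 ≤ q c
  redq : ∀ c, redI A (q c) ≤ X.Q c
  qeq : ∀ c, X.dbl c = false → q c = p c

theorem exists_lifted {I : Ideal (S K)} (hI : GH I) (hX : X.Cont (redI A I)) (hLB : LB I 26) :
    ∃ Y : Lifted A X, I ≤ ⨅ c, Y.q c := by
  choose p h1 h2 h3 using exists_PP hI hX hLB
  refine ⟨⟨p, fun c => QQ I (p c), fun c => (h1 c).1, fun c => (h1 c).2.1,
    fun c => GH_QQ (h1 c).1 hI, fun c t => hf_PP_eq hI hX hLB (h1 c) (h2 c) t,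
    fun c => redI_PP_eq hI hX hLB (h1 c) (h2 c), fun c => sq_le_QQ hI hX hLB (h1 c) (h2 c),
    fun c => redI_QQ_le hI hX hLB (h1 c) (h2 c), ?_⟩, ?_⟩
  · intro c hd
    apply le_antisymm (QQ_le (h1 c).1 (h1 c).2.2.1)
    by_contra hc
    have := (QQ_ne_iff hI hX hLB (h1 c) (h2 c)).mpr hc
    rw [hd] at this
    exact Bool.noConfusion this
  · exact le_iInf fun c => le_QQ (h1 c).1

namespace Lifted

variable (Y : Lifted A X)

omit [IsAlgClosed K] in
theorem mm_le_of_mm_le {c c' : C} (h : mm (ResidueField A) ≤ X.P c ⊔ X.P c') :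
    mm K ≤ Y.p c ⊔ Y.p c' := by
  apply mm_le_of_hf_one
  rw [← hf_redI A ((Y.gp c).sup (Y.gp c'))]
  have h1 : X.P c ⊔ X.P c' ≤ redI A (Y.p c ⊔ Y.p c') := by
    rw [← Y.red c, ← Y.red c']
    exact sup_le (redI_mono A le_sup_left) (redI_mono A le_sup_right)
  have h2 : mm (ResidueField A) ^ 1 ≤ redI A (Y.p c ⊔ Y.p c') := by
    rw [pow_one]; exact h.trans h1
  exact hf_of_mm_pow h2 le_rfl

omit [IsAlgClosed K] in
/-- Distinct lines have distinct linear forms. -/
theorem exists_lin {c c' : C} (h : c ≠ c') : ∃ l : S K, l.IsHomogeneous 1 ∧ l ∈ Y.p c' ∧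
    l ∉ Y.p c := by
  by_contra hcon
  push Not at hcon
  obtain ⟨l, hl1, hl2, hl3⟩ := X.lin c c' h
  apply hl3
  have h1 : pc (Y.p c') 1 ≤ pc (Y.p c) 1 := by
    intro x hx
    rw [mem_pc] at hx ⊢
    exact ⟨hcon x hx.2 hx.1, hx.2⟩
  have h2 : l ∈ pc (X.P c') 1 := by rw [mem_pc]; exact ⟨hl2, hl1⟩
  rw [← Y.red c', pc_redI A (Y.gp c')] at h2
  have h3 := redV_mono A h1 h2
  rw [← pc_redI A (Y.gp c), Y.red c, mem_pc] at h3
  exact h3.1

omit [IsAlgClosed K] in
/-- Lower bound for the Hilbert function of the lifted configuration. -/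
theorem hf_lower_lifted : ∃ T, ∀ t ≥ T,
    ∑ c, (if X.dbl c = true then 2 * t + X.n c + 1 else t + 1) ≤
      hf (⨅ c, Y.q c) t +
        2 * ∑ j ∈ Finset.univ.filter (fun j => X.dbl j = false), cm X.dbl Y.p j := by
  apply lower_general X.dbl X.n Y.p Y.q Y.prime Y.gp Y.gq Y.hfp Y.sq
    (fun c c' h => Y.exists_lin h)
    (fun c c' h h1 h2 => Y.mm_le_of_mm_le (X.skew c c' h (h1.trans h2.symm))) Y.qeq
  set ι := Finset.univ.filter (fun i => X.dbl i = true) with hι
  obtain ⟨T, hT⟩ := X.base_bound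
  refine ⟨T, fun t ht => (hT t ht).trans ?_⟩
  have hG : GH (⨅ c ∈ ι, Y.q c) := GH.iInf fun c => GH.iInf fun _ => Y.gq c
  rw [← hf_redI A hG]
  apply hf_anti
  refine le_iInf fun c => le_iInf fun hc => ?_
  refine (redI_mono A ?_).trans (Y.redq c)
  exact iInf_le_of_le c (iInf_le _ hc)

omit [IsAlgClosed K] in
/-- All incidences persist. -/
theorem meets {I : Ideal (S K)} (hIq : I ≤ ⨅ c, Y.q c)
    (hfI : ∃ T, ∀ t ≥ T, hf I t = hf (⨅ c, X.Q c) t) (i j : C) (hi : X.dbl i = true)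
    (hj : X.dbl j = false) (hij : X.inc i j = true) : ¬ mm K ≤ Y.p i ⊔ Y.p j := by
  classical
  obtain ⟨T1, hT1⟩ := Y.hf_lower_lifted
  obtain ⟨T2, hT2⟩ := hfI
  obtain ⟨T3, hT3⟩ := X.hfX
  set T := max T1 (max T2 T3) with hT
  have h1 := hT1 T (le_max_left _ _)
  have h2 := hT2 T ((le_max_left _ _).trans (le_max_right _ _))
  have h3 := hT3 T ((le_max_right _ _).trans (le_max_right _ _))
  have h4 := hf_anti hIq T
  have h5 : 44 ≤ ∑ j ∈ Finset.univ.filter (fun j => X.dbl j = false), cm X.dbl Y.p j := by omega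
  intro hm
  have h6 : ∀ j ∈ Finset.univ.filter (fun j => X.dbl j = false), cm X.dbl Y.p j ≤
      (Finset.univ.filter (fun i => X.dbl i = true ∧ X.inc i j = true)).card := by
    intro j hj
    rw [Finset.mem_filter] at hj
    unfold cm
    apply Finset.card_le_card
    intro i hi
    rw [Finset.mem_filter] at hi ⊢
    refine ⟨hi.1, hi.2.1, ?_⟩
    by_contra hc
    rw [Bool.not_eq_true] at hc
    exact hi.2.2 (Y.mm_le_of_mm_le (X.noninc i j hi.2.1 hj.2 hc))
  have h7 : ∑ j ∈ Finset.univ.filter (fun j => X.dbl j = false), cm X.dbl Y.p j <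
      ∑ j ∈ Finset.univ.filter (fun j => X.dbl j = false),
        (Finset.univ.filter (fun i => X.dbl i = true ∧ X.inc i j = true)).card := by
    apply Finset.sum_lt_sum h6
    refine ⟨j, by rw [Finset.mem_filter]; exact ⟨Finset.mem_univ _, hj⟩, ?_⟩
    unfold cm
    apply Finset.card_lt_card
    rw [Finset.ssubset_iff_of_subset]
    · refine ⟨i, ?_, ?_⟩
      · rw [Finset.mem_filter]; exact ⟨Finset.mem_univ _, hi, hij⟩
      · rw [Finset.mem_filter]; exact fun h => h.2.2 hm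
    · intro i hi
      rw [Finset.mem_filter] at hi ⊢
      refine ⟨hi.1, hi.2.1, ?_⟩
      by_contra hc
      rw [Bool.not_eq_true] at hc
      exact hi.2.2 (Y.mm_le_of_mm_le (X.noninc i j hi.2.1 hj hc))
  rw [X.hinc] at h7
  omega

/-- The space of linear forms of a lifted line. -/
noncomputable def U (c : C) : Submodule K (gr K 1) := (pc (Y.p c) 1).comap (gr K 1).subtype

omit [IsAlgClosed K] in
theorem finrank_U (c : C) : finrank K (Y.U c) = 2 := by
  have h1 : (Y.U c).map (gr K 1).subtype = pc (Y.p c) 1 := by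
    unfold U
    rw [Submodule.map_comap_subtype, inf_eq_right]
    exact pc_le_gr _ _
  have h2 := Submodule.finrank_map_subtype_eq (gr K 1) (Y.U c)
  rw [h1] at h2
  rw [← h2]
  have h3 := hf_add_dd (Y.p c) 1
  rw [Y.hfp, nn_one] at h3
  unfold dd at h3
  omega

omit [IsAlgClosed K] in
theorem finrank_gr_one : finrank K (gr K 1) = 4 := nn_one

omit [IsAlgClosed K] in
theorem U_inf_eq_bot_iff (c c' : C) : Y.U c ⊓ Y.U c' = ⊥ ↔ mm K ≤ Y.p c ⊔ Y.p c' := by
  have h1 := Submodule.finrank_sup_add_finrank_inf_eq (Y.U c) (Y.U c')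
  rw [Y.finrank_U, Y.finrank_U] at h1
  have h2 : (Y.U c ⊔ Y.U c').map (gr K 1).subtype = pc (Y.p c ⊔ Y.p c') 1 := by
    rw [Submodule.map_sup, pc_sup (Y.gp c) (Y.gp c')]
    congr 1
    · unfold U; rw [Submodule.map_comap_subtype, inf_eq_right]; exact pc_le_gr _ _
    · unfold U; rw [Submodule.map_comap_subtype, inf_eq_right]; exact pc_le_gr _ _
  have h3 := Submodule.finrank_map_subtype_eq (gr K 1) (Y.U c ⊔ Y.U c')
  rw [h2] at h3
  have h4 := hf_add_dd (Y.p c ⊔ Y.p c') 1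
  rw [nn_one] at h4
  unfold dd at h4
  constructor
  · intro h
    rw [h, finrank_bot] at h1
    apply mm_le_of_hf_one
    omega
  · intro h
    have h5 : hf (Y.p c ⊔ Y.p c') 1 = 0 :=
      hf_of_mm_pow (N := 1) (by rw [pow_one]; exact h) le_rfl
    rw [← Submodule.finrank_eq_zero (R := K)]
    omega

end Lifted

end Pool.Agent.Work.C21
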