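import Pool.Agent.Work.MP_c21e2e_ag_helper46.DLine

namespace Pool.Agent.Work.C21

open MvPolynomial Module

variable {K : Type*} [Field K]

/-- Double roots via dual numbers. -/
theorem double_root {p : Polynomial K} {T0 : K}
    (h : Polynomial.aeval (TrivSqZeroExt.inl T0 + TrivSqZeroExt.inr 1 : DualNumber K) p = 0) :
    (Polynomial.X - Polynomial.C T0) ^ 2 ∣ p := by
  obtain ⟨f1, hf1⟩ : ∃ f1, p = (Polynomial.X - Polynomial.C T0) * f1 + Polynomial.C (p.eval T0) := by
    obtain ⟨q, hq⟩ := Polynomial.X_sub_C_dvd_sub_C_eval (a := T0) (p := p)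
    exact ⟨q, by rw [← hq]; ring⟩
  obtain ⟨f2, hf2⟩ : ∃ f2, f1 = (Polynomial.X - Polynomial.C T0) * f2 +
      Polynomial.C (f1.eval T0) := by
    obtain ⟨q, hq⟩ := Polynomial.X_sub_C_dvd_sub_C_eval (a := T0) (p := f1)
    exact ⟨q, by rw [← hq]; ring⟩
  rw [hf1, hf2] at h
  simp only [map_add, map_mul, map_sub, Polynomial.aeval_X, Polynomial.aeval_C] at h
  have e1 : (TrivSqZeroExt.inl T0 + TrivSqZeroExt.inr 1 : DualNumber K) -
      algebraMap K (DualNumber K) T0 = TrivSqZeroExt.inr 1 := by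
    rw [TrivSqZeroExt.algebraMap_eq_inl]; simp
  rw [e1] at h
  have h1 := congrArg TrivSqZeroExt.fst h
  have h2 := congrArg TrivSqZeroExt.snd h
  simp [TrivSqZeroExt.algebraMap_eq_inl] at h1 h2
  rw [hf1, h1, hf2, h2]
  simp only [map_zero, add_zero]
  exact ⟨f2, by ring⟩

/-- The first two coefficients at infinity. -/
theorem infinity_root {G : R2 K} {m : ℕ} (hG : G.IsHomogeneous (m + 1))
    (h : aeval ![(TrivSqZeroExt.inr 1 : DualNumber K), 1] G = 0) :
    (dh G).coeff (m + 1) = 0 ∧ (dh G).coeff m = 0 := by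
  rw [← hmg_dh hG, hmg_apply, map_sum, Finset.sum_range_succ, Finset.sum_range_succ] at h
  have h0 : ∑ b ∈ Finset.range m, aeval ![(TrivSqZeroExt.inr 1 : DualNumber K), 1]
      (C ((dh G).coeff b) * (X 0 ^ (m + 1 - b) * X 1 ^ b) : R2 K) = 0 := by
    apply Finset.sum_eq_zero
    intro b hb
    rw [Finset.mem_range] at hb
    obtain ⟨k, hk⟩ := Nat.exists_eq_add_of_le' (show 2 ≤ m + 1 - b by omega)
    have e : (TrivSqZeroExt.inr 1 : DualNumber K) ^ 2 = 0 := by
      rw [pow_two, TrivSqZeroExt.inr_mul_inr]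
    rw [hk, map_mul, map_mul, map_pow, map_pow, aeval_X, aeval_X]
    simp only [Matrix.cons_val_zero]
    rw [pow_add, e]
    ring
  rw [h0, zero_add] at h
  have e1 : m + 1 - m = 1 := by omega
  rw [e1, Nat.sub_self] at h
  simp only [map_mul, map_pow, aeval_X, aeval_C, Matrix.cons_val_zero, Matrix.cons_val_one,
    pow_one, pow_zero, one_pow, mul_one, TrivSqZeroExt.algebraMap_eq_inl] at h
  have h1 := congrArg TrivSqZeroExt.fst h
  have h2 := congrArg TrivSqZeroExt.snd h
  simp at h1 h2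
  exact ⟨h1, h2⟩

namespace DoubleData

variable (D : DoubleData K)

/-- Evaluation of the double structure at a point of the line. -/
theorem aeval_dual (u v : K) (F : S K) :
    aeval (fun i => (TrivSqZeroExt.inl (eval ![u, v] (D.E i)) +
      TrivSqZeroExt.inr (eval ![u, v] (D.w i)) : DualNumber K)) F =
    TrivSqZeroExt.inl (eval ![u, v] (D.ev F)) + TrivSqZeroExt.inr (eval ![u, v] (D.del F)) := by
  induction F using MvPolynomial.induction_on with
  | C a =>
    have h1 : D.del (C a) = 0 := D.del_hom_zero (isHomogeneous_C _ _)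
    have h2 : D.ev (C a) = C a := by rw [LineData.ev, aeval_C]; rfl
    rw [h1, h2, aeval_C]
    simp [TrivSqZeroExt.algebraMap_eq_inl]
  | add p q hp hq =>
    rw [map_add, hp, hq, map_add, map_add, map_add, map_add, TrivSqZeroExt.inl_add,
      TrivSqZeroExt.inr_add]
    ring
  | mul_X p i hp =>
    have h1 : D.ev (X i) = D.E i := by rw [LineData.ev, aeval_X]
    have h2 : D.del (X i) = D.w i := by
      rw [del_apply, Finset.sum_eq_single i]
      · rw [pderiv_X_self, map_one, mul_one]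
      · intro j _ hj
        rw [pderiv_X_of_ne (Ne.symm hj), map_zero, mul_zero]
      · intro h; exact absurd (Finset.mem_univ i) h
    rw [map_mul, hp, aeval_X, map_mul, D.del_mul, h1, h2]
    ext
    · simp
    · simp

theorem aeval_dual_eq_zero {F : S K} (hF : F ∈ D.Q) (u v : K) :
    aeval (fun i => (TrivSqZeroExt.inl (eval ![u, v] (D.E i)) +
      TrivSqZeroExt.inr (eval ![u, v] (D.w i)) : DualNumber K)) F = 0 := by
  rw [D.aeval_dual, hF.1, hF.2]
  simp

/-- Tangency at a finite point. -/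
theorem tangent {F : S K} (hF : F ∈ D.Q) (ℓ : LineData K) (u v T0 : K)
    (h : ∀ i, aeval ![(1 : DualNumber K), TrivSqZeroExt.inl T0 + TrivSqZeroExt.inr 1] (ℓ.E i) =
      TrivSqZeroExt.inl (eval ![u, v] (D.E i)) + TrivSqZeroExt.inr (eval ![u, v] (D.w i))) :
    (Polynomial.X - Polynomial.C T0) ^ 2 ∣ dh (ℓ.ev F) := by
  apply double_root
  have h1 : ((Polynomial.aeval (TrivSqZeroExt.inl T0 + TrivSqZeroExt.inr 1 : DualNumber K)).comp
      (dh.comp ℓ.ev)) = aeval (fun i => (TrivSqZeroExt.inl (eval ![u, v] (D.E i)) +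
      TrivSqZeroExt.inr (eval ![u, v] (D.w i)) : DualNumber K)) := by
    apply MvPolynomial.algHom_ext
    intro i
    rw [AlgHom.comp_apply, AlgHom.comp_apply, LineData.ev, aeval_X, aeval_X, ← h i]
    have h2 : (Polynomial.aeval (TrivSqZeroExt.inl T0 + TrivSqZeroExt.inr 1 : DualNumber K)).comp
        (dh (K := K)) =
        aeval ![(1 : DualNumber K), TrivSqZeroExt.inl T0 + TrivSqZeroExt.inr 1] := by
      apply MvPolynomial.algHom_ext
      intro j
      rw [AlgHom.comp_apply, dh, aeval_X, aeval_X]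
      fin_cases j
      · simp
      · simp
    exact congrArg (fun f => f (ℓ.E i)) h2
  have h3 := congrArg (fun f => f F) h1
  simp only [AlgHom.comp_apply] at h3
  rw [h3]
  exact D.aeval_dual_eq_zero hF u v

/-- Tangency at infinity. -/
theorem tangent_infinity {F : S K} (hF : F ∈ D.Q) (ℓ : LineData K) (u v : K) {m : ℕ}
    (hm : F.IsHomogeneous (m + 1))
    (h : ∀ i, aeval ![(TrivSqZeroExt.inr 1 : DualNumber K), 1] (ℓ.E i) =
      TrivSqZeroExt.inl (eval ![u, v] (D.E i)) + TrivSqZeroExt.inr (eval ![u, v] (D.w i))) :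
    (dh (ℓ.ev F)).coeff (m + 1) = 0 ∧ (dh (ℓ.ev F)).coeff m = 0 := by
  apply infinity_root (ℓ.ev_hom hm)
  have h1 : ((aeval ![(TrivSqZeroExt.inr 1 : DualNumber K), 1]).comp ℓ.ev) =
      aeval (fun i => (TrivSqZeroExt.inl (eval ![u, v] (D.E i)) +
      TrivSqZeroExt.inr (eval ![u, v] (D.w i)) : DualNumber K)) := by
    apply MvPolynomial.algHom_ext
    intro i
    rw [AlgHom.comp_apply, LineData.ev, aeval_X, aeval_X, ← h i]
  have h3 := congrArg (fun f => f F) h1
  simp only [AlgHom.comp_apply] at h3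
  rw [h3]
  exact D.aeval_dual_eq_zero hF u v

end DoubleData

/-- The upper bound for the restriction to a simple line. -/
theorem simple_step (ℓ : LineData K) {𝔟 : Ideal (S K)} {ι : Type*} (s : Finset ι)
    (r : ι → K) (hr : ∀ i ∈ s, ∀ j ∈ s, i ≠ j → r i ≠ r j)
    (h1 : ∀ F ∈ 𝔟, ∀ i ∈ s, (Polynomial.X - Polynomial.C (r i)) ^ 2 ∣ dh (ℓ.ev F))
    (h2 : ∀ F ∈ 𝔟, ∀ m, F.IsHomogeneous (m + 1) →
      (dh (ℓ.ev F)).coeff (m + 1) = 0 ∧ (dh (ℓ.ev F)).coeff m = 0)
    (t : ℕ) (ht : 2 * s.card + 2 ≤ t) :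
    hf (𝔟 ⊓ ℓ.P) t + 2 * (s.card + 1) ≤ hf 𝔟 t + (t + 1) := by
  classical
  obtain ⟨m, rfl⟩ := Nat.exists_eq_add_of_le' (show 1 ≤ t by omega)
  set ψ : S K →ₗ[K] Polynomial K := dh.toLinearMap ∘ₗ ℓ.ev.toLinearMap with hψ
  have h3 := finrank_map_add_inf_ker ψ (pc 𝔟 (m + 1))
  have e : (pc 𝔟 (m + 1) ⊓ LinearMap.ker ψ : Submodule K (S K)) = pc (𝔟 ⊓ ℓ.P) (m + 1) := by
    ext x
    rw [Submodule.mem_inf, LinearMap.mem_ker, mem_pc, mem_pc, Submodule.mem_inf, ℓ.mem_P]
    constructor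
    · rintro ⟨⟨a, b⟩, c⟩
      exact ⟨⟨a, dh_injective_on (ℓ.ev_hom b) c⟩, b⟩
    · rintro ⟨⟨a, b⟩, c⟩
      refine ⟨⟨a, c⟩, ?_⟩
      rw [hψ, LinearMap.comp_apply]
      change dh (ℓ.ev x) = 0
      rw [b, map_zero]
  rw [e] at h3
  set Dp : Polynomial K := ∏ i ∈ s, (Polynomial.X - Polynomial.C (r i)) ^ 2 with hDp
  have hmonic : Dp.Monic := Polynomial.monic_prod_of_monic _ _ fun i _ =>
    (Polynomial.monic_X_sub_C _).pow 2
  have hdeg : Dp.natDegree = 2 * s.card := by
    rw [hDp, Polynomial.natDegree_prod_of_monic _ _ fun i _ => (Polynomial.monic_X_sub_C _).pow 2]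
    simp [mul_comm]
  have h4 : (pc 𝔟 (m + 1)).map ψ ≤
      (Polynomial.degreeLT K (m - 2 * s.card)).map (LinearMap.mulLeft K Dp) := by
    rintro _ ⟨F, hF, rfl⟩
    rw [SetLike.mem_coe, mem_pc] at hF
    have hdvd : Dp ∣ dh (ℓ.ev F) := by
      apply Finset.prod_dvd_of_coprime
      · intro i hi j hj hij
        apply IsCoprime.pow
        apply Polynomial.isCoprime_X_sub_C_of_isUnit_sub
        rw [isUnit_iff_ne_zero, sub_ne_zero]
        exact hr i hi j hj hij
      · exact fun i hi => h1 F hF.1 i hi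
    obtain ⟨q, hq⟩ := hdvd
    refine ⟨q, ?_, ?_⟩
    · rw [SetLike.mem_coe, Polynomial.mem_degreeLT]
      by_cases hq0 : q = 0
      · rw [hq0, Polynomial.degree_zero]; exact WithBot.bot_lt_coe _
      · rw [← Polynomial.natDegree_lt_iff_degree_lt hq0]
        obtain ⟨c1, c2⟩ := h2 F hF.1 m hF.2
        have h5 : (dh (ℓ.ev F)).natDegree = 2 * s.card + q.natDegree := by
          rw [hq, hmonic.natDegree_mul' hq0, hdeg]
        have h6 := dh_natDegree (ℓ.ev_hom hF.2)
        have hne : dh (ℓ.ev F) ≠ 0 := by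
          rw [hq]; exact mul_ne_zero hmonic.ne_zero hq0
        have h7 : (dh (ℓ.ev F)).natDegree ≠ m + 1 := by
          intro hh
          have := Polynomial.leadingCoeff_ne_zero.mpr hne
          rw [Polynomial.leadingCoeff, hh] at this
          exact this c1
        have h8 : (dh (ℓ.ev F)).natDegree ≠ m := by
          intro hh
          have := Polynomial.leadingCoeff_ne_zero.mpr hne
          rw [Polynomial.leadingCoeff, hh] at this
          exact this c2
        omega
    · exact hq.symm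
  have hfd : FiniteDimensional K (Polynomial.degreeLT K (m - 2 * s.card)) :=
    Module.Finite.equiv (Polynomial.degreeLTEquiv K (m - 2 * s.card)).symm
  have h5 := Submodule.finrank_mono h4
  have h6 := Submodule.finrank_map_le (LinearMap.mulLeft K Dp)
    (Polynomial.degreeLT K (m - 2 * s.card))
  have h7 : finrank K (Polynomial.degreeLT K (m - 2 * s.card)) = m - 2 * s.card := by
    rw [(Polynomial.degreeLTEquiv K (m - 2 * s.card)).finrank_eq]; simp
  have h8 := hf_add_dd 𝔟 (m + 1)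
  have h9 := hf_add_dd (𝔟 ⊓ ℓ.P) (m + 1)
  unfold dd at h8 h9
  omega

end Pool.Agent.Work.C21
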