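import Pool.Agent.Work.MP_c21e2e_ag_helper46.Primes

namespace Pool.Agent.Work.C21

open MvPolynomial Module

variable {K : Type*} [Field K]

/-- The irrelevant ideal. -/
noncomputable def mm (K : Type*) [Field K] : Ideal (S K) := MvPolynomial.idealOfVars (Fin 4) K

theorem mm_eq : mm K = Ideal.span (Set.range X) := rfl

theorem GH_mm : GH (mm K) := by
  rw [mm_eq]
  apply GH_span
  rintro _ ⟨i, rfl⟩
  exact ⟨1, isHomogeneous_X _ _⟩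

theorem mm_le_iff {𝔞 : Ideal (S K)} : mm K ≤ 𝔞 ↔ ∀ i, X i ∈ 𝔞 := by
  rw [mm_eq, Ideal.span_le]
  constructor
  · intro h i; exact h ⟨i, rfl⟩
  · rintro h _ ⟨i, rfl⟩; exact h i

theorem hom_mem_mm_pow {f : S K} {t N : ℕ} (hf' : f.IsHomogeneous t) (h : N ≤ t) :
    f ∈ mm K ^ N := by
  rw [mm, MvPolynomial.mem_pow_idealOfVars_iff']
  intro x hx
  by_contra hc
  have := hf' hc
  rw [Finsupp.degree_eq_weight_one] at hx
  change Finsupp.weight (1 : Fin 4 → ℕ) x < N at hx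
  omega

theorem gr_le_of_mm_pow {𝔞 : Ideal (S K)} {N : ℕ} (h : mm K ^ N ≤ 𝔞) {t : ℕ} (ht : N ≤ t) :
    gr K t ≤ pc 𝔞 t := by
  intro x hx
  rw [mem_pc]
  exact ⟨h (hom_mem_mm_pow hx ht), hx⟩

theorem hf_of_mm_pow {𝔞 : Ideal (S K)} {N : ℕ} (h : mm K ^ N ≤ 𝔞) {t : ℕ} (ht : N ≤ t) :
    hf 𝔞 t = 0 := by
  have h1 := Submodule.finrank_mono (gr_le_of_mm_pow h ht)
  have h2 := hf_add_dd 𝔞 t
  unfold dd nn at *
  omega

theorem Bdd_mm_pow (N : ℕ) : Bdd (mm K ^ N) :=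
  Bdd_of_eventually 0 N fun _ ht => (hf_of_mm_pow le_rfl ht).le

theorem pc_sup {𝔞 𝔟 : Ideal (S K)} (ha : GH 𝔞) (hb : GH 𝔟) (t : ℕ) :
    pc (𝔞 ⊔ 𝔟) t = pc 𝔞 t ⊔ pc 𝔟 t := by
  apply le_antisymm
  · intro x hx
    rw [mem_pc] at hx
    obtain ⟨a, ha', b, hb', hab⟩ := Submodule.mem_sup.mp hx.1
    have h1 : homogeneousComponent t x = x := homogeneousComponent_eq_self hx.2
    rw [← h1, ← hab, map_add]
    apply Submodule.add_mem_sup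
    · rw [mem_pc]; exact ⟨ha a ha' t, homogeneousComponent_isHomogeneous t _⟩
    · rw [mem_pc]; exact ⟨hb b hb' t, homogeneousComponent_isHomogeneous t _⟩
  · exact sup_le (pc_mono le_sup_left t) (pc_mono le_sup_right t)

theorem hf_inf_add_sup {𝔞 𝔟 : Ideal (S K)} (ha : GH 𝔞) (hb : GH 𝔟) (t : ℕ) :
    hf (𝔞 ⊓ 𝔟) t + hf (𝔞 ⊔ 𝔟) t = hf 𝔞 t + hf 𝔟 t := by
  have h1 := Submodule.finrank_sup_add_finrank_inf_eq (pc 𝔞 t) (pc 𝔟 t)
  have h4 : pc 𝔞 t ⊓ pc 𝔟 t = pc (𝔞 ⊓ 𝔟) t := by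
    ext x; simp only [Submodule.mem_inf, mem_pc]; tauto
  rw [h4, ← pc_sup ha hb] at h1
  have h5 := hf_add_dd (𝔞 ⊔ 𝔟) t
  have h6 := hf_add_dd 𝔞 t
  have h7 := hf_add_dd 𝔟 t
  have h8 := hf_add_dd (𝔞 ⊓ 𝔟) t
  unfold dd nn at *
  omega

theorem mem_pc_sup_span {𝔞 : Ideal (S K)} (ha : GH 𝔞) {f : S K} {c : ℕ} (hf' : f.IsHomogeneous c)
    {t : ℕ} {x : S K} (hx : x ∈ pc (𝔞 ⊔ Ideal.span {f}) (t + c)) :
    ∃ g : S K, g.IsHomogeneous t ∧ x - f * g ∈ 𝔞 := by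
  rw [mem_pc] at hx
  obtain ⟨a, ha', b, hb', hab⟩ := Submodule.mem_sup.mp hx.1
  obtain ⟨g, rfl⟩ := Ideal.mem_span_singleton'.mp hb'
  refine ⟨homogeneousComponent t g, homogeneousComponent_isHomogeneous t _, ?_⟩
  have h1 : homogeneousComponent (t + c) x = x := homogeneousComponent_eq_self hx.2
  rw [← h1, ← hab, map_add, comp_mul_right hf', mul_comm f]
  rw [add_sub_cancel_right]
  exact ha a ha' _

theorem hf_le_sup_span {𝔞 : Ideal (S K)} (ha : GH 𝔞) {f : S K} {c : ℕ} (hf' : f.IsHomogeneous c)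
    (t : ℕ) : hf 𝔞 (t + c) ≤ hf (𝔞 ⊔ Ideal.span {f}) (t + c) + hf 𝔞 t := by
  -- image of `pc (𝔞 ⊔ span f)` in the quotient
  have h3 := finrank_map_add_inf_ker (qk 𝔞) (pc (𝔞 ⊔ Ideal.span {f}) (t + c))
  have e : (pc (𝔞 ⊔ Ideal.span {f}) (t + c) ⊓ LinearMap.ker (qk 𝔞) : Submodule K (S K)) =
      pc 𝔞 (t + c) := by
    ext x
    rw [Submodule.mem_inf, mem_ker_qk, mem_pc, mem_pc]
    constructor
    · rintro ⟨⟨_, h2⟩, h3⟩; exact ⟨h3, h2⟩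
    · rintro ⟨h2, h3⟩; exact ⟨⟨Ideal.mem_sup_left h2, h3⟩, h2⟩
  rw [e] at h3
  have h1 := finrank_map_add_inf_ker ((qk 𝔞) ∘ₗ (LinearMap.mulLeft K f)) (gr K t)
  have h2 : dd 𝔞 t ≤ finrank K (gr K t ⊓
      LinearMap.ker ((qk 𝔞) ∘ₗ (LinearMap.mulLeft K f)) : Submodule K (S K)) := by
    apply Submodule.finrank_mono
    intro x hx
    rw [mem_pc] at hx
    rw [Submodule.mem_inf, LinearMap.mem_ker, LinearMap.comp_apply, ← LinearMap.mem_ker,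
      mem_ker_qk, LinearMap.mulLeft_apply]
    exact ⟨hx.2, 𝔞.mul_mem_left _ hx.1⟩
  have h4 : (pc (𝔞 ⊔ Ideal.span {f}) (t + c)).map (qk 𝔞) ≤
      (gr K t).map ((qk 𝔞) ∘ₗ (LinearMap.mulLeft K f)) := by
    rintro _ ⟨x, hx, rfl⟩
    obtain ⟨g, hg, hxg⟩ := mem_pc_sup_span ha hf' hx
    refine ⟨g, hg, ?_⟩
    rw [LinearMap.comp_apply, LinearMap.mulLeft_apply]
    rw [← sub_eq_zero, ← map_sub, ← LinearMap.mem_ker, mem_ker_qk]
    rw [← neg_sub]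
    exact neg_mem hxg
  have h5 := Submodule.finrank_mono h4
  have h6 := hf_add_dd 𝔞 (t + c)
  have h7 := hf_add_dd (𝔞 ⊔ Ideal.span {f}) (t + c)
  have h8 := hf_add_dd 𝔞 t
  unfold dd nn at *
  omega

/-- Colon ideal. -/
def colon (𝔟 𝔡 : Ideal (S K)) : Ideal (S K) where
  carrier := {x | ∀ p ∈ 𝔡, x * p ∈ 𝔟}
  add_mem' := by
    intro x y hx hy p hp
    rw [add_mul]; exact add_mem (hx p hp) (hy p hp)
  zero_mem' := by intro p _; rw [zero_mul]; exact zero_mem _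
  smul_mem' := by
    intro c x hx p hp
    rw [smul_eq_mul, mul_assoc]; exact 𝔟.mul_mem_left _ (hx p hp)

theorem mem_colon {𝔟 𝔡 : Ideal (S K)} {x : S K} : x ∈ colon 𝔟 𝔡 ↔ ∀ p ∈ 𝔡, x * p ∈ 𝔟 := Iff.rfl

theorem le_colon (𝔟 𝔡 : Ideal (S K)) : 𝔟 ≤ colon 𝔟 𝔡 := fun _ hx _ _ => 𝔟.mul_mem_right _ hx

theorem GH_colon {𝔟 𝔡 : Ideal (S K)} (hb : GH 𝔟) (hd : GH 𝔡) : GH (colon 𝔟 𝔡) := by
  intro x hx n p hp
  have h1 : homogeneousComponent n x * p =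
      ∑ i ∈ Finset.range (p.totalDegree + 1), homogeneousComponent n x *
        homogeneousComponent i p := by
    rw [← Finset.mul_sum, sum_homogeneousComponent]
  rw [h1]
  refine Ideal.sum_mem _ fun i _ => ?_
  rw [← comp_mul_right (homogeneousComponent_isHomogeneous i p)]
  exact hb _ (hx _ (hd p hp i)) _

/-- The bound from a bounded colon ideal. -/
theorem UB_of_colon {𝔟 𝔡 : Ideal (S K)} (h : 𝔟 ≤ 𝔡) (hd : GH 𝔡) (hc : Bdd (colon 𝔟 𝔡)) :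
    ∃ C, ∀ t, hf 𝔟 t ≤ hf 𝔡 t + C := by
  obtain ⟨s, hs, hgen⟩ := hd.exists_gens
  obtain ⟨C, hC⟩ := hc
  refine ⟨s.card * C, fun t => ?_⟩
  have h1 := hf_upper h (fun p hp => (hs p hp).2) hgen (𝔠 := colon 𝔟 𝔡) (by
    intro p hp x hx
    rw [mul_comm]
    exact hx _ (hs p hp).1) t
  have h2 : ∑ p ∈ s, hf (colon 𝔟 𝔡) (t - p.2) ≤ s.card * C := by
    refine (Finset.sum_le_card_nsmul s _ C fun p _ => hC _).trans ?_
    rw [smul_eq_mul]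
  omega

/-- Products of sums. -/
theorem prod_sup_le {ι : Type*} (s : Finset ι) (q : ι → Ideal (S K)) (d : Ideal (S K)) :
    ∏ i ∈ s, (q i ⊔ d) ≤ (∏ i ∈ s, q i) ⊔ d := by
  classical
  induction s using Finset.induction_on with
  | empty => simp
  | insert a s ha ih =>
    rw [Finset.prod_insert ha, Finset.prod_insert ha]
    refine (Ideal.mul_mono_right ih).trans ?_
    rw [Ideal.sup_mul, Ideal.mul_sup]
    have h1 : q a * d ≤ d := Ideal.mul_le_right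
    have h2 : d * ((∏ i ∈ s, q i) ⊔ d) ≤ d := Ideal.mul_le_left
    exact sup_le (sup_le le_sup_left (le_trans h1 le_sup_right)) (le_trans h2 le_sup_right)

theorem pow_sup_le {𝔞 d : Ideal (S K)} (n : ℕ) : (𝔞 ⊔ d) ^ n ≤ 𝔞 ^ n ⊔ d := by
  have h := prod_sup_le (Finset.range n) (fun _ => 𝔞) d
  rw [Finset.prod_const, Finset.prod_const, Finset.card_range] at h
  exact h

/-- If two homogeneous ideals sum to something containing a power of the irrelevant ideal then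
the Hilbert functions add. -/
theorem hf_inf_of_mm_pow {𝔞 𝔟 : Ideal (S K)} (ha : GH 𝔞) (hb : GH 𝔟) {N : ℕ}
    (h : mm K ^ N ≤ 𝔞 ⊔ 𝔟) {t : ℕ} (ht : N ≤ t) : hf (𝔞 ⊓ 𝔟) t = hf 𝔞 t + hf 𝔟 t := by
  have h1 := hf_inf_add_sup ha hb t
  rw [hf_of_mm_pow h ht] at h1
  omega

theorem GH_span_singleton {f : S K} {c : ℕ} (h : f.IsHomogeneous c) : GH (Ideal.span {f}) := by
  apply GH_span
  intro x hx
  rw [Set.mem_singleton_iff] at hx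
  exact ⟨c, hx ▸ h⟩

theorem hf_eq_of_pc_eq {𝔞 𝔟 : Ideal (S K)} {t : ℕ} (h : pc 𝔞 t = pc 𝔟 t) : hf 𝔞 t = hf 𝔟 t := by
  unfold hf dd; rw [h]

theorem GH.le_of_pc_le {𝔞 𝔟 : Ideal (S K)} (ha : GH 𝔞) (h : ∀ t, pc 𝔞 t ≤ pc 𝔟 t) : 𝔞 ≤ 𝔟 := by
  intro x hx
  apply mem_of_components
  intro n
  have : homogeneousComponent n x ∈ pc 𝔞 n := by
    rw [mem_pc]; exact ⟨ha x hx n, homogeneousComponent_isHomogeneous n x⟩
  exact (mem_pc.mp (h n this)).1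

theorem pc_eq_of_le_of_hf {𝔞 𝔟 : Ideal (S K)} (h : 𝔞 ≤ 𝔟) {t : ℕ} (hh : hf 𝔞 t ≤ hf 𝔟 t) :
    pc 𝔞 t = pc 𝔟 t := by
  apply Submodule.eq_of_le_of_finrank_le (pc_mono h t)
  have h6 := hf_add_dd 𝔞 t
  have h7 := hf_add_dd 𝔟 t
  unfold dd nn at *
  omega

end Pool.Agent.Work.C21
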